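import Pool.Agent.H88.L.TH132.A.Low
import Pool.Agent.H88.L.TH125.Gal.Pub2

/-!
# The algebraic and the transcendental part of the cohomology of a variety with conjecture D
-/

set_option autoImplicit false
set_option linter.unusedSectionVars false

open CategoryTheory AlgebraicGeometry Finset

universe u v w

namespace Pool.Agent.H88.FL

open Pool.Agent.H914 Pool.Agent.H914.VarClass Pool.Agent.H914.VarClass.Obj
  Pool.Agent.H914.WeilCohomology Pool.Agent.H281R3.HT Pool.Agent.W552 Pool.Agent.TH132.A

variable {k : Type u} [Field k] {𝒱 : VarClass k} {ops : CycleOps 𝒱}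
  {W : WeilCohomology.{u, v} ops} {X Y : 𝒱.Obj}

/-- A class orthogonal to all algebraic classes of complementary codimension is zero. -/
lemma eq_zero_of_D (hDX : HomEqNum W X) {j : ℕ} (hj : j ≤ X.dim) {c : W.H X}
    (hc : c ∈ algClasses W X j)
    (h0 : ∀ d ∈ algClasses W X (X.dim - j), W.tr X (c * d) = 0) : c = 0 := by
  obtain ⟨z, hz, rfl⟩ := hc
  apply hDX j hj z hz
  intro w hw
  have h1 := h0 _ ⟨w, hw, rfl⟩
  have h2 := ops.mul_mem hz hw
  rw [show j + (X.dim - j) = X.dim by omega] at h2
  rw [← W.cl_mul, W.tr_cl h2] at h1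
  exact_mod_cast h1

/-- **The conjecture `D` and hard Lefschetz imply the conjecture `A`.** -/
theorem lefschetzA_of_D {D : X.Cycles} (hD : X.IsCyc 1 D) (hHL : HardLefschetz W X D)
    (hDX : HomEqNum W X) : LefschetzA W X D := by
  classical
  intro j hj z hz
  set L : Module.End W.K (W.H X) := LinearMap.mulLeft W.K (W.cl X D) with hL
  set e := X.dim - 2 * j with he
  obtain ⟨T, hTA, hTspan, hTli⟩ := exists_linearIndependent W.K (algClasses W X j)
  have hfin : T.Finite := hTli.setFinite
  have := hfin.fintype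
  have hTc : ∀ i : T, (i : W.H X) ∈ algClasses W X j := fun i => hTA i.2
  have hLc : ∀ c ∈ algClasses W X j, (L ^ e) c ∈ algClasses W X (X.dim - j) := by
    rintro _ ⟨w, hw, rfl⟩
    have h1 := divPow_mem (ops := ops) hD e hw
    rw [show j + e = X.dim - j by omega] at h1
    exact ⟨divPow ops D e w, h1, cl_divPow D e w⟩
  have hext : ∀ c ∈ algClasses W X (X.dim - j), (∀ k : T, W.tr X (c * k) = 0) → c = 0 := by
    intro c hc h0
    apply eq_zero_of_D hDX (show X.dim - j ≤ X.dim by omega) hc
    intro d hd
    rw [show X.dim - (X.dim - j) = j by omega] at hd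
    have h1 : d ∈ Submodule.span W.K T := by
      rw [hTspan]
      exact Submodule.subset_span hd
    clear hd
    induction h1 using Submodule.span_induction with
    | mem b hb => exact h0 ⟨b, hb⟩
    | zero => rw [mul_zero, map_zero]
    | add x y _ _ hx hy => rw [mul_add, map_add, hx, hy, add_zero]
    | smul r x _ hx => rw [mul_smul_comm, map_smul, hx, smul_zero]
  choose g hg using fun i k : T => alg_rat (hLc i (hTc i)) (hTc k)
  have hcomb : ∀ v : T → ℚ, ∀ k : T, W.tr X ((L ^ e) (∑ i : T, (v i : W.K) • (i : W.H X)) * k) =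
      ((Matrix.vecMul v (Matrix.of g) k : ℚ) : W.K) := by
    intro v k
    rw [map_sum, Finset.sum_mul, map_sum, Matrix.vecMul, dotProduct]
    push_cast
    apply Finset.sum_congr rfl
    intro i _
    have h1 := hg i k
    rw [bil_apply] at h1
    rw [map_smul, smul_mul_assoc, map_smul, h1, smul_eq_mul]
    rfl
  have hmemc : ∀ v : T → ℚ, ∑ i : T, (v i : W.K) • (i : W.H X) ∈ algClasses W X j := fun v =>
    alg_sum Finset.univ _ v (fun i _ => hTc i)
  have hsurj : Function.Surjective (Matrix.vecMulLinear (Matrix.of g)) := by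
    apply LinearMap.surjective_of_injective
    rw [← LinearMap.ker_eq_bot, LinearMap.ker_eq_bot']
    intro v hv
    have h1 : (L ^ e) (∑ i : T, (v i : W.K) • (i : W.H X)) = 0 := by
      apply hext _ (hLc _ (hmemc v))
      intro k
      rw [hcomb]
      have := congrFun hv k
      rw [Matrix.vecMulLinear_apply] at this
      rw [this, Pi.zero_apply, Rat.cast_zero]
    have h3 := (hHL (2 * j) hj).1 _ (alg_gr (hmemc v)) h1
    have h2 := Fintype.linearIndependent_iff.1 hTli _ h3
    funext i
    have := h2 i
    exact_mod_cast this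
  choose r hr using fun k : T => alg_rat (W := W) ⟨z, hz, rfl⟩ (hTc k)
  obtain ⟨v, hv⟩ := hsurj r
  obtain ⟨z', hz', hzv⟩ := hmemc v
  refine ⟨z', hz', ?_⟩
  rw [cl_divPow, hzv, ← sub_eq_zero]
  apply hext
  · exact alg_sub (hLc _ (hmemc v)) ⟨z, hz, rfl⟩
  · intro k
    have h1 := hr k
    rw [bil_apply] at h1
    rw [sub_mul, map_sub, hcomb, h1]
    have := congrFun hv k
    rw [Matrix.vecMulLinear_apply] at this
    rw [this, sub_self]

/-- A rational structure with a rational form which is nondegenerate on it has a finite `K`-basis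
with a dual family in it. -/
theorem exists_dual {K : Type*} [Field K] [CharZero K] {V : Type*} [AddCommGroup V] [Module K V]
    [Module.Finite K V] {M : V → Prop} (hM : RatSub K M) (β : V →ₗ[K] V →ₗ[K] K)
    (hrat : ∀ x y, M x → M y → ∃ q : ℚ, β x y = q)
    (hnd : ∀ x, M x → (∀ y, M y → β x y = 0) → x = 0) :
    ∃ (N : ℕ) (a b : Fin N → V), (∀ i, M (a i)) ∧ (∀ i, M (b i)) ∧
      (∀ i j, β (a i) (b j) = if i = j then 1 else 0) ∧
      ∀ x, M x → x ∈ Submodule.span K (Set.range a) := by
  classical
  obtain ⟨S, hSA, hSspan, hSli⟩ := exists_linearIndependent K {v | M v}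
  have hfin : S.Finite := hSli.setFinite
  have := hfin.fintype
  have hSc : ∀ i : S, M (i : V) := fun i => hSA i.2
  set φ := Fintype.equivFin S with hφ
  set N := Fintype.card S with hN
  set s : Fin N → V := fun i => (φ.symm i : V) with hs
  have hsM : ∀ i, M (s i) := fun i => hSc _
  have hsli : LinearIndependent K s := hSli.comp φ.symm φ.symm.injective
  have hrange : Set.range s = S := by
    ext x
    constructor
    · rintro ⟨i, rfl⟩
      exact (φ.symm i).2
    · intro hx
      exact ⟨φ ⟨x, hx⟩, by simp [hs]⟩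
  choose g hg using fun i k : Fin N => hrat _ _ (hsM i) (hsM k)
  set G : Matrix (Fin N) (Fin N) ℚ := Matrix.of g with hG
  have hspan : ∀ x, M x → x ∈ Submodule.span K (Set.range s) := by
    intro x hx
    rw [hrange, hSspan]
    exact Submodule.subset_span hx
  have hcomb : ∀ (v : Fin N → ℚ) (k : Fin N), β (∑ i, (v i : K) • s i) (s k) =
      ((Matrix.vecMul v G k : ℚ) : K) := by
    intro v k
    rw [map_sum, LinearMap.sum_apply, Matrix.vecMul, dotProduct]
    push_cast
    refine Finset.sum_congr rfl fun i _ => ?_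
    rw [map_smul, LinearMap.smul_apply, hg, smul_eq_mul]
    rfl
  have hinj : Function.Injective (Matrix.vecMulLinear G) := by
    rw [← LinearMap.ker_eq_bot, LinearMap.ker_eq_bot']
    intro v hv
    have h1 : ∑ i, (v i : K) • s i = 0 := by
      refine hnd _ (hM.sum _ fun i _ => hM.smul _ (hsM i)) fun y hy => ?_
      have h2 := hspan y hy
      clear hy
      induction h2 using Submodule.span_induction with
      | mem y hy' =>
        obtain ⟨k, rfl⟩ := hy'
        rw [hcomb]
        have := congrFun hv k
        rw [Matrix.vecMulLinear_apply] at this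
        rw [this, Pi.zero_apply, Rat.cast_zero]
      | zero => rw [map_zero]
      | add y z _ _ hy'' hz'' => rw [map_add, hy'', hz'', add_zero]
      | smul c y _ hy'' => rw [map_smul, hy'', smul_zero]
    funext i
    have h2 := Fintype.linearIndependent_iff.1 hsli (fun i => (v i : K)) h1 i
    exact_mod_cast h2
  have hu : IsUnit G := by
    rw [← Matrix.vecMul_injective_iff_isUnit]
    exact hinj
  have hdet : IsUnit G.det := (Matrix.isUnit_iff_isUnit_det G).1 hu
  refine ⟨N, s, fun j => ∑ k, ((G⁻¹ k j : ℚ) : K) • s k, hsM,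
    fun j => hM.sum _ fun k _ => hM.smul _ (hsM k), ?_, hspan⟩
  intro i j
  have h1 : ∑ k, G i k * G⁻¹ k j = if i = j then 1 else 0 := by
    have h2 := congrFun (congrFun (Matrix.mul_nonsing_inv G hdet) i) j
    rw [Matrix.mul_apply] at h2
    rw [h2, Matrix.one_apply]
  rw [map_sum]
  calc ∑ k, β (s i) (((G⁻¹ k j : ℚ) : K) • s k)
      = ∑ k, (((G i k * G⁻¹ k j : ℚ)) : K) := by
        refine Finset.sum_congr rfl fun k _ => ?_
        rw [map_smul, hg, smul_eq_mul, mul_comm]
        push_cast
        rfl
    _ = ((∑ k, G i k * G⁻¹ k j : ℚ) : K) := by push_cast; rfl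
    _ = _ := by
        rw [h1]
        split_ifs <;> simp

lemma AS_zero_of_pair (hDX : HomEqNum W X) {x : W.H X} (hx : AS W X x)
    (h0 : ∀ y, AS W X y → W.tr X (x * y) = 0) : x = 0 := by
  rw [Fr.AS_sum hx]
  refine Finset.sum_eq_zero fun j hj => ?_
  have hj' : j ≤ X.dim := by
    have := Finset.mem_range.1 hj
    omega
  refine eq_zero_of_D hDX hj' (hx.proj j) fun d hd => ?_
  rw [← h0 d (AS.of hd)]
  refine gr_induction (W.isInternal X) (p := fun x =>
    W.tr X (proj (W.isInternal X) (2 * j) x * d) = W.tr X (x * d)) ?_ ?_ x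
  · intro l b hb
    by_cases hl : l = 2 * j
    · subst hl; rw [proj_same _ hb]
    · rw [proj_ne _ hb hl, zero_mul, map_zero,
        W.tr_eq_zero (W.mul_mem hb (alg_gr hd)) (by omega)]
  · intro a b ha hb
    rw [map_add, add_mul, map_add, ha, hb, add_mul, map_add]

/-- Dual families of sums of algebraic classes. -/
structure DualFam (W : WeilCohomology.{u, v} ops) (X : 𝒱.Obj) {N : ℕ} (a b : Fin N → W.H X) :
    Prop where
  ha : ∀ i, AS W X (a i)
  hb : ∀ i, AS W X (b i)
  dual : ∀ i j, W.tr X (a i * b j) = if i = j then 1 else 0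
  span : ∀ x, AS W X x → x ∈ Submodule.span W.K (Set.range a)

lemma exists_dualFam (hDX : HomEqNum W X) : ∃ (N : ℕ) (a b : Fin N → W.H X),
    DualFam W X a b := by
  obtain ⟨N, a, b, ha, hb, hab, hspan⟩ := exists_dual (AS.ratSub (W := W) (X := X)) (bil W X)
    (fun x y hx hy => by rw [bil_apply]; exact (hx.mul hy).tr)
    (fun x hx h0 => AS_zero_of_pair hDX hx fun y hy => by rw [← bil_apply]; exact h0 y hy)
  exact ⟨N, a, b, ha, hb, fun i j => by rw [← bil_apply]; exact hab i j, hspan⟩


/-- the projector to the algebraic part -/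
noncomputable def al (W : WeilCohomology.{u, v} ops) {X : 𝒱.Obj} {N : ℕ} (a b : Fin N → W.H X) :
    Module.End W.K (W.H X) :=
  ∑ i, (LinearMap.toSpanSingleton W.K (W.H X) (a i)) ∘ₗ W.tr X ∘ₗ LinearMap.mulLeft W.K (b i)

theorem al_apply {N : ℕ} (a b : Fin N → W.H X) (x : W.H X) :
    al W a b x = ∑ i, W.tr X (b i * x) • a i := by
  rw [al, LinearMap.sum_apply]
  rfl

theorem span_comm {c : W.H X} (hc : c ∈ algSpan W X) (x : W.H X) : c * x = x * c := by
  rw [algSpan] at hc
  induction hc using Submodule.span_induction with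
  | mem c hc =>
    obtain ⟨j, hj⟩ := Set.mem_iUnion.1 hc
    exact alg_even_comm hj x
  | zero => rw [zero_mul, mul_zero]
  | add a b _ _ ha hb => rw [add_mul, mul_add, ha, hb]
  | smul r a _ ha => rw [smul_mul_assoc, mul_smul_comm, ha]

theorem AS_span {x : W.H X} (hx : AS W X x) : x ∈ algSpan W X := by
  refine AS.ind (p := fun x => x ∈ algSpan W X) ?_ (fun x y hx hy => Submodule.add_mem _ hx hy) hx
  intro j x hx
  exact Submodule.subset_span (Set.mem_iUnion.2 ⟨j, hx⟩)

theorem trans_AS {t c : W.H X} (ht : t ∈ transcendental W X) (hc : AS W X c) :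
    W.tr X (t * c) = 0 := by
  refine AS.ind (p := fun c => W.tr X (t * c) = 0) ?_
    (fun x y hx hy => by rw [mul_add, map_add, hx, hy, add_zero]) hc
  intro j x hx
  have := mem_trans.1 ht j x hx
  rwa [bil_apply] at this

theorem trans_AS' {t c : W.H X} (ht : t ∈ transcendental W X) (hc : AS W X c) :
    W.tr X (c * t) = 0 := by
  rw [hc.comm]
  exact trans_AS ht hc

theorem trans_of_AS {t : W.H X} (h : ∀ c, AS W X c → W.tr X (t * c) = 0) :
    t ∈ transcendental W X := by
  rw [mem_trans]
  intro j c hc
  rw [bil_apply]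
  exact h c (AS.of hc)

theorem trans_span {t c : W.H X} (ht : t ∈ transcendental W X) (hc : c ∈ algSpan W X) :
    W.tr X (t * c) = 0 := by
  rw [algSpan] at hc
  induction hc using Submodule.span_induction with
  | mem c hc =>
    obtain ⟨j, hj⟩ := Set.mem_iUnion.1 hc
    exact trans_AS ht (AS.of hj)
  | zero => rw [mul_zero, map_zero]
  | add a b _ _ ha hb => rw [mul_add, map_add, ha, hb, add_zero]
  | smul r a _ ha => rw [mul_smul_comm, map_smul, ha, smul_zero]

namespace DualFam

variable {N : ℕ} {a b : Fin N → W.H X} (h : DualFam W X a b)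

include h

theorem al_mem (x : W.H X) : al W a b x ∈ algSpan W X := by
  rw [al_apply]
  exact Submodule.sum_mem _ fun i _ => Submodule.smul_mem _ _ (AS_span (h.ha i))

theorem al_a (j : Fin N) : al W a b (a j) = a j := by
  rw [al_apply, Finset.sum_eq_single j]
  · rw [(h.hb j).comm, h.dual, if_pos rfl, one_smul]
  · intro i _ hij
    rw [(h.hb i).comm, h.dual, if_neg (Ne.symm hij), zero_smul]
  · intro h0
    exact absurd (Finset.mem_univ _) h0

theorem al_span {x : W.H X} (hx : x ∈ algSpan W X) : al W a b x = x := by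
  have h1 : x ∈ Submodule.span W.K (Set.range a) := by
    rw [algSpan] at hx
    induction hx using Submodule.span_induction with
    | mem c hc =>
      obtain ⟨j, hj⟩ := Set.mem_iUnion.1 hc
      exact h.span c (AS.of hj)
    | zero => exact Submodule.zero_mem _
    | add a b _ _ ha hb => exact Submodule.add_mem _ ha hb
    | smul r a _ ha => exact Submodule.smul_mem _ r ha
  clear hx
  induction h1 using Submodule.span_induction with
  | mem c hc =>
    obtain ⟨j, rfl⟩ := hc
    exact h.al_a j
  | zero => rw [map_zero]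
  | add a b _ _ ha hb => rw [map_add, ha, hb]
  | smul r a _ ha => rw [map_smul, ha]

theorem al_trans {t : W.H X} (ht : t ∈ transcendental W X) : al W a b t = 0 := by
  rw [al_apply]
  exact Finset.sum_eq_zero fun i _ => by rw [trans_AS' ht (h.hb i), zero_smul]

theorem expand_b (hDX : HomEqNum W X) {y : W.H X} (hy : AS W X y) :
    y = ∑ i, W.tr X (a i * y) • b i := by
    rw [← sub_eq_zero]
    apply AS_zero_of_pair hDX
    · have h2 : AS W X (∑ i, W.tr X (a i * y) • b i) := by
        apply AS.ratSub.sum
        intro i _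
        obtain ⟨q, hq⟩ := ((h.ha i).mul hy).tr
        rw [hq]
        exact (h.hb i).smul q
      exact AS.ratSub.sub hy h2
    · intro z hz
      have h2 := h.span z hz
      clear hz
      induction h2 using Submodule.span_induction with
      | mem z hz =>
        obtain ⟨j, rfl⟩ := hz
        rw [sub_mul, map_sub, Finset.sum_mul, map_sum, Finset.sum_eq_single j]
        · rw [smul_mul_assoc, map_smul, (h.hb j).comm, h.dual, if_pos rfl, smul_eq_mul, mul_one,
            hy.comm, sub_self]
        · intro i _ hij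
          rw [smul_mul_assoc, map_smul, (h.hb i).comm, h.dual, if_neg (Ne.symm hij), smul_zero]
        · intro h0
          exact absurd (Finset.mem_univ _) h0
      | zero => rw [mul_zero, map_zero]
      | add c d _ _ hc hd => rw [mul_add, map_add, hc, hd, add_zero]
      | smul r c _ hc => rw [mul_smul_comm, map_smul, hc, smul_zero]

theorem sub_al_trans (hDX : HomEqNum W X) (x : W.H X) :
    x - al W a b x ∈ transcendental W X := by
  apply trans_of_AS
  intro y hy
  have h1 : y = ∑ i, W.tr X (a i * y) • b i := h.expand_b hDX hy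
  rw [h1, sub_mul, map_sub, sub_eq_zero, Finset.mul_sum, Finset.mul_sum, map_sum, map_sum]
  refine Finset.sum_congr rfl fun j _ => ?_
  rw [mul_smul_comm, mul_smul_comm, map_smul, map_smul]
  congr 1
  rw [al_apply, Finset.sum_mul, map_sum, Finset.sum_eq_single j]
  · rw [smul_mul_assoc, map_smul, h.dual, if_pos rfl, smul_eq_mul, mul_one, (h.hb j).comm]
  · intro i _ hij
    rw [smul_mul_assoc, map_smul, h.dual, if_neg hij, smul_zero]
  · intro h0
    exact absurd (Finset.mem_univ _) h0

end DualFam

end Pool.Agent.H88.FL
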