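import Pool.Agent.H88.FL.Core

/-!
# The dimension of traceless subspaces
-/

open Finset Function

set_option linter.unusedSectionVars false

namespace Pool.Agent.H88.FL

variable {S : Type} [Fintype S] [DecidableEq S] {ι : Type} [Fintype ι] [DecidableEq ι] {g : ι → ℕ}

/-- the number of negative slots of the colour `i` -/
def neg (r : S → J g) (i : ι) : ℕ := (univ.filter fun s => (r s).1 = i ∧ (r s).2.2 = false).card

/-- the positive element of the same pair -/
def pos (x : J g) : J g := ⟨x.1, (x.2.1, true)⟩

theorem neg_le (r : S → J g) (i : ι) : neg r i ≤ Fintype.card S := Finset.card_le_univ _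

theorem eq_mi {x : J g} {i : ι} (h : x.1 = i) (h' : x.2.2 = false) : ∃ a, x = mi i a := by
  obtain ⟨j, a, b⟩ := x
  obtain rfl : j = i := h
  obtain rfl : b = false := h'
  exact ⟨a, rfl⟩

theorem eq_pl {x : J g} {i : ι} (h : x.1 = i) (h' : x.2.2 = true) : ∃ a, x = pl i a := by
  obtain ⟨j, a, b⟩ := x
  obtain rfl : j = i := h
  obtain rfl : b = true := h'
  exact ⟨a, rfl⟩

/-- turning a negative slot positive -/
theorem neg_update {r : S → J g} {s : S} {i : ι} {a b : Fin (g i)} (h : r s = mi i a) (j : ι) :
    neg (update r s (pl i b)) j + (if j = i then 1 else 0) = neg r j := by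
  have h1 : (univ.filter fun t => ((update r s (pl i b)) t).1 = j ∧
      ((update r s (pl i b)) t).2.2 = false) =
      (univ.filter fun t => (r t).1 = j ∧ (r t).2.2 = false).erase s := by
    ext t
    simp only [mem_filter, mem_univ, true_and, mem_erase]
    by_cases ht : t = s
    · subst ht
      rw [update_self]
      simp
    · rw [update_of_ne ht]
      simp [ht]
  rw [neg, h1, neg]
  by_cases hj : j = i
  · subst hj
    rw [if_pos rfl, Finset.card_erase_add_one]
    rw [mem_filter, h]
    exact ⟨mem_univ _, rfl, rfl⟩
  · rw [if_neg hj, add_zero, Finset.erase_eq_of_notMem]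
    simp only [mem_filter, mem_univ, true_and, not_and]
    intro h2
    rw [h] at h2
    exact absurd h2.symm hj

theorem neg_update' {r : S → J g} {s : S} {i : ι} {a b : Fin (g i)} (h : r s = pl i b) (j : ι) :
    neg (update r s (mi i a)) j = neg r j + (if j = i then 1 else 0) := by
  have h1 := neg_update (r := update r s (mi i a)) (s := s) (i := i) (a := a) (b := b)
    (update_self _ _ _) j
  rw [update_idem, ← h, update_eq_self] at h1
  exact h1.symm

variable {K : Type*} [Field K]

/-- The hypotheses on a space `R` of functions: they are supported on the configurations with the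
colours `c`, all contractions vanish, and `R` is stable under the symplectic Lie algebras. -/
structure IsRep (c : S → ι) (R : Submodule K ((S → J g) → K)) : Prop where
  supp : ∀ w ∈ R, ∀ r, (∃ s, (r s).1 ≠ c s) → w r = 0
  tr : ∀ w ∈ R, ∀ i s t, s ≠ t → ∀ r, ∑ a, w (update (update r s (pl i a)) t (mi i a)) =
      ∑ a, w (update (update r s (mi i a)) t (pl i a))
  low : ∀ w ∈ R, ∀ i a b, el (pl i b) (mi i a) w + el (pl i a) (mi i b) w ∈ R
  up : ∀ w ∈ R, ∀ i a, el (mi i a) (pl i a) w ∈ R

section

variable {c : S → ι} {R : Submodule K ((S → J g) → K)}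

variable [CharZero K] in
/-- a nonzero element supported on the positive configurations -/
theorem IsRep.exists_pos (h : IsRep c R) (m : ℕ) : ∀ w ∈ R, w ≠ 0 →
    (∀ r, w r ≠ 0 → ∑ i, neg r i ≤ m) → ∃ w' ∈ R, w' ≠ 0 ∧ ∀ r, w' r ≠ 0 → ∀ i, neg r i = 0 := by
  induction m with
  | zero =>
    intro w hw hw0 hm
    refine ⟨w, hw, hw0, fun r hr i => ?_⟩
    have h1 := hm r hr
    exact (Finset.sum_eq_zero_iff.1 (Nat.le_zero.1 h1)) i (mem_univ _)
  | succ m ih =>
    intro w hw hw0 hm
    by_cases hN : ∀ i a b, el (pl i b) (mi i a) w + el (pl i a) (mi i b) w = 0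
    · refine ⟨w, hw, hw0, fun r hr i => ?_⟩
      by_contra hne
      obtain ⟨s, hs⟩ : (univ.filter fun s => (r s).1 = i ∧ (r s).2.2 = false).Nonempty :=
        Finset.card_pos.1 (Nat.pos_of_ne_zero hne)
      simp only [mem_filter, mem_univ, true_and] at hs
      obtain ⟨a, ha⟩ := eq_mi hs.1 hs.2
      let _ : Module ℚ K := Module.compHom K (algebraMap ℚ K)
      exact hr (pos_gen w i (hN i) (fun s t hst r => h.tr w hw i s t hst r) ha)
    · push Not at hN
      obtain ⟨i, a, b, hN⟩ := hN
      refine ih _ (h.low w hw i a b) hN fun r hr => ?_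
      have key : ∀ a b, el (pl i b) (mi i a) w r ≠ 0 → ∑ j, neg r j ≤ m := by
        intro a b h0
        obtain ⟨s, -, hs⟩ := Finset.exists_ne_zero_of_sum_ne_zero h0
        by_cases h1 : r s = pl i b
        · rw [if_pos h1] at hs
          have h2 := hm _ hs
          rw [Finset.sum_congr rfl fun j _ => neg_update' h1 j, Finset.sum_add_distrib,
            Finset.sum_ite_eq' univ i, if_pos (mem_univ _)] at h2
          omega
        · rw [if_neg h1] at hs
          exact absurd rfl hs
      by_cases h1 : el (pl i b) (mi i a) w r = 0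
      · refine key b a fun h2 => hr ?_
        rw [Pi.add_apply, h1, h2, add_zero]
      · exact key a b h1

/-- the functions with a given number of negative slots -/
def tw (w : (S → J g) → K) (k : ι → ℕ) (r : S → J g) : K :=
  if (∀ i, neg r i = k i) then w (fun s => pos (r s)) else 0

theorem pos_upd {r : S → J g} {s : S} {i : ι} {a : Fin (g i)} (h : r s = mi i a) :
    (fun t => pos (update r s (pl i a) t)) = fun t => pos (r t) := by
  funext t
  by_cases ht : t = s
  · subst ht
    rw [update_self, h]
    rfl
  · rw [update_of_ne ht]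

theorem pos_eq {r : S → J g} (h : ∀ i, neg r i = 0) : (fun s => pos (r s)) = r := by
  funext s
  have h1 := h (r s).1
  rw [neg, Finset.card_eq_zero, Finset.filter_eq_empty_iff] at h1
  have h2 := h1 (mem_univ s)
  simp only [true_and, Bool.not_eq_false] at h2
  obtain ⟨a, ha⟩ := eq_pl rfl h2
  rw [ha]
  rfl

theorem up_tw (w : (S → J g) → K) (k : ι → ℕ) (i : ι) :
    ∑ a, el (mi i a) (pl i a) (tw w k) = ((k i : K) + 1) • tw w (update k i (k i + 1)) := by
  funext r
  rw [Finset.sum_apply, Pi.smul_apply, smul_eq_mul]
  simp only [el]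
  rw [Finset.sum_comm]
  have h1 : ∀ s, ∑ a, (if r s = mi i a then tw w k (update r s (pl i a)) else 0) =
      if (r s).1 = i ∧ (r s).2.2 = false then
        (if ∀ j, neg r j = update k i (k i + 1) j then w (fun s => pos (r s)) else 0) else 0 := by
    intro s
    by_cases h : (r s).1 = i ∧ (r s).2.2 = false
    · rw [if_pos h]
      obtain ⟨a, ha⟩ := eq_mi h.1 h.2
      rw [Finset.sum_eq_single a]
      · rw [if_pos ha, tw, pos_upd ha]
        have h2 : (∀ j, neg (update r s (pl i a)) j = k j) ↔
            ∀ j, neg r j = update k i (k i + 1) j := by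
          refine forall_congr' fun j => ?_
          have h3 := neg_update (b := a) ha j
          by_cases hj : j = i
          · subst hj
            rw [update_self, if_pos rfl] at *
            omega
          · rw [update_of_ne hj]
            rw [if_neg hj] at h3
            omega
        simp only [h2]
      · intro b _ hb
        rw [if_neg]
        intro h2
        apply hb
        have := ha.symm.trans h2
        simpa [eq_comm] using this
      · intro h2
        exact absurd (mem_univ _) h2
    · rw [if_neg h]
      refine Finset.sum_eq_zero fun a _ => ?_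
      rw [if_neg]
      intro h2
      apply h
      rw [h2]
      exact ⟨rfl, rfl⟩
  rw [Finset.sum_congr rfl fun s _ => h1 s, ← Finset.sum_filter, Finset.sum_const, nsmul_eq_mul]
  change ((neg r i : ℕ) : K) * _ = _
  rw [tw]
  by_cases h : ∀ j, neg r j = update k i (k i + 1) j
  · rw [if_pos h]
    congr 1
    have := h i
    rw [update_self] at this
    rw [this]
    push_cast
    ring
  · rw [if_neg h, mul_zero, mul_zero]

variable [CharZero K]

theorem IsRep.tw_mem (h : IsRep c R) {w : (S → J g) → K} (hw : w ∈ R)
    (hp : ∀ r, w r ≠ 0 → ∀ i, neg r i = 0) (m : ℕ) :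
    ∀ k : ι → ℕ, ∑ i, k i = m → tw w k ∈ R := by
  induction m with
  | zero =>
    intro k hk
    have h1 : tw w k = w := by
      funext r
      rw [tw]
      have h2 : ∀ i, k i = 0 := fun i => (Finset.sum_eq_zero_iff.1 hk) i (mem_univ _)
      by_cases h3 : ∀ i, neg r i = 0
      · rw [if_pos fun i => (h3 i).trans (h2 i).symm, pos_eq h3]
      · rw [if_neg]
        · by_contra h4
          exact h3 (hp r (Ne.symm h4))
        · intro h4
          exact h3 fun i => (h4 i).trans (h2 i)
    rw [h1]
    exact hw
  | succ m ih =>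
    intro k hk
    obtain ⟨i, -, hi⟩ : ∃ i ∈ univ, k i ≠ 0 := by
      by_contra hcon
      push Not at hcon
      rw [Finset.sum_eq_zero hcon] at hk
      omega
    have h1 : k = update (update k i (k i - 1)) i ((update k i (k i - 1)) i + 1) := by
      rw [update_self, update_idem, Nat.sub_add_cancel (Nat.pos_of_ne_zero hi), update_eq_self]
    have h2 : ∑ j, (update k i (k i - 1)) j = m := by
      have h3 := Finset.add_sum_erase univ k (mem_univ i)
      have h4 := Finset.add_sum_erase univ (update k i (k i - 1)) (mem_univ i)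
      rw [update_self] at h4
      have h5 : ∑ x ∈ univ.erase i, update k i (k i - 1) x = ∑ x ∈ univ.erase i, k x :=
        Finset.sum_congr rfl fun x hx => update_of_ne (Finset.ne_of_mem_erase hx) _ _
      omega
    have h3 := up_tw w (update k i (k i - 1)) i
    rw [← h1] at h3
    have h4 : (((update k i (k i - 1)) i : K) + 1) • tw w k ∈ R := by
      rw [← h3]
      exact Submodule.sum_mem _ fun a _ => h.up _ (ih _ h2) i a
    have h5 : (((update k i (k i - 1)) i : ℕ) : K) + 1 ≠ 0 := by
      exact_mod_cast Nat.succ_ne_zero ((update k i (k i - 1)) i)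
    have h6 := Submodule.smul_mem R ((((update k i (k i - 1)) i : ℕ) : K) + 1)⁻¹ h4
    rwa [smul_smul, inv_mul_cancel₀ h5, one_smul] at h6

/-- **The dimension of a traceless representation.** -/
theorem IsRep.card_le (h : IsRep c R) (hR : R ≠ ⊥) :
    ∏ i, ((univ.filter fun s => c s = i).card + 1) ≤ Module.finrank K R := by
  classical
  obtain ⟨w0, hw0, hw0'⟩ := Submodule.exists_mem_ne_zero_of_ne_bot hR
  obtain ⟨w, hw, hwne, hp⟩ := h.exists_pos (∑ _i : ι, Fintype.card S) w0 hw0 hw0'
    fun r _ => Finset.sum_le_sum fun i _ => neg_le r i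
  obtain ⟨r0, hr0⟩ := Function.ne_iff.1 hwne
  rw [Pi.zero_apply] at hr0
  have hneg0 := hp r0 hr0
  have hc : ∀ s, (r0 s).1 = c s := by
    intro s
    by_contra hne
    exact hr0 (h.supp w hw r0 ⟨s, hne⟩)
  have hpos0 : ∀ s, (r0 s).2.2 = true := by
    intro s
    have h1 := congrFun (pos_eq hneg0) s
    rw [← h1]
    rfl
  -- the configurations
  have hex : ∀ k : (∀ i, Fin ((univ.filter fun s => c s = i).card + 1)),
      ∃ r : S → J g, (∀ i, neg r i = k i) ∧ (fun s => pos (r s)) = r0 := by
    intro k
    have h1 : ∀ i, ∃ Q ⊆ univ.filter fun s => c s = i, Q.card = k i := by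
      intro i
      exact Finset.exists_subset_card_eq (Nat.lt_succ_iff.1 (k i).2)
    choose Q hQ hQc using h1
    refine ⟨fun s => if s ∈ Q (c s) then ⟨(r0 s).1, ((r0 s).2.1, false)⟩ else r0 s, fun i => ?_, ?_⟩
    · rw [neg, ← hQc i]
      congr 1
      ext s
      simp only [mem_filter, mem_univ, true_and]
      constructor
      · rintro ⟨h1, h2⟩
        by_cases h3 : s ∈ Q (c s)
        · rw [if_pos h3] at h1
          have h4 : c s = i := (hc s).symm.trans h1
          rwa [h4] at h3
        · rw [if_neg h3, hpos0] at h2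
          exact absurd h2 (by simp)
      · intro h1
        have h2 := hQ i h1
        simp only [mem_filter, mem_univ, true_and] at h2
        subst h2
        rw [if_pos h1]
        exact ⟨hc s, rfl⟩
    · funext s
      beta_reduce
      split_ifs with h1
      · have := congrFun (pos_eq hneg0) s
        rw [← this]
        rfl
      · exact congrFun (pos_eq hneg0) s
  choose ρ hρ hρ' using hex
  have hmem : ∀ k : (∀ i, Fin ((univ.filter fun s => c s = i).card + 1)),
      tw w (fun i => (k i : ℕ)) ∈ R := fun k => h.tw_mem hw hp _ _ rfl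
  have hval : ∀ k l : (∀ i, Fin ((univ.filter fun s => c s = i).card + 1)),
      tw w (fun i => (k i : ℕ)) (ρ l) = if k = l then w r0 else 0 := by
    intro k l
    rw [tw, hρ']
    by_cases hkl : k = l
    · subst hkl
      rw [if_pos (hρ k), if_pos rfl]
    · rw [if_neg hkl, if_neg]
      intro h1
      apply hkl
      funext i
      apply Fin.ext
      rw [← h1 i, hρ]
  have hli : LinearIndependent K
      (fun k : (∀ i, Fin ((univ.filter fun s => c s = i).card + 1)) =>
        (⟨tw w (fun i => (k i : ℕ)), hmem k⟩ : R)) := by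
    rw [Fintype.linearIndependent_iff]
    intro a ha l
    have h1 := congrArg (fun x : R => (x : (S → J g) → K) (ρ l)) ha
    simp only [Submodule.coe_sum, Submodule.coe_smul, Finset.sum_apply, Pi.smul_apply,
      smul_eq_mul, hval, Submodule.coe_zero, Pi.zero_apply] at h1
    rw [Finset.sum_eq_single l] at h1
    · rw [if_pos rfl] at h1
      exact (mul_eq_zero.1 h1).resolve_right hr0
    · intro k _ hk
      rw [if_neg hk, mul_zero]
    · intro h2
      exact absurd (mem_univ _) h2
  have h1 := hli.fintype_card_le_finrank
  rw [Fintype.card_pi] at h1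
  simpa using h1

end

end Pool.Agent.H88.FL
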