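import Mathlib

/-!
# Symplectic bases
-/

open Finset Function

namespace Pool.Agent.H88.FL

universe u v

variable {K : Type u} [Field K]

/-- The standard symplectic form. -/
def sf (K : Type*) [Field K] {m : ℕ} (x y : Fin m × Bool) : K :=
  if x.1 = y.1 then (if x.2 then (if y.2 then 0 else 1) else (if y.2 then -1 else 0)) else 0

theorem sf_true_false {m : ℕ} (a b : Fin m) :
    sf K (a, true) (b, false) = if a = b then 1 else 0 := by
  simp [sf]

theorem sf_false_true {m : ℕ} (a b : Fin m) :
    sf K (a, false) (b, true) = if a = b then -1 else 0 := by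
  simp [sf]

theorem sf_same {m : ℕ} (a b : Fin m) (s : Bool) : sf K (a, s) (b, s) = 0 := by
  cases s <;> simp [sf]

/-- linear independence from the Gram matrix -/
theorem li_of_gram {V : Type v} [AddCommGroup V] [Module K V] {B : V →ₗ[K] V →ₗ[K] K} {m : ℕ}
    {b : Fin m × Bool → V} (hb : ∀ x y, B (b x) (b y) = sf K x y) : LinearIndependent K b := by
  rw [Fintype.linearIndependent_iff]
  intro c hc x
  obtain ⟨a, s⟩ := x
  have h1 := congrArg (fun z => B z (b (a, !s))) hc
  simp only [map_sum, map_smul, LinearMap.sum_apply, LinearMap.smul_apply, hb, smul_eq_mul,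
    map_zero, LinearMap.zero_apply] at h1
  rw [Finset.sum_eq_single (a, s)] at h1
  · cases s
    · simp only [Bool.not_false, sf_false_true, if_true] at h1
      simpa using h1
    · simp only [Bool.not_true, sf_true_false, if_true] at h1
      simpa using h1
  · rintro ⟨a', s'⟩ _ hne
    by_cases ha : a' = a
    · subst ha
      have hs : s' = !s := by
        cases s <;> cases s' <;> simp_all
      rw [hs, sf_same, mul_zero]
    · rw [sf, if_neg ha, mul_zero]
  · intro h
    exact absurd (Finset.mem_univ _) h

theorem exists_symp_aux (n : ℕ) : ∀ (V : Type v) [AddCommGroup V] [Module K V] [Module.Finite K V]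
    (B : V →ₗ[K] V →ₗ[K] K), (∀ x y, B x y = -B y x) → (∀ x, B x x = 0) →
    (∀ x, (∀ y, B x y = 0) → x = 0) → Module.finrank K V = n →
    ∃ (m : ℕ) (b : Fin m × Bool → V), (∀ x y, B (b x) (b y) = sf K x y) ∧
      ⊤ ≤ Submodule.span K (Set.range b) := by
  induction n using Nat.strong_induction_on with
  | _ n ih =>
    intro V _ _ _ B hsk hal hnd hn
    by_cases h0 : ∀ v : V, v = 0
    · refine ⟨0, fun x => x.1.elim0, fun x => x.1.elim0, fun v _ => ?_⟩
      rw [h0 v]
      exact Submodule.zero_mem _
    push Not at h0
    obtain ⟨v, hv⟩ := h0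
    obtain ⟨w', hw'⟩ : ∃ w, B v w ≠ 0 := by
      by_contra hcon
      push Not at hcon
      exact hv (hnd v hcon)
    obtain ⟨w, hw⟩ : ∃ w, B v w = 1 := ⟨(B v w')⁻¹ • w', by
      rw [map_smul, smul_eq_mul, inv_mul_cancel₀ hw']⟩
    have hwv : B w v = -1 := by rw [hsk, hw]
    set U : Submodule K V := LinearMap.ker (B v) ⊓ LinearMap.ker (B w) with hU
    have hmemU : ∀ x : V, x ∈ U ↔ B v x = 0 ∧ B w x = 0 := by
      intro x
      rw [hU, Submodule.mem_inf, LinearMap.mem_ker, LinearMap.mem_ker]
    have hdec : ∀ u : V, u - (B u w) • v + (B u v) • w ∈ U := by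
      intro u
      rw [hmemU]
      constructor
      · rw [map_add, map_sub, map_smul, map_smul, hal, hw, smul_eq_mul, smul_eq_mul, hsk v u]
        ring
      · rw [map_add, map_sub, map_smul, map_smul, hal, hwv, smul_eq_mul, smul_eq_mul, hsk w u]
        ring
    have hlt : Module.finrank K U < n := by
      rw [← hn]
      apply Submodule.finrank_lt
      intro h
      have h1 : w ∈ U := by rw [h]; exact Submodule.mem_top
      rw [hU, Submodule.mem_inf, LinearMap.mem_ker, hw] at h1
      exact one_ne_zero h1.1
    obtain ⟨m, b, hb, hspan⟩ := ih _ hlt U (B.domRestrict₁₂ U U) (fun x y => hsk _ _)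
      (fun x => hal _) (fun x hx => by
        apply Subtype.ext
        apply hnd
        intro y
        have h1 := hx ⟨_, hdec y⟩
        change B (x : V) (y - (B y w) • v + (B y v) • w) = 0 at h1
        have h2 := (hmemU _).1 x.2
        rw [map_add, map_sub, map_smul, map_smul, hsk (x : V) v, hsk (x : V) w, h2.1, h2.2] at h1
        simpa using h1) rfl
    have hbU : ∀ x, B v (b x : V) = 0 ∧ B w (b x : V) = 0 := by
      intro x
      exact (hmemU _).1 (b x).2
    refine ⟨m + 1, fun x => Fin.cases (if x.2 then v else w) (fun a => (b (a, x.2) : V)) x.1,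
      ?_, ?_⟩
    · rintro ⟨x, s⟩ ⟨y, s'⟩
      refine Fin.cases ?_ (fun x => ?_) x
      · refine Fin.cases ?_ (fun y => ?_) y
        · cases s <;> cases s' <;> simp [sf, hal, hw, hwv]
        · have h1 := hbU (y, s')
          have h3 : sf K ((0 : Fin (m + 1)), s) (y.succ, s') = 0 := by
            rw [sf, if_neg (Fin.succ_ne_zero y).symm]
          rw [h3]
          cases s
          · exact h1.2
          · exact h1.1
      · refine Fin.cases ?_ (fun y => ?_) y
        · have h1 := hbU (x, s)
          have h3 : sf K (x.succ, s) ((0 : Fin (m + 1)), s') = 0 := by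
            rw [sf, if_neg (Fin.succ_ne_zero x)]
          rw [h3]
          cases s'
          · change B (b (x, s) : V) w = 0
            rw [hsk, h1.2, neg_zero]
          · change B (b (x, s) : V) v = 0
            rw [hsk, h1.1, neg_zero]
        · have h1 := hb (x, s) (y, s')
          change B (b (x, s) : V) (b (y, s') : V) = _ at h1
          change B (b (x, s) : V) (b (y, s') : V) = _
          rw [h1, sf, sf]
          simp only [Fin.succ_inj]
    · intro u _
      have h1 : (⟨_, hdec u⟩ : U) ∈ Submodule.span K (Set.range b) := hspan Submodule.mem_top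
      have h2 : ∀ z : U, z ∈ Submodule.span K (Set.range b) → (z : V) ∈ Submodule.span K
          (Set.range fun x : Fin (m + 1) × Bool =>
            Fin.cases (motive := fun _ => V) (if x.2 then v else w) (fun a => (b (a, x.2) : V))
              x.1) := by
        intro z hz
        induction hz using Submodule.span_induction with
        | mem z hz =>
          obtain ⟨⟨a, s⟩, rfl⟩ := hz
          exact Submodule.subset_span ⟨(a.succ, s), rfl⟩
        | zero => exact Submodule.zero_mem _
        | add x y _ _ hx hy => exact Submodule.add_mem _ hx hy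
        | smul c x _ hx => exact Submodule.smul_mem _ c hx
      have h3 := h2 _ h1
      have hv' : v ∈ Submodule.span K
          (Set.range fun x : Fin (m + 1) × Bool =>
            Fin.cases (motive := fun _ => V) (if x.2 then v else w) (fun a => (b (a, x.2) : V))
              x.1) := Submodule.subset_span ⟨(0, true), rfl⟩
      have hw'' : w ∈ Submodule.span K
          (Set.range fun x : Fin (m + 1) × Bool =>
            Fin.cases (motive := fun _ => V) (if x.2 then v else w) (fun a => (b (a, x.2) : V))
              x.1) := Submodule.subset_span ⟨(0, false), rfl⟩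
      have h4 : u = (u - (B u w) • v + (B u v) • w) + (B u w) • v - (B u v) • w := by abel
      rw [h4]
      exact Submodule.sub_mem _ (Submodule.add_mem _ h3 (Submodule.smul_mem _ _ hv'))
        (Submodule.smul_mem _ _ hw'')

/-- **Symplectic bases exist.** -/
theorem exists_symp {V : Type v} [AddCommGroup V] [Module K V] [Module.Finite K V]
    {B : V →ₗ[K] V →ₗ[K] K} (hsk : ∀ x y, B x y = -B y x) (hal : ∀ x, B x x = 0)
    (hnd : ∀ x, (∀ y, B x y = 0) → x = 0) :
    ∃ (m : ℕ) (b : Module.Basis (Fin m × Bool) K V), ∀ x y, B (b x) (b y) = sf K x y := by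
  obtain ⟨m, b, hb, hspan⟩ := exists_symp_aux _ V B hsk hal hnd rfl
  refine ⟨m, Module.Basis.mk (li_of_gram hb) hspan, fun x y => ?_⟩
  rw [Module.Basis.mk_apply, Module.Basis.mk_apply, hb]

end Pool.Agent.H88.FL
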