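import Pool.Agent.H88.FL.Forms
import Pool.Agent.H88.FL.Rep
import Pool.Agent.H88.FL.Symp

/-!
# Coordinates of multilinear forms in symplectic bases
-/

open Finset Function

set_option linter.unusedSectionVars false

namespace Pool.Agent.H88.FL

universe u v w x

variable {K : Type u} [Field K] [CharZero K] {ι : Type} [Fintype ι] [DecidableEq ι]
  {P : ι → Type v} [∀ i, AddCommGroup (P i)] [∀ i, Module K (P i)]
  {S : Type} [Fintype S] [DecidableEq S] {g : ι → ℕ}

/-- the elements of the bases, in the product of the spaces -/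
noncomputable def bh (b : ∀ i, Module.Basis (Fin (g i) × Bool) K (P i)) (x : J g) : ∀ i, P i :=
  Pi.single x.1 (b x.1 x.2)

/-- the coordinates of a form -/
noncomputable def kap (b : ∀ i, Module.Basis (Fin (g i) × Bool) K (P i)) :
    MultilinearMap K (fun _ : S => ∀ i, P i) K →ₗ[K] ((S → J g) → K) where
  toFun φ r := φ fun s => bh b (r s)
  map_add' φ ψ := rfl
  map_smul' c φ := rfl

variable {b : ∀ i, Module.Basis (Fin (g i) × Bool) K (P i)} {B : ∀ i, P i →ₗ[K] P i →ₗ[K] K}

theorem kap_apply (φ : MultilinearMap K (fun _ : S => ∀ i, P i) K) (r : S → J g) :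
    kap b φ r = φ fun s => bh b (r s) := rfl

theorem update_bh (r : S → J g) (s : S) (x : J g) :
    update (fun t => bh b (r t)) s (bh b x) = fun t => bh b (update r s x t) := by
  funext t
  by_cases ht : t = s
  · subst ht
    rw [update_self, update_self]
  · rw [update_of_ne ht, update_of_ne ht]

theorem emb_ss_bh_false (hb : ∀ i x y, B i (b i x) (b i y) = sf K x y) (i : ι) (a a' : Fin (g i))
    (x : J g) : emb i (ss (B i) (b i (a, false)) (b i (a', false))) (bh b x) =
      -((if x = pl i a then bh b (mi i a') else 0) + if x = pl i a' then bh b (mi i a) else 0) := by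
  obtain ⟨j, c, s⟩ := x
  rw [emb_apply, bh]
  by_cases hj : j = i
  · subst hj
    change Pi.single j (ss (B j) (b j (a, false)) (b j (a', false))
      ((Pi.single j (b j (c, s)) : ∀ i, P i) j)) = _
    rw [Pi.single_eq_same, ss_apply, hb, hb]
    cases s
    · rw [sf_same, sf_same, zero_smul, zero_smul, add_zero, Pi.single_zero, if_neg (by simp),
        if_neg (by simp), add_zero, neg_zero]
    · rw [sf_false_true, sf_false_true]
      by_cases h1 : a = c <;> by_cases h2 : a' = c
      · subst h1; subst h2
        simp only [if_true, neg_smul, one_smul]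
        rw [Pi.single_add, Pi.single_neg]
        simp [bh]
      · subst h1
        rw [if_pos rfl, if_neg h2, zero_smul, add_zero, if_pos rfl, if_neg (by
          intro h; apply h2; simpa [eq_comm] using h), add_zero, neg_one_smul, Pi.single_neg]
        rfl
      · subst h2
        rw [if_pos rfl, if_neg h1, zero_smul, zero_add, if_pos rfl, if_neg (by
          intro h; apply h1; simpa [eq_comm] using h), zero_add, neg_one_smul, Pi.single_neg]
        rfl
      · rw [if_neg h1, if_neg h2, zero_smul, zero_smul, add_zero, Pi.single_zero, if_neg (by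
          intro h; apply h1; simpa [eq_comm] using h), if_neg (by
          intro h; apply h2; simpa [eq_comm] using h), add_zero, neg_zero]
  · change Pi.single i (ss (B i) (b i (a, false)) (b i (a', false))
      ((Pi.single j (b j (c, s)) : ∀ i, P i) i)) = _
    rw [Pi.single_eq_of_ne (Ne.symm hj), map_zero, Pi.single_zero, if_neg (by
      intro h; exact hj (congrArg Sigma.fst h)), if_neg (by
      intro h; exact hj (congrArg Sigma.fst h)), add_zero, neg_zero]

theorem emb_ss_bh_true (hb : ∀ i x y, B i (b i x) (b i y) = sf K x y) (i : ι) (a : Fin (g i))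
    (x : J g) : emb i (ss (B i) (b i (a, true)) (b i (a, true))) (bh b x) =
      (2 : K) • (if x = mi i a then bh b (pl i a) else 0) := by
  obtain ⟨j, c, s⟩ := x
  rw [emb_apply, bh]
  by_cases hj : j = i
  · subst hj
    change Pi.single j (ss (B j) (b j (a, true)) (b j (a, true))
      ((Pi.single j (b j (c, s)) : ∀ i, P i) j)) = _
    rw [Pi.single_eq_same, ss_apply, hb]
    cases s
    · rw [sf_true_false]
      by_cases h1 : a = c
      · subst h1
        rw [if_pos rfl, if_pos rfl, one_smul, ← two_smul K, Pi.single_smul]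
        rfl
      · rw [if_neg h1, zero_smul, add_zero, Pi.single_zero, if_neg (by
          intro h; apply h1; simpa [eq_comm] using h), smul_zero]
    · rw [sf_same, zero_smul, add_zero, Pi.single_zero, if_neg (by simp), smul_zero]
  · change Pi.single i (ss (B i) (b i (a, true)) (b i (a, true))
      ((Pi.single j (b j (c, s)) : ∀ i, P i) i)) = _
    rw [Pi.single_eq_of_ne (Ne.symm hj), map_zero, Pi.single_zero, if_neg (by
      intro h; exact hj (congrArg Sigma.fst h)), smul_zero]

theorem der_el {X : (∀ i, P i) →ₗ[K] (∀ i, P i)} {x y : J g} {c : K}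
    (hX : ∀ z, X (bh b z) = c • (if z = x then bh b y else 0))
    (φ : MultilinearMap K (fun _ : S => ∀ i, P i) K) (r : S → J g) :
    kap b (der X φ) r = c * el x y (kap b φ) r := by
  rw [kap_apply, der_apply, el, Finset.mul_sum]
  refine Finset.sum_congr rfl fun s _ => ?_
  rw [hX, MultilinearMap.map_update_smul, smul_eq_mul]
  congr 1
  by_cases h : r s = x
  · rw [if_pos h, if_pos h, update_bh]
    rfl
  · rw [if_neg h, if_neg h]
    exact φ.map_coord_zero s (update_self _ _ _)

theorem der_el2 {X : (∀ i, P i) →ₗ[K] (∀ i, P i)} {x y x' y' : J g}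
    (hX : ∀ z, X (bh b z) = -((if z = x then bh b y else 0) + if z = x' then bh b y' else 0))
    (φ : MultilinearMap K (fun _ : S => ∀ i, P i) K) (r : S → J g) :
    kap b (der X φ) r = -(el x y (kap b φ) r + el x' y' (kap b φ) r) := by
  have h0 : ∀ s (v : S → ∀ i, P i), φ (update v s 0) = 0 := fun s v =>
    φ.map_coord_zero s (update_self _ _ _)
  rw [kap_apply, der_apply, el, el, ← Finset.sum_add_distrib, ← Finset.sum_neg_distrib]
  refine Finset.sum_congr rfl fun s _ => ?_
  rw [hX, ← neg_one_smul K, MultilinearMap.map_update_smul, MultilinearMap.map_update_add,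
    neg_one_smul]
  congr 2
  · by_cases h : r s = x
    · rw [if_pos h, if_pos h, update_bh]
      rfl
    · rw [if_neg h, if_neg h, h0]
  · by_cases h : r s = x'
    · rw [if_pos h, if_pos h, update_bh]
      rfl
    · rw [if_neg h, if_neg h, h0]

/-- **The coordinates of a stable space of traceless forms.** -/
theorem isRep_kap (hb : ∀ i x y, B i (b i x) (b i y) = sf K x y) {c : S → ι}
    {R : Submodule K (MultilinearMap K (fun _ : S => ∀ i, P i) K)}
    (hL : ∀ i u v, ∀ φ ∈ R, der (emb i (ss (B i) u v)) φ ∈ R)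
    (hsupp : ∀ φ ∈ R, ∀ r : S → J g, (∃ s, (r s).1 ≠ c s) → φ (fun s => bh b (r s)) = 0)
    (htr : ∀ φ ∈ R, ∀ i s t, s ≠ t → ∀ r : S → J g,
      ∑ a, φ (fun l => bh b (update (update r s (pl i a)) t (mi i a) l)) =
      ∑ a, φ (fun l => bh b (update (update r s (mi i a)) t (pl i a) l))) :
    IsRep c (R.map (kap b)) where
  supp := by
    rintro _ ⟨φ, hφ, rfl⟩ r hr
    exact hsupp φ hφ r hr
  tr := by
    rintro _ ⟨φ, hφ, rfl⟩ i s t hst r
    exact htr φ hφ i s t hst r
  low := by
    rintro _ ⟨φ, hφ, rfl⟩ i a a'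
    refine ⟨-der (emb i (ss (B i) (b i (a, false)) (b i (a', false)))) φ,
      Submodule.neg_mem _ (hL i _ _ φ hφ), ?_⟩
    funext r
    rw [map_neg, Pi.neg_apply, der_el2 (emb_ss_bh_false hb i a a'), neg_neg, Pi.add_apply,
      add_comm]
  up := by
    rintro _ ⟨φ, hφ, rfl⟩ i a
    refine ⟨(2 : K)⁻¹ • der (emb i (ss (B i) (b i (a, true)) (b i (a, true)))) φ,
      Submodule.smul_mem _ _ (hL i _ _ φ hφ), ?_⟩
    funext r
    rw [map_smul, Pi.smul_apply, der_el (emb_ss_bh_true hb i a), smul_eq_mul, ← mul_assoc,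
      inv_mul_cancel₀ two_ne_zero, one_mul]

/-- **A small stable space of traceless forms vanishes.** -/
theorem coord_zero (hb : ∀ i x y, B i (b i x) (b i y) = sf K x y) {c : S → ι}
    {R : Submodule K (MultilinearMap K (fun _ : S => ∀ i, P i) K)} [Module.Finite K R]
    (hL : ∀ i u v, ∀ φ ∈ R, der (emb i (ss (B i) u v)) φ ∈ R)
    (hsupp : ∀ φ ∈ R, ∀ r : S → J g, (∃ s, (r s).1 ≠ c s) → φ (fun s => bh b (r s)) = 0)
    (htr : ∀ φ ∈ R, ∀ i s t, s ≠ t → ∀ r : S → J g,
      ∑ a, φ (fun l => bh b (update (update r s (pl i a)) t (mi i a) l)) =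
      ∑ a, φ (fun l => bh b (update (update r s (mi i a)) t (pl i a) l)))
    (hR : Module.finrank K R < ∏ i, ((univ.filter fun s => c s = i).card + 1)) {φ} (hφ : φ ∈ R)
    (r : S → J g) : φ (fun s => bh b (r s)) = 0 := by
  by_contra hne
  have h1 := (isRep_kap hb hL hsupp htr).card_le (by
    intro h
    have h2 : kap b φ ∈ R.map (kap b) := ⟨φ, hφ, rfl⟩
    rw [h, Submodule.mem_bot] at h2
    exact hne (congrFun h2 r))
  have h2 := Submodule.finrank_map_le (kap b) R
  omega

end Pool.Agent.H88.FL
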