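import Mathlib

/-!
# Functions on configurations: traceless subspaces stable under the symplectic Lie algebras

Configurations are maps from a finite set `S` of slots to `J = Σ i, Fin (g i) × Bool`, the disjoint
union of standard symplectic bases.
-/

open Finset Function

namespace Pool.Agent.H88.FL

/-- The disjoint union of the standard symplectic bases with `g i` pairs. -/
abbrev J {ι : Type} (g : ι → ℕ) : Type := Σ i : ι, Fin (g i) × Bool

/-- The partner. -/
def star {ι : Type} {g : ι → ℕ} (x : J g) : J g := ⟨x.1, (x.2.1, !x.2.2)⟩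

/-- The sign. -/
def sgn {ι : Type} {g : ι → ℕ} (x : J g) : ℤ := if x.2.2 then 1 else -1

section general

variable {S : Type} [Fintype S] [DecidableEq S] {J : Type} [DecidableEq J]

/-- The sum over the slots of the operators given by a matrix unit. -/
def el {M : Type*} [AddCommMonoid M] (x y : J) (w : (S → J) → M) (r : S → J) : M :=
  ∑ s, if r s = x then w (update r s y) else 0

theorem el_add {M : Type*} [AddCommMonoid M] (x y : J) (w w' : (S → J) → M) :
    el x y (w + w') = el x y w + el x y w' := by
  funext r
  simp only [el, Pi.add_apply, ← Finset.sum_add_distrib]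
  refine Finset.sum_congr rfl fun s _ => ?_
  split_ifs <;> simp

theorem el_smul {R M : Type*} [Semiring R] [AddCommMonoid M] [Module R M] (x y : J) (c : R)
    (w : (S → J) → M) : el x y (c • w) = c • el x y w := by
  funext r
  simp only [el, Pi.smul_apply, Finset.smul_sum]
  refine Finset.sum_congr rfl fun s _ => ?_
  split_ifs <;> simp

theorem el_comp {M N : Type*} [AddCommMonoid M] [AddCommMonoid N] (φ : M →+ N) (x y : J)
    (w : (S → J) → M) (r : S → J) : el x y (fun r => φ (w r)) r = φ (el x y w r) := by
  simp only [el, map_sum]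
  refine Finset.sum_congr rfl fun s _ => ?_
  split_ifs <;> simp

variable [Fintype J]

/-- averaging over one slot -/
theorem avg (G : (S → J) → ℚ) (s : S) (x : J) :
    ∑ r, G (update r s x) = Fintype.card J * ∑ r, if r s = x then G r else 0 := by
  have key : ∀ H : (S → J) → ℚ, ∑ r, H r =
      ∑ p : J × ({t // t ≠ s} → J), H ((Equiv.funSplitAt s J).symm p) := by
    intro H
    exact (Equiv.sum_comp (Equiv.funSplitAt s J).symm H).symm
  have hs : ∀ p : J × ({t // t ≠ s} → J), (Equiv.funSplitAt s J).symm p s = p.1 := by
    intro p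
    simp [Equiv.funSplitAt, Equiv.piSplitAt]
  have hu : ∀ p : J × ({t // t ≠ s} → J), update ((Equiv.funSplitAt s J).symm p) s x =
      (Equiv.funSplitAt s J).symm (x, p.2) := by
    intro p
    funext t
    by_cases ht : t = s
    · subst ht
      rw [update_self]
      simp [Equiv.funSplitAt, Equiv.piSplitAt]
    · rw [update_of_ne ht]
      simp [Equiv.funSplitAt, Equiv.piSplitAt, ht]
  rw [key, key, Fintype.sum_prod_type, Fintype.sum_prod_type]
  simp only [hs, hu]
  rw [Finset.sum_const, Finset.card_univ, nsmul_eq_mul]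
  congr 1
  rw [Finset.sum_comm]
  refine Finset.sum_congr rfl fun ρ _ => ?_
  rw [Finset.sum_eq_single x]
  · rw [if_pos rfl]
  · intro y _ hy
    rw [if_neg hy]
  · intro h
    exact absurd (Finset.mem_univ _) h

/-- averaging over two slots -/
theorem avg2 (G : (S → J) → ℚ) {s t : S} (hst : s ≠ t) (x y : J) :
    ∑ r, G (update (update r s x) t y) =
      (Fintype.card J : ℚ) ^ 2 * ∑ r, if r s = x ∧ r t = y then G r else 0 := by
  have h1 := avg (fun r => G (update r t y)) s x
  have h2 := avg (fun r => if r s = x then G r else 0) t y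
  simp only [] at h1 h2
  have h3 : ∀ r : S → J, (if (update r t y) s = x then G (update r t y) else 0) =
      if r s = x then G (update r t y) else 0 := by
    intro r
    rw [update_of_ne hst]
  rw [h1, ← Finset.sum_congr rfl fun r _ => h3 r, h2, ← mul_assoc, sq]
  congr 1
  refine Finset.sum_congr rfl fun r _ => ?_
  by_cases h : r s = x <;> by_cases h' : r t = y <;> simp [h, h']

end general

section pos

variable {S : Type} [Fintype S] [DecidableEq S] {ι : Type} [Fintype ι] [DecidableEq ι] {g : ι → ℕ}

/-- the element of the basis -/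
abbrev pl (i : ι) (a : Fin (g i)) : J g := ⟨i, (a, true)⟩

/-- the element of the basis -/
abbrev mi (i : ι) (a : Fin (g i)) : J g := ⟨i, (a, false)⟩

theorem pos_aux (w : (S → J g) → ℚ) (i : ι)
    (htr : ∀ s t, s ≠ t → ∀ r, ∑ a, w (update (update r s (pl i a)) t (mi i a)) =
      ∑ a, w (update (update r s (mi i a)) t (pl i a))) {s t : S} (hst : s ≠ t) :
    0 ≤ ∑ a, ∑ b, ∑ r, (if r s = pl i b then w (update r s (mi i a)) else 0) *
      (if r t = pl i a then w (update r t (mi i b)) else 0) := by
  by_cases hJ : Nonempty (J g)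
  swap
  · have : ∀ r : S → J g, False := fun r => hJ ⟨r s⟩
    refine Finset.sum_nonneg fun a _ => Finset.sum_nonneg fun b _ => Finset.sum_nonneg fun r _ => ?_
    exact (this r).elim
  have hc : (0 : ℚ) < Fintype.card (J g) := by exact_mod_cast Fintype.card_pos
  have h1 : ∀ a b, ∑ r, (if r s = pl i b then w (update r s (mi i a)) else 0) *
      (if r t = pl i a then w (update r t (mi i b)) else 0) =
      ((Fintype.card (J g) : ℚ) ^ 2)⁻¹ * ∑ r, w (update (update r s (mi i a)) t (pl i a)) *
        w (update (update r s (pl i b)) t (mi i b)) := by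
    intro a b
    have h2 := avg2 (fun r => w (update r s (mi i a)) * w (update r t (mi i b))) hst (pl i b)
      (pl i a)
    have h3 : ∀ r : S → J g, w (update (update (update r s (pl i b)) t (pl i a)) s (mi i a)) *
        w (update (update (update r s (pl i b)) t (pl i a)) t (mi i b)) =
        w (update (update r s (mi i a)) t (pl i a)) *
        w (update (update r s (pl i b)) t (mi i b)) := by
      intro r
      rw [update_idem, update_comm hst.symm, update_idem, update_comm hst]
    rw [Finset.sum_congr rfl fun r _ => h3 r] at h2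
    rw [h2, ← mul_assoc, inv_mul_cancel₀ (by positivity), one_mul]
    refine Finset.sum_congr rfl fun r _ => ?_
    by_cases h : r s = pl i b <;> by_cases h' : r t = pl i a <;> simp [h, h']
  simp only [h1, ← Finset.mul_sum]
  refine mul_nonneg (by positivity) ?_
  have h2 : ∑ a, ∑ b, ∑ r, w (update (update r s (mi i a)) t (pl i a)) *
        w (update (update r s (pl i b)) t (mi i b)) =
      ∑ r, (∑ a, w (update (update r s (mi i a)) t (pl i a))) *
        (∑ b, w (update (update r s (pl i b)) t (mi i b))) := by
    rw [Finset.sum_congr rfl fun a _ => Finset.sum_comm, Finset.sum_comm]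
    refine Finset.sum_congr rfl fun r _ => ?_
    rw [Finset.sum_mul_sum]
  rw [h2]
  refine Finset.sum_nonneg fun r _ => ?_
  rw [htr s t hst r]
  exact mul_self_nonneg _

/-- **Positivity.** -/
theorem pos_rat (w : (S → J g) → ℚ) (i : ι)
    (hN : ∀ a b, el (pl i b) (mi i a) w + el (pl i a) (mi i b) w = 0)
    (htr : ∀ s t, s ≠ t → ∀ r, ∑ a, w (update (update r s (pl i a)) t (mi i a)) =
      ∑ a, w (update (update r s (mi i a)) t (pl i a)))
    {r : S → J g} {s : S} {a : Fin (g i)} (h : r s = mi i a) : w r = 0 := by
  have h1 : ∑ a, ∑ b, ∑ r, el (pl i b) (mi i a) w r * el (pl i a) (mi i b) w r ≤ 0 := by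
    refine Finset.sum_nonpos fun a _ => Finset.sum_nonpos fun b _ => Finset.sum_nonpos fun r _ => ?_
    have h2 := congrFun (hN a b) r
    rw [Pi.add_apply, Pi.zero_apply] at h2
    rw [eq_neg_of_add_eq_zero_left h2, neg_mul]
    exact neg_nonpos.2 (mul_self_nonneg _)
  have h2 : ∑ a, ∑ b, ∑ r, el (pl i b) (mi i a) w r * el (pl i a) (mi i b) w r =
      ∑ s, ∑ t, ∑ a, ∑ b, ∑ r, (if r s = pl i b then w (update r s (mi i a)) else 0) *
      (if r t = pl i a then w (update r t (mi i b)) else 0) := by
    simp only [el, Finset.sum_mul_sum]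
    have e1 : ∀ f : Fin (g i) → Fin (g i) → (S → J g) → S → S → ℚ,
        ∑ a, ∑ b, ∑ r, ∑ s, ∑ t, f a b r s t = ∑ s, ∑ t, ∑ a, ∑ b, ∑ r, f a b r s t := by
      intro f
      have e2 : ∀ a b, ∑ r, ∑ s, ∑ t, f a b r s t = ∑ s, ∑ t, ∑ r, f a b r s t := by
        intro a b
        rw [Finset.sum_comm]
        exact Finset.sum_congr rfl fun s _ => Finset.sum_comm
      have e3 : ∀ a, ∑ b, ∑ r, ∑ s, ∑ t, f a b r s t = ∑ s, ∑ t, ∑ b, ∑ r, f a b r s t := by
        intro a
        rw [Finset.sum_congr rfl fun b _ => e2 a b, Finset.sum_comm]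
        exact Finset.sum_congr rfl fun s _ => Finset.sum_comm
      rw [Finset.sum_congr rfl fun a _ => e3 a, Finset.sum_comm]
      exact Finset.sum_congr rfl fun s _ => Finset.sum_comm
    exact e1 fun a b r s t => (if r s = pl i b then w (update r s (mi i a)) else 0) *
      (if r t = pl i a then w (update r t (mi i b)) else 0)
  have hdiag : ∀ s, ∑ a, ∑ b, ∑ r, (if r s = pl i b then w (update r s (mi i a)) else 0) *
      (if r s = pl i a then w (update r s (mi i b)) else 0) =
      ∑ a, ∑ r, if r s = pl i a then w (update r s (mi i a)) ^ 2 else 0 := by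
    intro s
    refine Finset.sum_congr rfl fun a _ => ?_
    rw [Finset.sum_comm]
    refine Finset.sum_congr rfl fun r _ => ?_
    rw [Finset.sum_eq_single a]
    · by_cases h : r s = pl i a
      · simp only [if_pos h]; ring
      · simp only [if_neg h]; ring
    · intro b _ hb
      by_cases h : r s = pl i b
      · have h' : r s ≠ pl i a := by
          intro h'
          apply hb
          have := h.symm.trans h'
          simpa using this
        rw [if_neg h', mul_zero]
      · rw [if_neg h, zero_mul]
    · intro h
      exact absurd (Finset.mem_univ _) h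
  have hnn : ∀ s t, 0 ≤ ∑ a, ∑ b, ∑ r, (if r s = pl i b then w (update r s (mi i a)) else 0) *
      (if r t = pl i a then w (update r t (mi i b)) else 0) := by
    intro s t
    by_cases hst : s = t
    · subst hst
      rw [hdiag]
      refine Finset.sum_nonneg fun a _ => Finset.sum_nonneg fun r _ => ?_
      split_ifs
      · positivity
      · exact le_rfl
    · exact pos_aux w i htr hst
  have h3 : ∑ s, ∑ t, ∑ a, ∑ b, ∑ r, (if r s = pl i b then w (update r s (mi i a)) else 0) *
      (if r t = pl i a then w (update r t (mi i b)) else 0) = 0 :=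
    le_antisymm (h2 ▸ h1) (Finset.sum_nonneg fun s _ => Finset.sum_nonneg fun t _ => hnn s t)
  have h4 := (Finset.sum_eq_zero_iff_of_nonneg
    (fun s _ => Finset.sum_nonneg fun t _ => hnn s t)).1 h3 s (Finset.mem_univ _)
  have h5 := (Finset.sum_eq_zero_iff_of_nonneg (fun t _ => hnn s t)).1 h4 s (Finset.mem_univ _)
  rw [hdiag] at h5
  have h6 : ∀ a, 0 ≤ ∑ r, if r s = pl i a then w (update r s (mi i a)) ^ 2 else 0 := by
    intro a
    refine Finset.sum_nonneg fun r _ => ?_
    split_ifs
    · positivity
    · exact le_rfl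
  have h7 := (Finset.sum_eq_zero_iff_of_nonneg (fun a _ => h6 a)).1 h5 a (Finset.mem_univ _)
  have h8 := (Finset.sum_eq_zero_iff_of_nonneg (fun r _ => by
    split_ifs
    · positivity
    · exact le_rfl)).1 h7 (update r s (pl i a)) (Finset.mem_univ _)
  rw [update_self, if_pos rfl, update_idem, ← h, update_eq_self] at h8
  exact pow_eq_zero_iff (two_ne_zero) |>.1 h8

/-- **Positivity, for functions with values in a vector space over a field of characteristic
zero.** -/
theorem pos_gen {M : Type*} [AddCommGroup M] [Module ℚ M] (w : (S → J g) → M) (i : ι)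
    (hN : ∀ a b, el (pl i b) (mi i a) w + el (pl i a) (mi i b) w = 0)
    (htr : ∀ s t, s ≠ t → ∀ r, ∑ a, w (update (update r s (pl i a)) t (mi i a)) =
      ∑ a, w (update (update r s (mi i a)) t (pl i a)))
    {r : S → J g} {s : S} {a : Fin (g i)} (h : r s = mi i a) : w r = 0 := by
  rw [← Module.forall_dual_apply_eq_zero_iff ℚ]
  intro φ
  refine pos_rat (fun r => φ (w r)) i ?_ ?_ h
  · intro a b
    funext r
    have h1 := congrArg φ (congrFun (hN a b) r)
    rw [Pi.add_apply, map_add, Pi.zero_apply, map_zero] at h1
    rw [Pi.add_apply, Pi.zero_apply, ← h1]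
    exact congrArg₂ _ (el_comp φ.toAddMonoidHom _ _ _ _) (el_comp φ.toAddMonoidHom _ _ _ _)
  · intro s t hst r
    have h1 := congrArg φ (htr s t hst r)
    rwa [map_sum, map_sum] at h1

end pos

end Pool.Agent.H88.FL
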