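import Mathlib

/-!
# Derivatives of polynomial identities for multilinear maps
-/

open Finset Function

namespace Pool.Agent.H88.FL

set_option linter.unusedSectionVars false

universe u v w

variable {K : Type u} [Field K] {T : Type v} [AddCommGroup T] [Module K T]
  {E : Type w} [AddCommGroup E] [Module K E] {S : Type} [Fintype S] [DecidableEq S]

/-- the coefficients -/
def cf (a b c : S → T) (j : S) : Fin 3 → T := ![a j, b j, c j]

/-- the polynomial -/
noncomputable def pol (h : MultilinearMap K (fun _ : S => T) E) (φ : E →ₗ[K] K) (a b c : S → T) :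
    Polynomial K :=
  ∑ r : S → Fin 3, Polynomial.C (φ (h fun j => cf a b c j (r j))) *
    Polynomial.X ^ (∑ j, (r j : ℕ))

theorem pol_eval (h : MultilinearMap K (fun _ : S => T) E) (φ : E →ₗ[K] K) (a b c : S → T)
    (x : K) : (pol h φ a b c).eval x = φ (h fun j => a j + x • b j + x ^ 2 • c j) := by
  have h1 : (fun j => a j + x • b j + x ^ 2 • c j) =
      fun j => ∑ i : Fin 3, x ^ (i : ℕ) • cf a b c j i := by
    funext j
    rw [Fin.sum_univ_three]
    simp [cf]
  rw [h1, MultilinearMap.map_sum, map_sum, pol, Polynomial.eval_finsetSum]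
  refine Finset.sum_congr rfl fun r _ => ?_
  have h2 := h.map_smul_univ (fun j => x ^ (r j : ℕ)) (fun j => cf a b c j (r j))
  rw [h2, map_smul, Polynomial.eval_mul, Polynomial.eval_C, Polynomial.eval_pow,
    Polynomial.eval_X, Finset.prod_pow_eq_pow_sum, smul_eq_mul, mul_comm]

theorem ex_ne {r : S → Fin 3} (h : ∑ j, (r j : ℕ) = 1) : ∃ j, r j ≠ 0 := by
  by_contra hcon
  push Not at hcon
  rw [Finset.sum_eq_zero (fun j _ => by rw [hcon j]; rfl)] at h
  exact absurd h (by norm_num)

theorem sum_upd_one (j : S) :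
    ∑ i, ((update (fun _ => (0 : Fin 3)) j 1 : S → Fin 3) i : ℕ) = 1 := by
  rw [Finset.sum_eq_single j]
  · rw [update_self]; rfl
  · intro i _ hi
    rw [update_of_ne hi]; rfl
  · intro hj
    exact absurd (Finset.mem_univ _) hj

theorem pol_coeff (h : MultilinearMap K (fun _ : S => T) E) (φ : E →ₗ[K] K) (a b c : S → T) :
    (pol h φ a b c).coeff 1 = φ (∑ j, h (update a j (b j))) := by
  rw [pol, Polynomial.finsetSum_coeff, map_sum]
  have h1 : ∀ r : S → Fin 3, (Polynomial.C (φ (h fun j => cf a b c j (r j))) *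
      Polynomial.X ^ (∑ j, (r j : ℕ))).coeff 1 =
      if ∑ j, (r j : ℕ) = 1 then φ (h fun j => cf a b c j (r j)) else 0 := by
    intro r
    rw [Polynomial.coeff_C_mul, Polynomial.coeff_X_pow]
    by_cases hr : ∑ j, (r j : ℕ) = 1
    · rw [if_pos hr, if_pos hr.symm, mul_one]
    · rw [if_neg hr, if_neg (fun h => hr h.symm), mul_zero]
  rw [Finset.sum_congr rfl fun r _ => h1 r, ← Finset.sum_filter]
  symm
  refine Finset.sum_bij' (fun j _ => update (fun _ => (0 : Fin 3)) j 1)
    (fun r hr => Classical.choose (ex_ne (Finset.mem_filter.1 hr).2)) ?_ ?_ ?_ ?_ ?_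
  · intro j _
    rw [Finset.mem_filter]
    exact ⟨Finset.mem_univ _, sum_upd_one j⟩
  · intro r _
    exact Finset.mem_univ _
  · intro j hj
    have h2 : ∀ (hr : ∑ i, ((update (fun _ => (0 : Fin 3)) j 1 : S → Fin 3) i : ℕ) = 1),
        Classical.choose (ex_ne hr) = j := by
      intro hr
      have h3 := Classical.choose_spec (ex_ne hr)
      by_contra hne
      apply h3
      exact update_of_ne hne _ _
    exact h2 (sum_upd_one j)
  · intro r hr
    have h2 := Classical.choose_spec (ex_ne (Finset.mem_filter.1 hr).2)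
    set j := Classical.choose (ex_ne (Finset.mem_filter.1 hr).2)
    have h3 := (Finset.mem_filter.1 hr).2
    rw [← Finset.add_sum_erase _ _ (Finset.mem_univ j)] at h3
    have h4 : 1 ≤ (r j : ℕ) := by
      have : (r j : ℕ) ≠ 0 := fun h => h2 (Fin.ext h)
      omega
    have h5 : ∑ x ∈ Finset.univ.erase j, (r x : ℕ) = 0 := by omega
    funext i
    by_cases hi : i = j
    · rw [hi, update_self]
      apply Fin.ext
      have : (r j : ℕ) = 1 := by omega
      exact this.symm
    · rw [update_of_ne hi]
      have := (Finset.sum_eq_zero_iff.1 h5) i (Finset.mem_erase.2 ⟨hi, Finset.mem_univ _⟩)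
      exact (Fin.ext this).symm
  · intro j _
    congr 2
    funext i
    by_cases hi : i = j
    · subst hi
      rw [update_self, update_self]
      rfl
    · rw [update_of_ne hi, update_of_ne hi]
      rfl

/-- **Derivative of an identity that holds for infinitely many values of the parameter.** -/
theorem deriv_eq (h : MultilinearMap K (fun _ : S => T) E) (a b c a' b' c' : S → T)
    (hinf : {x : K | h (fun j => a j + x • b j + x ^ 2 • c j) =
      h (fun j => a' j + x • b' j + x ^ 2 • c' j)}.Infinite) :
    ∑ j, h (update a j (b j)) = ∑ j, h (update a' j (b' j)) := by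
  rw [← sub_eq_zero, ← Module.forall_dual_apply_eq_zero_iff K]
  intro φ
  rw [map_sub, ← pol_coeff h φ a b c, ← pol_coeff h φ a' b' c', sub_eq_zero]
  have h1 : pol h φ a b c = pol h φ a' b' c' := by
    refine Polynomial.eq_of_infinite_eval_eq _ _ (hinf.mono ?_)
    intro x hx
    rw [Set.mem_ofPred_eq] at hx ⊢
    rw [pol_eval, pol_eval, hx]
  rw [h1]

end Pool.Agent.H88.FL
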