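import Pool.Agent.H88.FL.Lie
import Pool.Agent.H88.FL.Poly

/-!
# Spaces of multilinear forms which are stable under a subgroup of finite index
-/

open Finset Function

set_option linter.unusedSectionVars false

namespace Pool.Agent.H88.FL

universe u v w x

section gen

variable {K : Type u} [Field K] [CharZero K] {T : Type v} [AddCommGroup T] [Module K T]
  {G : Type x} [Group G] {S : Type} [Fintype S] [DecidableEq S]

/-- the derivation given by the operator `X` -/
noncomputable def der (X : T →ₗ[K] T) (φ : MultilinearMap K (fun _ : S => T) K) :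
    MultilinearMap K (fun _ : S => T) K :=
  ∑ s, φ.compLinearMap (update (fun _ => LinearMap.id) s X)

theorem der_apply (X : T →ₗ[K] T) (φ : MultilinearMap K (fun _ : S => T) K) (v : S → T) :
    der X φ v = ∑ s, φ (update v s (X (v s))) := by
  rw [der, _root_.sum_apply]
  refine Finset.sum_congr rfl fun s _ => ?_
  rw [MultilinearMap.compLinearMap_apply]
  congr 1
  funext t
  by_cases ht : t = s
  · subst ht
    rw [update_self, update_self]
  · rw [update_of_ne ht, update_of_ne ht]
    rfl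

theorem der_add (X Y : T →ₗ[K] T) (φ : MultilinearMap K (fun _ : S => T) K) :
    der (X + Y) φ = der X φ + der Y φ := by
  ext v
  rw [_root_.add_apply, der_apply, der_apply, der_apply, ← Finset.sum_add_distrib]
  refine Finset.sum_congr rfl fun s _ => ?_
  rw [LinearMap.add_apply, MultilinearMap.map_update_add]

theorem der_smul (c : K) (X : T →ₗ[K] T) (φ : MultilinearMap K (fun _ : S => T) K) :
    der (c • X) φ = c • der X φ := by
  ext v
  rw [_root_.smul_apply, der_apply, der_apply, Finset.smul_sum]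
  refine Finset.sum_congr rfl fun s _ => ?_
  rw [LinearMap.smul_apply, MultilinearMap.map_update_smul]

theorem der_zero (φ : MultilinearMap K (fun _ : S => T) K) : der (0 : T →ₗ[K] T) φ = 0 := by
  have := der_smul (0 : K) (0 : T →ₗ[K] T) φ
  rwa [zero_smul, zero_smul] at this

theorem der_der (X Y : T →ₗ[K] T) (φ : MultilinearMap K (fun _ : S => T) K) (v : S → T) :
    der X (der Y φ) v = ∑ s, φ (update v s (Y (X (v s)))) +
      ∑ s, ∑ t ∈ univ.erase s, φ (update (update v s (X (v s))) t (Y (v t))) := by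
  rw [der_apply, ← Finset.sum_add_distrib]
  refine Finset.sum_congr rfl fun s _ => ?_
  rw [der_apply, ← Finset.add_sum_erase _ _ (Finset.mem_univ s), update_self, update_idem]
  congr 1
  refine Finset.sum_congr rfl fun t ht => ?_
  rw [update_of_ne (Finset.ne_of_mem_erase ht)]

theorem der_bracket (X Y : T →ₗ[K] T) (φ : MultilinearMap K (fun _ : S => T) K) :
    der (X ∘ₗ Y - Y ∘ₗ X) φ = der Y (der X φ) - der X (der Y φ) := by
  ext v
  rw [_root_.sub_apply, der_der, der_der, der_apply]
  have h1 : ∑ s, ∑ t ∈ univ.erase s, φ (update (update v s (Y (v s))) t (X (v t))) =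
      ∑ s, ∑ t ∈ univ.erase s, φ (update (update v s (X (v s))) t (Y (v t))) := by
    rw [Finset.sum_comm' (s' := fun t => univ.erase t) (t' := univ) (by
      intro x y
      simp only [Finset.mem_univ, Finset.mem_erase, ne_eq, and_true, true_and]
      exact ⟨fun h h' => h h'.symm, fun h h' => h h'.symm⟩)]
    refine Finset.sum_congr rfl fun t _ => Finset.sum_congr rfl fun s hs => ?_
    rw [update_comm (Finset.ne_of_mem_erase hs)]
  rw [h1, add_sub_add_right_eq_sub, ← Finset.sum_sub_distrib]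
  refine Finset.sum_congr rfl fun s _ => ?_
  rw [LinearMap.sub_apply, MultilinearMap.map_update_sub]
  rfl

/-- The space of forms is stable under a subgroup of finite index. -/
def Fam (ρ : G →* (T →ₗ[K] T)) (R : Submodule K (MultilinearMap K (fun _ : S => T) K)) : Prop :=
  ∃ Δ : Subgroup G, Δ.FiniteIndex ∧ ∀ g ∈ Δ, ∀ φ ∈ R, (φ.compLinearMap fun _ => ρ g) ∈ R

/-- The operators whose derivations preserve all spaces of forms which are stable under a subgroup
of finite index. -/
def LieT (S : Type) [Fintype S] [DecidableEq S] (ρ : G →* (T →ₗ[K] T)) :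
    Submodule K (T →ₗ[K] T) where
  carrier := {X | ∀ R : Submodule K (MultilinearMap K (fun _ : S => T) K), Fam ρ R →
    ∀ φ ∈ R, der X φ ∈ R}
  zero_mem' := by
    intro R _ φ _
    rw [der_zero]
    exact Submodule.zero_mem _
  add_mem' := by
    intro X Y hX hY R hR φ hφ
    rw [der_add]
    exact Submodule.add_mem _ (hX R hR φ hφ) (hY R hR φ hφ)
  smul_mem' := by
    intro c X hX R hR φ hφ
    rw [der_smul]
    exact Submodule.smul_mem _ _ (hX R hR φ hφ)

variable {ρ : G →* (T →ₗ[K] T)}

theorem mem_LieT {X : T →ₗ[K] T} : X ∈ LieT S ρ ↔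
    ∀ R : Submodule K (MultilinearMap K (fun _ : S => T) K), Fam ρ R →
      ∀ φ ∈ R, der X φ ∈ R := Iff.rfl

theorem LieT_bracket {X Y : T →ₗ[K] T} (hX : X ∈ LieT S ρ) (hY : Y ∈ LieT S ρ) :
    X ∘ₗ Y - Y ∘ₗ X ∈ LieT S ρ := by
  intro R hR φ hφ
  rw [der_bracket]
  exact Submodule.sub_mem _ (hY R hR _ (hX R hR φ hφ)) (hX R hR _ (hY R hR φ hφ))

/-- composition with an operator -/
noncomputable def cmp (A : T →ₗ[K] T) :
    MultilinearMap K (fun _ : S => T) K →ₗ[K] MultilinearMap K (fun _ : S => T) K :=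
  MultilinearMap.compLinearMapₗ fun _ => A

theorem cmp_apply (A : T →ₗ[K] T) (φ : MultilinearMap K (fun _ : S => T) K) :
    cmp A φ = φ.compLinearMap fun _ => A := rfl

theorem cmp_apply' (A : T →ₗ[K] T) (φ : MultilinearMap K (fun _ : S => T) K) (v : S → T) :
    cmp A φ v = φ fun s => A (v s) := rfl

theorem LieT_conj {X : T →ₗ[K] T} (hX : X ∈ LieT S ρ) (γ : G) :
    ρ γ ∘ₗ X ∘ₗ ρ γ⁻¹ ∈ LieT S ρ := by
  rintro R ⟨Δ, hΔ, hR⟩ φ hφ
  have h1 : Fam ρ (R.map (cmp (ρ γ))) := by
    refine ⟨Δ.comap (MulAut.conj γ).toMonoidHom, ⟨by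
      rw [Subgroup.index_comap_of_surjective]
      · exact hΔ.index_ne_zero
      · exact (MulAut.conj γ).surjective⟩, ?_⟩
    rintro g hg _ ⟨ψ, hψ, rfl⟩
    have hg' : γ * g * γ⁻¹ ∈ Δ := hg
    refine ⟨_, hR _ hg' ψ hψ, ?_⟩
    ext v
    rw [cmp_apply', MultilinearMap.compLinearMap_apply, MultilinearMap.compLinearMap_apply,
      cmp_apply']
    congr 1
    funext s
    rw [← rho_mul_apply, ← rho_mul_apply, inv_mul_cancel_right]
  obtain ⟨ψ, hψ, h2⟩ := hX _ h1 _ ⟨φ, hφ, rfl⟩
  have h3 : der (ρ γ ∘ₗ X ∘ₗ ρ γ⁻¹) φ = ψ := by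
    ext v
    have h4 := congrArg (fun θ => θ fun s => ρ γ⁻¹ (v s)) h2
    beta_reduce at h4
    rw [cmp_apply'] at h4
    simp only [rho_inv] at h4
    rw [h4, der_apply, der_apply]
    refine Finset.sum_congr rfl fun s _ => ?_
    rw [cmp_apply']
    congr 1
    funext t
    by_cases ht : t = s
    · subst ht
      rw [update_self, update_self]
      rfl
    · rw [update_of_ne ht, update_of_ne ht, rho_inv]
  rw [h3]
  exact hψ

/-- **A one-parameter family.** -/
theorem der_mem_of_infinite {R : Submodule K (MultilinearMap K (fun _ : S => T) K)}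
    {N : T →ₗ[K] T} {φ : MultilinearMap K (fun _ : S => T) K}
    (h : {x : K | cmp (LinearMap.id + x • N) φ ∈ R}.Infinite) : der N φ ∈ R := by
  by_cases hS : IsEmpty S
  · have h1 : der N φ = 0 := by
      ext v
      rw [der_apply, Finset.univ_eq_empty, Finset.sum_empty]
      rfl
    rw [h1]
    exact Submodule.zero_mem _
  rw [not_isEmpty_iff] at hS
  -- the multilinear map on operators
  let H : MultilinearMap K (fun _ : S => T →ₗ[K] T)
      ((MultilinearMap K (fun _ : S => T) K) ⧸ R) :=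
    R.mkQ.compMultilinearMap ((LinearMap.applyₗ φ).compMultilinearMap
      MultilinearMap.compLinearMapMultilinear)
  have hH : ∀ A : S → (T →ₗ[K] T), H A = R.mkQ (φ.compLinearMap A) := fun A => rfl
  have h1 := deriv_eq H (fun _ => LinearMap.id) (fun _ => N) (fun _ => 0) (fun _ => 0)
    (fun _ => 0) (fun _ => 0) (h.mono (by
      intro x hx
      rw [Set.mem_ofPred_eq] at hx ⊢
      simp only [smul_zero, add_zero]
      have e1 : H (fun _ => (0 : T →ₗ[K] T)) = 0 := H.map_zero
      rw [e1, hH, Submodule.mkQ_apply, Submodule.Quotient.mk_eq_zero]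
      exact hx))
  have h2 : ∀ j, H (update (fun _ => (0 : T →ₗ[K] T)) j 0) = 0 := fun j =>
    H.map_coord_zero j (update_self _ _ _)
  rw [Finset.sum_congr rfl fun j _ => h2 j, Finset.sum_const_zero] at h1
  simp only [hH] at h1
  rw [← map_sum, Submodule.mkQ_apply, Submodule.Quotient.mk_eq_zero] at h1
  exact h1

/-- **Unipotent elements.** -/
theorem LieT_unipotent {N : T →ₗ[K] T} (hN : N ∘ₗ N = 0) {g : G} {c : K} (hc : c ≠ 0)
    (hg : ρ g = LinearMap.id + c • N) : N ∈ LieT S ρ := by
  rintro R ⟨Δ, hΔ, hR⟩ φ hφ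
  have hpow : ∀ n : ℕ, ρ (g ^ n) = LinearMap.id + ((n : K) * c) • N := by
    intro n
    induction n with
    | zero => rw [pow_zero, map_one]; simp; rfl
    | succ n ih =>
      rw [pow_succ, map_mul, ih, hg]
      apply LinearMap.ext
      intro x
      have h1 : N (N x) = 0 := congrArg (fun f => f x) hN
      simp only [Module.End.mul_apply, LinearMap.add_apply, LinearMap.smul_apply,
        LinearMap.id_apply, map_add, map_smul, h1, smul_zero, add_zero]
      push_cast
      module
  obtain ⟨n, hn, -, hgn⟩ := Subgroup.exists_pow_mem_of_index_ne_zero hΔ.index_ne_zero g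
  apply der_mem_of_infinite
  refine Set.infinite_of_injective_forall_mem (f := fun l : ℕ => ((n * l : ℕ) : K) * c) ?_ ?_
  · intro l l' hl
    have h3 : ((n * l : ℕ) : K) = ((n * l' : ℕ) : K) := mul_right_cancel₀ hc hl
    have h4 : n * l = n * l' := Nat.cast_injective h3
    exact Nat.eq_of_mul_eq_mul_left hn h4
  · intro l
    have h3 : g ^ (n * l) ∈ Δ := by
      rw [pow_mul]
      exact Subgroup.pow_mem _ hgn l
    have h4 := hR _ h3 φ hφ
    rw [hpow] at h4
    exact h4

end gen

section col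

variable {K : Type u} [Field K] [CharZero K] {ι : Type} [DecidableEq ι] {P : ι → Type v}
  [∀ i, AddCommGroup (P i)] [∀ i, Module K (P i)] {G : Type x} [Group G]
  (ρ : ∀ i, G →* (P i →ₗ[K] P i)) {S : Type} [Fintype S] [DecidableEq S]

/-- the diagonal action -/
noncomputable def rhoP : G →* ((∀ i, P i) →ₗ[K] (∀ i, P i)) where
  toFun g := LinearMap.pi fun i => ρ i g ∘ₗ LinearMap.proj i
  map_one' := by
    apply LinearMap.ext
    intro x
    funext i
    simp
  map_mul' g g' := by
    apply LinearMap.ext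
    intro x
    funext i
    simp

theorem rhoP_apply (g : G) (x : ∀ i, P i) (i : ι) : rhoP ρ g x i = ρ i g (x i) := rfl

/-- an operator on one of the spaces -/
noncomputable def emb (i : ι) (X : P i →ₗ[K] P i) : (∀ i, P i) →ₗ[K] (∀ i, P i) :=
  LinearMap.single K P i ∘ₗ X ∘ₗ LinearMap.proj i

theorem emb_apply (i : ι) (X : P i →ₗ[K] P i) (x : ∀ i, P i) :
    emb i X x = Pi.single i (X (x i)) := rfl

theorem emb_add (i : ι) (X Y : P i →ₗ[K] P i) : emb i (X + Y) = emb i X + emb i Y := by
  apply LinearMap.ext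
  intro x
  rw [emb_apply, LinearMap.add_apply, LinearMap.add_apply, emb_apply, emb_apply, Pi.single_add]

theorem emb_smul (i : ι) (c : K) (X : P i →ₗ[K] P i) : emb i (c • X) = c • emb i X := by
  apply LinearMap.ext
  intro x
  rw [emb_apply, LinearMap.smul_apply, LinearMap.smul_apply, emb_apply, Pi.single_smul]

theorem emb_comp (i : ι) (X Y : P i →ₗ[K] P i) : emb i (X ∘ₗ Y) = emb i X ∘ₗ emb i Y := by
  apply LinearMap.ext
  intro x
  rw [emb_apply, LinearMap.comp_apply, LinearMap.comp_apply, emb_apply, emb_apply,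
    Pi.single_eq_same]

theorem emb_sub (i : ι) (X Y : P i →ₗ[K] P i) : emb i (X - Y) = emb i X - emb i Y := by
  apply LinearMap.ext
  intro x
  rw [emb_apply, LinearMap.sub_apply, LinearMap.sub_apply, emb_apply, emb_apply, Pi.single_sub]

/-- The Lie algebra for the colour `i`. -/
def LieI (S : Type) [Fintype S] [DecidableEq S] (i : ι) (B : P i →ₗ[K] P i →ₗ[K] K) :
    Submodule K (P i →ₗ[K] P i) where
  carrier := {X | Skew B X ∧ emb i X ∈ LieT S (rhoP ρ)}
  zero_mem' := by
    refine ⟨fun x y => by simp, ?_⟩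
    have : emb i (0 : P i →ₗ[K] P i) = 0 := by
      have := emb_smul i (0 : K) (0 : P i →ₗ[K] P i)
      rwa [zero_smul, zero_smul] at this
    rw [this]
    exact Submodule.zero_mem _
  add_mem' := by
    rintro X Y ⟨hX, hX'⟩ ⟨hY, hY'⟩
    refine ⟨fun x y => ?_, ?_⟩
    · rw [LinearMap.add_apply, LinearMap.add_apply, map_add, map_add, LinearMap.add_apply]
      linear_combination hX x y + hY x y
    · rw [emb_add]
      exact Submodule.add_mem _ hX' hY'
  smul_mem' := by
    rintro c X ⟨hX, hX'⟩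
    refine ⟨fun x y => ?_, ?_⟩
    · rw [LinearMap.smul_apply, LinearMap.smul_apply, map_smul, map_smul, LinearMap.smul_apply,
        ← smul_add, hX, smul_zero]
    · rw [emb_smul]
      exact Submodule.smul_mem _ _ hX'

theorem skew_bracket {T : Type v} [AddCommGroup T] [Module K T] {B : T →ₗ[K] T →ₗ[K] K}
    {X Y : T →ₗ[K] T} (hX : Skew B X) (hY : Skew B Y) :
    Skew B (X ∘ₗ Y - Y ∘ₗ X) := by
  intro x y
  simp only [LinearMap.sub_apply, LinearMap.comp_apply, map_sub]
  linear_combination hX (Y x) y - hY (X x) y + hX x (Y y) - hY x (X y)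

theorem isLie_LieI (i : ι) {B : P i →ₗ[K] P i →ₗ[K] K} {μ : G → K}
    (hB : ∀ g x y, B (ρ i g x) (ρ i g y) = μ g * B x y) :
    IsLie B (ρ i) (LieI ρ S i B) where
  skew X hX := hX.1
  bracket X hX Y hY := by
    refine ⟨skew_bracket hX.1 hY.1, ?_⟩
    rw [emb_sub, emb_comp, emb_comp]
    exact LieT_bracket hX.2 hY.2
  conj X hX γ := by
    refine ⟨fun x y => ?_, ?_⟩
    · have h1 := hX.1 (ρ i γ⁻¹ x) (ρ i γ⁻¹ y)
      have h2 := hB γ (X (ρ i γ⁻¹ x)) (ρ i γ⁻¹ y)
      have h3 := hB γ (ρ i γ⁻¹ x) (X (ρ i γ⁻¹ y))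
      rw [rho_inv] at h2 h3
      rw [LinearMap.comp_apply, LinearMap.comp_apply, LinearMap.comp_apply, LinearMap.comp_apply,
        h2, h3, ← mul_add, h1, mul_zero]
    · have h1 := LieT_conj hX.2 γ
      have h2 : emb i (ρ i γ ∘ₗ X ∘ₗ ρ i γ⁻¹) = rhoP ρ γ ∘ₗ emb i X ∘ₗ rhoP ρ γ⁻¹ := by
        apply LinearMap.ext
        intro x
        funext j
        rw [LinearMap.comp_apply, LinearMap.comp_apply, rhoP_apply, emb_apply, emb_apply,
          rhoP_apply]
        by_cases hj : j = i
        · subst hj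
          rw [Pi.single_eq_same, Pi.single_eq_same]
          rfl
        · rw [Pi.single_eq_of_ne hj, Pi.single_eq_of_ne hj, map_zero]
      rw [h2]
      exact h1

/-- **All the operators of the symplectic Lie algebra preserve the stable spaces of forms.** -/
theorem emb_ss_mem (i : ι) [Module.Finite K (P i)] {B : P i →ₗ[K] P i →ₗ[K] K}
    (hsk : ∀ x y, B x y = -B y x) (hnd : ∀ x, (∀ y, B x y = 0) → x = 0)
    {μ : G → K} (hμ : ∀ g, μ g ≠ 0) (hB : ∀ g x y, B (ρ i g x) (ρ i g y) = μ g * B x y)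
    (hSI : SI (ρ i)) {γ : G} {δ : P i} (hδ : δ ≠ 0) {c : K} (hc : c ≠ 0)
    (hγ : ∀ x, ρ i γ x = x + (c * B δ x) • δ) (hγ' : ∀ j, j ≠ i → ρ j γ = LinearMap.id)
    (a b : P i) : emb i (ss B a b) ∈ LieT S (rhoP ρ) := by
  have hδδ : B δ δ = 0 := by
    have h1 := hsk δ δ
    have h2 : (2 : K) * B δ δ = 0 := by linear_combination h1
    exact (mul_eq_zero.1 h2).resolve_left two_ne_zero
  have h1 : emb i (rk B δ δ) ∈ LieT S (rhoP ρ) := by
    refine LieT_unipotent ?_ (g := γ) hc ?_
    · rw [← emb_comp]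
      have h2 : rk B δ δ ∘ₗ rk B δ δ = 0 := by
        apply LinearMap.ext
        intro x
        rw [LinearMap.comp_apply, rk_apply, rk_apply, map_smul, hδδ, smul_zero, zero_smul]
        rfl
      rw [h2]
      have := emb_smul i (0 : K) (0 : P i →ₗ[K] P i)
      rwa [zero_smul, zero_smul] at this
    · apply LinearMap.ext
      intro x
      funext j
      rw [rhoP_apply, LinearMap.add_apply, LinearMap.smul_apply, emb_apply, Pi.add_apply,
        Pi.smul_apply]
      by_cases hj : j = i
      · subst hj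
        rw [Pi.single_eq_same, hγ, rk_apply, smul_smul]
        rfl
      · rw [Pi.single_eq_of_ne hj, smul_zero, add_zero, hγ' j hj]
        rfl
  have h2 : rk B δ δ ∈ LieI ρ S i B := by
    refine ⟨fun x y => ?_, h1⟩
    rw [rk_apply, rk_apply, map_smul, map_smul, LinearMap.smul_apply, smul_eq_mul, smul_eq_mul,
      hsk x δ]
    ring
  exact (odd_full hsk hnd hμ hB (isLie_LieI ρ i hB) hSI hδ h2 a b).2

end col

end Pool.Agent.H88.FL
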