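import Pool.Agent.H88.FL.PDefs
import Pool.Agent.H88.L.TH132.A.Low

/-!
# Products of a variety with a sequence of varieties: projections and cohomology
-/

open CategoryTheory AlgebraicGeometry Finset

set_option linter.unusedSectionVars false

universe u v w

namespace Pool.Agent.H88.FL

open Pool.Agent.H914 Pool.Agent.H914.VarClass Pool.Agent.H914.VarClass.Obj
  Pool.Agent.H914.WeilCohomology Pool.Agent.H281R3.HT Pool.Agent.W552

variable {k : Type u} [Field k] {𝒱 : VarClass k} {ops : CycleOps 𝒱}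
  {W : WeilCohomology.{u, v} ops} {Z : Polarized 𝒱}

/-- the variety -/
noncomputable abbrev VV (ops : CycleOps 𝒱) (Z : Polarized 𝒱) (n : ℕ) (Q : Fin n → Polarized 𝒱) :
    𝒱.Obj := (mixProd ops Z n Q).X

/-- the projection to a factor -/
noncomputable def pj (ops : CycleOps 𝒱) (Z : Polarized 𝒱) : (n : ℕ) → (Q : Fin n → Polarized 𝒱) →
    (s : Fin n) → (VV ops Z n Q ⟶ (Q s).X)
  | 0, _, s => s.elim0
  | n + 1, Q, s => Fin.cases (motive := fun s => VV ops Z (n + 1) Q ⟶ (Q s).X)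
      (fst (Q 0).X (VV ops Z n fun t => Q t.succ))
      (fun s => snd (Q 0).X (VV ops Z n fun t => Q t.succ) ≫ pj ops Z n (fun t => Q t.succ) s) s

/-- the projection to the last factor -/
noncomputable def pz (ops : CycleOps 𝒱) (Z : Polarized 𝒱) : (n : ℕ) → (Q : Fin n → Polarized 𝒱) →
    (VV ops Z n Q ⟶ Z.X)
  | 0, _ => 𝟙 Z.X
  | n + 1, Q => snd (Q 0).X (VV ops Z n fun t => Q t.succ) ≫ pz ops Z n (fun t => Q t.succ)

/-- the morphism given by its components -/
noncomputable def tup (ops : CycleOps 𝒱) (Z : Polarized 𝒱) : (n : ℕ) →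
    (Q : Fin n → Polarized 𝒱) → {Y : 𝒱.Obj} → (∀ s, Y ⟶ (Q s).X) → (Y ⟶ Z.X) →
    (Y ⟶ VV ops Z n Q)
  | 0, _, _, _, q => q
  | n + 1, Q, _, p, q => Obj.lift (p 0) (tup ops Z n (fun t => Q t.succ) (fun t => p t.succ) q)

theorem tup_pj (n : ℕ) : ∀ (Q : Fin n → Polarized 𝒱) {Y : 𝒱.Obj} (p : ∀ s, Y ⟶ (Q s).X)
    (q : Y ⟶ Z.X) (s : Fin n), tup ops Z n Q p q ≫ pj ops Z n Q s = p s := by
  induction n with
  | zero => intro Q Y p q s; exact s.elim0
  | succ n ih =>
    intro Q Y p q s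
    refine Fin.cases ?_ (fun s => ?_) s
    · exact Obj.lift_fst _ _
    · change Obj.lift (p 0) _ ≫ snd _ _ ≫ _ = _
      have h1 : Obj.lift (p 0) (tup ops Z n (fun t => Q t.succ) (fun t => p t.succ) q) ≫
        snd (Q 0).X (VV ops Z n fun t => Q t.succ) = _ := Obj.lift_snd _ _
      rw [← Category.assoc, h1]
      exact ih _ _ _ _

theorem tup_pz (n : ℕ) : ∀ (Q : Fin n → Polarized 𝒱) {Y : 𝒱.Obj} (p : ∀ s, Y ⟶ (Q s).X)
    (q : Y ⟶ Z.X), tup ops Z n Q p q ≫ pz ops Z n Q = q := by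
  induction n with
  | zero => intro Q Y p q; exact Category.comp_id _
  | succ n ih =>
    intro Q Y p q
    change Obj.lift (p 0) _ ≫ snd _ _ ≫ _ = _
    have h1 : Obj.lift (p 0) (tup ops Z n (fun t => Q t.succ) (fun t => p t.succ) q) ≫
      snd (Q 0).X (VV ops Z n fun t => Q t.succ) = _ := Obj.lift_snd _ _
    rw [← Category.assoc, h1]
    exact ih _ _ _

/-- the pull-back of a class from a factor -/
noncomputable def pi' (W : WeilCohomology.{u, v} ops) (Z : Polarized 𝒱) {n : ℕ}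
    {Q : Fin n → Polarized 𝒱} (s : Fin n) (x : W.H (Q s).X) : W.H (VV ops Z n Q) :=
  W.map (pj ops Z n Q s) x

/-- the product of the pull-backs -/
noncomputable def lp (W : WeilCohomology.{u, v} ops) (Z : Polarized 𝒱) {n : ℕ}
    {Q : Fin n → Polarized 𝒱} (x : ∀ s, W.H (Q s).X) : W.H (VV ops Z n Q) :=
  ((List.finRange n).map fun s => pi' W Z s (x s)).prod

theorem map_tup_pi {n : ℕ} {Q : Fin n → Polarized 𝒱} {Y : 𝒱.Obj} (p : ∀ s, Y ⟶ (Q s).X)
    (q : Y ⟶ Z.X) (s : Fin n) (x : W.H (Q s).X) :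
    W.map (tup ops Z n Q p q) (pi' W Z s x) = W.map (p s) x := by
  rw [pi', ← W.map_comp, tup_pj]

theorem map_tup_pz {n : ℕ} {Q : Fin n → Polarized 𝒱} {Y : 𝒱.Obj} (p : ∀ s, Y ⟶ (Q s).X)
    (q : Y ⟶ Z.X) (z : W.H Z.X) :
    W.map (tup ops Z n Q p q) (W.map (pz ops Z n Q) z) = W.map q z := by
  rw [← W.map_comp, tup_pz]

theorem map_tup_lp {n : ℕ} {Q : Fin n → Polarized 𝒱} {Y : 𝒱.Obj} (p : ∀ s, Y ⟶ (Q s).X)
    (q : Y ⟶ Z.X) (x : ∀ s, W.H (Q s).X) :
    W.map (tup ops Z n Q p q) (lp W Z x) =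
      ((List.finRange n).map fun s => W.map (p s) (x s)).prod := by
  rw [lp, map_list_prod, List.map_map]
  congr 1
  refine List.map_congr_left fun s _ => ?_
  exact map_tup_pi p q s (x s)

theorem pi_zero {n : ℕ} {Q : Fin (n + 1) → Polarized 𝒱} (x : W.H (Q 0).X) :
    pi' W Z (Q := Q) 0 x = W.map (fst (Q 0).X (VV ops Z n fun t => Q t.succ)) x := rfl

theorem pi_succ {n : ℕ} {Q : Fin (n + 1) → Polarized 𝒱} (s : Fin n) (x : W.H (Q s.succ).X) :
    pi' W Z (Q := Q) s.succ x = W.map (snd (Q 0).X (VV ops Z n fun t => Q t.succ))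
      (pi' W Z (Q := fun t => Q t.succ) s x) :=
  W.map_comp _ _ _

theorem pz_succ {n : ℕ} {Q : Fin (n + 1) → Polarized 𝒱} (z : W.H Z.X) :
    W.map (pz ops Z (n + 1) Q) z = W.map (snd (Q 0).X (VV ops Z n fun t => Q t.succ))
      (W.map (pz ops Z n fun t => Q t.succ) z) :=
  W.map_comp _ _ _

theorem pz_zero {Q : Fin 0 → Polarized 𝒱} (z : W.H Z.X) : W.map (pz ops Z 0 Q) z = z :=
  W.map_id _ _

theorem lp_zero {Q : Fin 0 → Polarized 𝒱} (x : ∀ s, W.H (Q s).X) : lp W Z x = 1 := rfl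

theorem lp_succ {n : ℕ} {Q : Fin (n + 1) → Polarized 𝒱} (x : ∀ s, W.H (Q s).X) :
    lp W Z x = W.map (fst (Q 0).X (VV ops Z n fun t => Q t.succ)) (x 0) *
      W.map (snd (Q 0).X (VV ops Z n fun t => Q t.succ)) (lp W Z fun t => x t.succ) := by
  rw [lp, List.finRange_succ, List.map_cons, List.prod_cons, List.map_map, lp, map_list_prod,
    List.map_map]
  congr 2
  refine List.map_congr_left fun s _ => ?_
  exact pi_succ s (x s.succ)

theorem mono_zero {Q : Fin 0 → Polarized 𝒱} (x : ∀ s, W.H (Q s).X) (z : W.H Z.X) :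
    lp W Z x * W.map (pz ops Z 0 Q) z = z := by
  rw [lp_zero, one_mul]
  exact pz_zero z

theorem mono_succ {n : ℕ} {Q : Fin (n + 1) → Polarized 𝒱} (x : ∀ s, W.H (Q s).X) (z : W.H Z.X) :
    lp W Z x * W.map (pz ops Z (n + 1) Q) z =
      W.map (fst (Q 0).X (VV ops Z n fun t => Q t.succ)) (x 0) *
        W.map (snd (Q 0).X (VV ops Z n fun t => Q t.succ))
          (lp W Z (fun t => x t.succ) * W.map (pz ops Z n fun t => Q t.succ) z) := by
  rw [lp_succ, pz_succ, map_mul]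
  exact mul_assoc _ _ _

/-- **The monomials span the cohomology.** -/
theorem mono_ext {M : Type*} [AddCommGroup M] [Module W.K M] {n : ℕ} :
    ∀ {Q : Fin n → Polarized 𝒱} {F G : W.H (VV ops Z n Q) →ₗ[W.K] M},
    (∀ (x : ∀ s, W.H (Q s).X) z, F (lp W Z x * W.map (pz ops Z n Q) z) =
      G (lp W Z x * W.map (pz ops Z n Q) z)) → F = G := by
  induction n with
  | zero =>
    intro Q F G h
    apply LinearMap.ext
    intro z
    have h1 := h (fun s => s.elim0) z
    have h2 : lp W Z (Q := Q) (fun s => s.elim0) * W.map (pz ops Z 0 Q) z = z := mono_zero _ _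
    exact (congrArg F h2).symm.trans (h1.trans (congrArg G h2))
  | succ n ih =>
    intro Q F G h
    apply ext_kunneth_lin
    intro a b
    have h1 := ih (Q := fun t => Q t.succ)
      (F := F ∘ₗ LinearMap.mulLeft W.K (W.map (fst (Q 0).X (VV ops Z n fun t => Q t.succ)) a) ∘ₗ
        (W.map (snd (Q 0).X (VV ops Z n fun t => Q t.succ))).toLinearMap)
      (G := G ∘ₗ LinearMap.mulLeft W.K (W.map (fst (Q 0).X (VV ops Z n fun t => Q t.succ)) a) ∘ₗ
        (W.map (snd (Q 0).X (VV ops Z n fun t => Q t.succ))).toLinearMap) (by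
      intro x z
      have h2 := h (Fin.cons a x) z
      rw [mono_succ] at h2
      exact h2)
    exact congrArg (fun L => L b) h1

theorem finrank_VV {n : ℕ} : ∀ {Q : Fin n → Polarized 𝒱},
    Module.finrank W.K (W.H (VV ops Z n Q)) =
      (∏ s, Module.finrank W.K (W.H (Q s).X)) * Module.finrank W.K (W.H Z.X) := by
  induction n with
  | zero =>
    intro Q
    rw [Fin.prod_univ_zero, one_mul]
    rfl
  | succ n ih =>
    intro Q
    rw [Fin.prod_univ_succ, mul_assoc, ← ih (Q := fun t => Q t.succ),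
      ← Module.finrank_tensorProduct]
    exact (kappa W (Q 0).X (VV ops Z n fun t => Q t.succ)).finrank_eq.symm

/-- removing a factor -/
noncomputable def rem (ops : CycleOps 𝒱) (Z : Polarized 𝒱) {n : ℕ} (Q : Fin (n + 1) → Polarized 𝒱)
    (s : Fin (n + 1)) : VV ops Z (n + 1) Q ⟶ VV ops Z n (fun t => Q (s.succAbove t)) :=
  tup ops Z n (fun t => Q (s.succAbove t)) (fun t => pj ops Z (n + 1) Q (s.succAbove t))
    (pz ops Z (n + 1) Q)

theorem rem_pi {n : ℕ} {Q : Fin (n + 1) → Polarized 𝒱} (s : Fin (n + 1)) (t : Fin n)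
    (x : W.H (Q (s.succAbove t)).X) :
    W.map (rem ops Z Q s) (pi' W Z (Q := fun t => Q (s.succAbove t)) t x) =
      pi' W Z (s.succAbove t) x := map_tup_pi _ _ _ _

theorem rem_pz {n : ℕ} {Q : Fin (n + 1) → Polarized 𝒱} (s : Fin (n + 1)) (z : W.H Z.X) :
    W.map (rem ops Z Q s) (W.map (pz ops Z n fun t => Q (s.succAbove t)) z) =
      W.map (pz ops Z (n + 1) Q) z := map_tup_pz _ _ _

theorem rem_lp {n : ℕ} {Q : Fin (n + 1) → Polarized 𝒱} (s : Fin (n + 1))
    (x : ∀ t, W.H (Q (s.succAbove t)).X) :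
    W.map (rem ops Z Q s) (lp W Z x) =
      ((List.finRange n).map fun t => pi' W Z (Q := Q) (s.succAbove t) (x t)).prod :=
  map_tup_lp _ _ _

/-- the isomorphism with the product of the factor and the rest -/
noncomputable def spl (ops : CycleOps 𝒱) (Z : Polarized 𝒱) {n : ℕ} (Q : Fin (n + 1) → Polarized 𝒱)
    (s : Fin (n + 1)) : VV ops Z (n + 1) Q ⟶ (Q s).X.prod (VV ops Z n (fun t => Q (s.succAbove t))) :=
  Obj.lift (pj ops Z (n + 1) Q s) (rem ops Z Q s)

theorem spl_tmul {n : ℕ} {Q : Fin (n + 1) → Polarized 𝒱} (s : Fin (n + 1)) (x : W.H (Q s).X)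
    (y : W.H (VV ops Z n fun t => Q (s.succAbove t))) :
    W.map (spl ops Z Q s) (W.map (fst _ _) x * W.map (snd _ _) y) =
      pi' W Z s x * W.map (rem ops Z Q s) y := by
  have e1 : spl ops Z Q s ≫ fst _ _ = pj ops Z (n + 1) Q s := Obj.lift_fst _ _
  have e2 : spl ops Z Q s ≫ snd _ _ = rem ops Z Q s := Obj.lift_snd _ _
  rw [map_mul, ← W.map_comp, ← W.map_comp, e1, e2]
  rfl

/-- the inverse -/
noncomputable def ins (ops : CycleOps 𝒱) (Z : Polarized 𝒱) {n : ℕ} (Q : Fin (n + 1) → Polarized 𝒱)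
    (s : Fin (n + 1)) : (Q s).X.prod (VV ops Z n (fun t => Q (s.succAbove t))) ⟶ VV ops Z (n + 1) Q :=
  tup ops Z (n + 1) Q (Fin.insertNth (α := fun t => (Q s).X.prod
    (VV ops Z n (fun t => Q (s.succAbove t))) ⟶ (Q t).X) s (fst _ _)
      fun t => snd _ _ ≫ pj ops Z n (fun t => Q (s.succAbove t)) t) (snd _ _ ≫ pz ops Z n _)

theorem ins_pi_same {n : ℕ} {Q : Fin (n + 1) → Polarized 𝒱} (s : Fin (n + 1)) (x : W.H (Q s).X) :
    W.map (ins ops Z Q s) (pi' W Z s x) = W.map (fst _ _) x := by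
  rw [ins, map_tup_pi, Fin.insertNth_apply_same]

theorem ins_pi_succAbove {n : ℕ} {Q : Fin (n + 1) → Polarized 𝒱} (s : Fin (n + 1)) (t : Fin n)
    (x : W.H (Q (s.succAbove t)).X) :
    W.map (ins ops Z Q s) (pi' W Z (s.succAbove t) x) =
      W.map (snd _ _) (pi' W Z (Q := fun t => Q (s.succAbove t)) t x) := by
  rw [ins, map_tup_pi, Fin.insertNth_apply_succAbove]
  exact W.map_comp _ _ _

theorem ins_pz {n : ℕ} {Q : Fin (n + 1) → Polarized 𝒱} (s : Fin (n + 1)) (z : W.H Z.X) :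
    W.map (ins ops Z Q s) (W.map (pz ops Z (n + 1) Q) z) =
      W.map (snd _ _) (W.map (pz ops Z n fun t => Q (s.succAbove t)) z) := by
  rw [ins, map_tup_pz]
  exact W.map_comp _ _ _

theorem ins_spl {n : ℕ} {Q : Fin (n + 1) → Polarized 𝒱} (s : Fin (n + 1))
    (c : W.H ((Q s).X.prod (VV ops Z n (fun t => Q (s.succAbove t))))) :
    W.map (ins ops Z Q s) (W.map (spl ops Z Q s) c) = c := by
  have h : (W.map (ins ops Z Q s)).toLinearMap ∘ₗ (W.map (spl ops Z Q s)).toLinearMap =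
      LinearMap.id := by
    apply ext_kunneth_lin
    intro a b
    have h1 : (LinearMap.mulLeft W.K (W.map (fst (Q s).X _) a)) ∘ₗ
        ((W.map (ins ops Z Q s)).toLinearMap ∘ₗ (W.map (rem ops Z Q s)).toLinearMap) =
        (LinearMap.mulLeft W.K (W.map (fst (Q s).X _) a)) ∘ₗ
          (W.map (snd (Q s).X (VV ops Z n (fun t => Q (s.succAbove t))))).toLinearMap := by
      apply mono_ext
      intro x z
      change W.map (fst (Q s).X _) a * W.map (ins ops Z Q s) (W.map (rem ops Z Q s) _) =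
        W.map (fst (Q s).X _) a * W.map (snd _ _) _
      congr 1
      rw [map_mul (W.map (rem ops Z Q s)), rem_lp, rem_pz, map_mul, ins_pz, map_list_prod,
        List.map_map, map_mul, lp, map_list_prod, List.map_map]
      congr 2
      refine List.map_congr_left fun t _ => ?_
      exact ins_pi_succAbove s t (x t)
    have h2 := congrArg (fun L => L b) h1
    change W.map (ins ops Z Q s) (W.map (spl ops Z Q s) _) = _
    rw [spl_tmul, map_mul, ins_pi_same]
    exact h2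
  exact congrArg (fun L => L c) h

theorem spl_bij {n : ℕ} (Q : Fin (n + 1) → Polarized 𝒱) (s : Fin (n + 1)) :
    Function.Bijective (W.map (spl ops Z Q s)) := by
  have hinj : Function.Injective (W.map (spl ops Z Q s)).toLinearMap :=
    Function.LeftInverse.injective (g := W.map (ins ops Z Q s)) (ins_spl s)
  have hfr : Module.finrank W.K (W.H ((Q s).X.prod (VV ops Z n (fun t => Q (s.succAbove t))))) =
      Module.finrank W.K (W.H (VV ops Z (n + 1) Q)) := by
    rw [← (kappa W (Q s).X (VV ops Z n (fun t => Q (s.succAbove t)))).finrank_eq,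
      Module.finrank_tensorProduct, finrank_VV, finrank_VV, Fin.prod_univ_succAbove _ s, mul_assoc]
  exact ⟨hinj, (LinearMap.injective_iff_surjective_of_finrank_eq_finrank hfr).1 hinj⟩

/-- **The classes `x × y` span the cohomology.** -/
theorem rem_ext {M : Type*} [AddCommGroup M] [Module W.K M] {n : ℕ}
    {Q : Fin (n + 1) → Polarized 𝒱} (s : Fin (n + 1))
    {F G : W.H (VV ops Z (n + 1) Q) →ₗ[W.K] M}
    (h : ∀ x y, F (pi' W Z s x * W.map (rem ops Z Q s) y) =
      G (pi' W Z s x * W.map (rem ops Z Q s) y)) : F = G := by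
  have h1 : F ∘ₗ (W.map (spl ops Z Q s)).toLinearMap =
      G ∘ₗ (W.map (spl ops Z Q s)).toLinearMap := by
    apply ext_kunneth_lin
    intro a b
    change F (W.map (spl ops Z Q s) _) = G (W.map (spl ops Z Q s) _)
    rw [spl_tmul]
    exact h a b
  apply LinearMap.ext
  intro c
  obtain ⟨d, rfl⟩ := (spl_bij Q s).2 c
  exact congrArg (fun L => L d) h1

end Pool.Agent.H88.FL
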