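import Pool.Agent.H88.FL.Geo9

/-!
# Classes with few forms
-/

open CategoryTheory AlgebraicGeometry Finset Function

set_option linter.unusedSectionVars false

universe u v w

namespace Pool.Agent.H88.FL

open Pool.Agent.H914 Pool.Agent.H914.VarClass Pool.Agent.H914.VarClass.Obj
  Pool.Agent.H914.WeilCohomology Pool.Agent.H281R3.HT Pool.Agent.W552 Pool.Agent.TH132.A
  Pool.Agent.TH125.Gal

variable {k : Type u} [Field k] {𝒱 : VarClass k} {ops : CycleOps 𝒱}
  {W : WeilCohomology.{u, v} ops} {Z : Polarized 𝒱} {ι : Type} {P : ι → Polarized 𝒱}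

/-- the multiplication by the class of the divisor on the product -/
noncomputable abbrev LL (W : WeilCohomology.{u, v} ops) (Z : Polarized 𝒱) {ι : Type}
    (P : ι → Polarized 𝒱) {n : ℕ} (c : Fin n → ι) :
    Module.End W.K (W.H (VV ops Z n fun s => P (c s))) :=
  LinearMap.mulLeft W.K (W.cl (VV ops Z n fun s => P (c s)) (mixProd ops Z n fun s => P (c s)).D)

/-- **Classes without forms.** -/
theorem Setting.good_of_FF (S : Setting W Z P) {n : ℕ} (c : Fin n → ι)
    {F : Module.End W.K (W.H (VV ops Z n fun s => P (c s)))}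
    (tF : Low W (VV ops Z n fun s => P (c s)) (mixProd ops Z n fun s => P (c s)).D F)
    (h1 : (1 : W.H (VV ops Z n fun s => P (c s))) ≠ 0)
    (ih : ∀ m < n, ∀ c' : Fin m → ι, LA W Z P c')
    {h : W.H (VV ops Z n fun s => P (c s))} (hA : AS W _ h)
    (hF : ∀ v, FF c h v = 0) : Good W (LL W Z P c) F h := by
  classical
  match n, c, F, tF, h1, ih, h, hA, hF with
  | 0, c, F, tF, h1, ih, h, hA, hF =>
    have h2 := hF fun s => s.elim0
    have h3 : lp W Z (ev c fun s : Fin 0 => s.elim0) =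
      (1 : W.H (VV ops Z 0 fun s => P (c s))) := rfl
    rw [FF_apply, h3, mul_one] at h2
    have h4 : W.push (pz ops Z 0 fun s => P (c s)) h = h := W.push_id h
    have h5 : h = 0 := h4.symm.trans h2
    rw [h5]
    exact Good.zero
  | n + 1, c, F, tF, h1, ih, h, hA, hF =>
    have hT : ∀ s, ∀ y ∈ transcendental W (P (c s)).X, OddC W y :=
      fun s y hy => ⟨_, S.odd _, S.mid _ hy⟩
    obtain ⟨D⟩ : Nonempty (∀ s, Slot W Z (fun s => P (c s)) s) :=
      ⟨fun s => (exists_slot s h1 (S.num (c s))).some⟩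
    have hh := ptt_zero D hT (h := h) (by
      intro x hx
      have h2 := hF fun s => Pi.single (c s) ⟨x s, hx s⟩
      rw [FF_apply] at h2
      have h3 : (ev c fun s => Pi.single (c s) (⟨x s, hx s⟩ : transcendental W (P (c s)).X)) =
          x := by
        funext s
        rw [ev, Pi.single_eq_same]
      rwa [h3] at h2)
    have h2 := (ptt_spec D (M := Good W (LL W Z P c) F) Good.zero
      (fun x y hx hy => hx.add hy) (fun s y hy => by
        obtain ⟨F', tF'⟩ := S.exists_low fun t => c (s.succAbove t)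
        obtain ⟨f, tf, hf⟩ := S.exists_low' (c s)
        exact (D s).good_op tF tf tF' (S.cycV _) (S.cyc _) hf
          (S.stable (ih n (by omega) fun t => c (s.succAbove t)) tF') hy)
      (List.finRange (n + 1)) hA).2
    rwa [hh, sub_zero] at h2

theorem lp_mem {n : ℕ} : ∀ {Q : Fin n → Polarized 𝒱} {m : Fin n → ℕ} {x : ∀ s, W.H (Q s).X}
    (_ : ∀ s, x s ∈ W.gr (Q s).X (m s)), lp W Z x ∈ W.gr (VV ops Z n Q) (∑ s, m s) := by
  induction n with
  | zero =>
    intro Q m x _
    rw [Fin.sum_univ_zero]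
    exact W.one_mem _
  | succ n ih =>
    intro Q m x hx
    rw [Fin.sum_univ_succ, lp_succ]
    exact W.mul_mem (W.map_mem _ (hx 0)) (W.map_mem _ (ih fun s => hx s.succ))

theorem Setting.FF_mem (S : Setting W Z P) {n : ℕ} (c : Fin n → ι) {m : ℕ}
    {h : W.H (VV ops Z n fun s => P (c s))} (hh : h ∈ W.gr _ m)
    (v : Fin n → ∀ i, transcendental W (P i).X) :
    FF c h v ∈ grZ (W.gr Z.X) ((m : ℤ) - (∑ s, (P (c s)).X.dim : ℕ)) := by
  have h1 : lp W Z (ev c v) ∈ W.gr (VV ops Z n fun s => P (c s)) (∑ s, (P (c s)).X.dim) :=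
    lp_mem fun s => S.mid _ (v s (c s)).2
  have h2 := W.push_mem (pz ops Z n fun s => P (c s)) (W.mul_mem hh h1)
  rw [FF_apply]
  have h3 : ((m + ∑ s, (P (c s)).X.dim : ℕ) : ℤ) +
      2 * ((Z.X.dim : ℤ) - (VV ops Z n fun s => P (c s)).dim) =
        (m : ℤ) - (∑ s, (P (c s)).X.dim : ℕ) := by
    rw [dim_VV]
    push_cast
    ring
  rwa [h3] at h2

theorem Setting.bf_skew (S : Setting W Z P) (i : ι) (x y : transcendental W (P i).X) :
    bf W P i x y = -bf W P i y x := by
  rw [bf_apply, bf_apply, W.comm (S.mid i x.2) (S.mid i y.2), ((S.odd i).mul (S.odd i)).neg_one_pow,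
    neg_one_smul, map_neg]

theorem Setting.bf_nondeg (S : Setting W Z P) (i : ι) (x : transcendental W (P i).X)
    (hx : ∀ y, bf W P i x y = 0) : x = 0 := by
  obtain ⟨N, a, b, h⟩ := exists_dualFam (S.num i)
  apply Subtype.ext
  apply W.nondeg
  intro z
  have h1 : z = (z - al W a b z) + al W a b z := by abel
  have h2 := hx ⟨_, h.sub_al_trans (S.num i) z⟩
  rw [bf_apply] at h2
  rw [h1, mul_add, map_add, trans_span x.2 (h.al_mem z), add_zero]
  exact h2

theorem Setting.exists_bases (S : Setting W Z P) : ∃ (g : ι → ℕ)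
    (b : ∀ i, Module.Basis (Fin (g i) × Bool) W.K (transcendental W (P i).X)),
      ∀ i x y, bf W P i (b i x) (b i y) = sf W.K x y := by
  have h1 : ∀ i, ∃ (m : ℕ) (b : Module.Basis (Fin m × Bool) W.K (transcendental W (P i).X)),
      ∀ x y, bf W P i (b x) (b y) = sf W.K x y := by
    intro i
    refine exists_symp (S.bf_skew i) (fun x => ?_) (S.bf_nondeg i)
    have h2 := S.bf_skew i x x
    have h3 : (2 : W.K) * bf W P i x x = 0 := by linear_combination h2
    exact (mul_eq_zero.1 h3).resolve_left two_ne_zero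
  choose g b hb using h1
  exact ⟨g, b, hb⟩

end Pool.Agent.H88.FL
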