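import Pool.Agent.H88.FL.PDefs
import Pool.Agent.H88.L.TH125.Gal.Pub2

/-!
# Families of varieties of odd dimension with big monodromy: definitions
-/

open CategoryTheory AlgebraicGeometry

universe u v w

namespace Pool.Agent.H88.FL

open Pool.Agent.H914 Pool.Agent.H914.VarClass Pool.Agent.H914.VarClass.Obj
  Pool.Agent.H914.WeilCohomology Pool.Agent.H281R3.HT Pool.Agent.W552 Pool.Agent.TH125.Gal

variable {k : Type u} [Field k] {𝒱 : VarClass k} {ops : CycleOps 𝒱}
  {W : WeilCohomology.{u, v} ops} {Γ : Type w} [Group Γ]

/-- The members of `G` are varieties with an action of `Γ` on the cohomology which has the formal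
properties of a Galois action, and `G` is closed under products. The `X i` are members of `G` of
odd dimension; the divisors `D i` satisfy the hard Lefschetz theorem; homological and numerical
equivalence coincide for the `X i`; the transcendental cohomology of `X i` is in the middle degree
and irreducible under all subgroups of finite index; for every `i` there is an element of `Γ` which
acts on it by a Picard-Lefschetz formula and trivially on the cohomology of the other `X j`. -/
structure OddFamily (χ : Γ →* W.Kˣ) (G : Set (GVar W Γ)) {ι : Type} (X : ι → GVar W Γ)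
    (D : ∀ i, (X i).X.Cycles) : Prop where
  galoisClass : GaloisClass χ G
  mem : ∀ i, X i ∈ G
  odd : ∀ i, Odd (X i).X.dim
  div : ∀ i, (X i).X.IsCyc 1 (D i)
  hard : ∀ i, HardLefschetz W (X i).X (D i)
  homEqNum : ∀ i, HomEqNum W (X i).X
  middle : ∀ i, transcendental W (X i).X ≤ W.gr (X i).X (X i).X.dim
  irreducible : ∀ i, IrredAct (X i).act (transcendental W (X i).X)
  node : ∀ i, ∃ g : Γ, PLVar (X i) g ∧ ∀ j, j ≠ i → TrivVar (X j) g

/-- The product `X (c 0) × (X (c 1) × ( ⋯ × (X (c (n - 1)) × Z)))`, with the sum of the pull-backs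
of the divisors. -/
noncomputable def mixed {ι : Type} (X : ι → GVar W Γ) (D : ∀ i, (X i).X.Cycles) (Z : GVar W Γ)
    (E : Z.X.Cycles) {n : ℕ} (c : Fin n → ι) : Polarized 𝒱 :=
  mixProd ops ⟨Z.X, E⟩ n fun s => ⟨(X (c s)).X, D (c s)⟩

/-- The product of the `m i + 1` over the values `i` of `c`, where `m i` is the number of the `s`
with `c s = i`. -/
def level {ι : Type} [DecidableEq ι] {n : ℕ} (c : Fin n → ι) : ℕ :=
  ∏ i ∈ Finset.univ.image c, ((Finset.univ.filter fun s => c s = i).card + 1)

/-- The product with the `m`-th power of the class of the divisor `D`. -/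
noncomputable def divMul (W : WeilCohomology.{u, v} ops) (X : 𝒱.Obj) (D : X.Cycles) (m : ℕ) :
    W.H X →ₗ[W.K] W.H X :=
  LinearMap.mulLeft W.K (W.cl X D ^ m)

/-- The classes in `H^e(X)` which are orthogonal to all algebraic classes. -/
noncomputable def transIn (W : WeilCohomology.{u, v} ops) (X : 𝒱.Obj) (e : ℕ) :
    Submodule W.K (W.H X) :=
  W.gr X e ⊓ transcendental W X

/-- The primitive classes `x` in `H^e(X)`, that is `D ^ (dim X - e + 1) x = 0`, which are orthogonal
to all algebraic classes. -/
noncomputable def primTrans (W : WeilCohomology.{u, v} ops) (X : 𝒱.Obj) (D : X.Cycles) (e : ℕ) :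
    Submodule W.K (W.H X) :=
  transIn W X e ⊓ LinearMap.ker (divMul W X D (X.dim - e + 1))

/-- The dimension of the space of primitive transcendental classes in `H^e(X)`. -/
noncomputable def primRank (W : WeilCohomology.{u, v} ops) (X : 𝒱.Obj) (D : X.Cycles) (e : ℕ) :
    ℕ :=
  Module.finrank W.K (primTrans W X D e)

end Pool.Agent.H88.FL
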