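import Pool.Agent.H88.FL.Geo10
import Pool.Agent.H88.FL.PDefs2

/-!
# Equivariant multilinear maps with values in the cohomology of a variety
-/

open CategoryTheory AlgebraicGeometry Finset Function

set_option linter.unusedSectionVars false

universe u v w

namespace Pool.Agent.H88.FL

open Pool.Agent.H914 Pool.Agent.H914.VarClass Pool.Agent.H914.VarClass.Obj
  Pool.Agent.H914.WeilCohomology Pool.Agent.H281R3.HT Pool.Agent.W552 Pool.Agent.TH132.A
  Pool.Agent.TH125.Gal

variable {k : Type u} [Field k] {𝒱 : VarClass k} {ops : CycleOps 𝒱}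
  {W : WeilCohomology.{u, v} ops} {Γ : Type w} [Group Γ] {χ : Γ →* W.Kˣ}

section low

variable {X : 𝒱.Obj} {D : X.Cycles} {f : Module.End W.K (W.H X)}
  {ρ : Γ →* (W.H X ≃ₐ[W.K] W.H X)}

theorem act_inv' (ρ : Γ →* (W.H X ≃ₐ[W.K] W.H X)) (g : Γ) (a : W.H X) :
    ρ g⁻¹ (ρ g a) = a := by
  rw [← AlgEquiv.mul_apply, ← map_mul, inv_mul_cancel, map_one]
  rfl

theorem wt_act (h : GA χ X ρ) (g : Γ) (x : W.H X) :
    wt (W.isInternal X) X.dim (ρ g x) = ρ g (wt (W.isInternal X) X.dim x) := by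
  refine gr_induction (W.isInternal X) (p := fun x => wt (W.isInternal X) X.dim (ρ g x) =
    ρ g (wt (W.isInternal X) X.dim x)) ?_ ?_ x
  · intro i a ha
    rw [wt, scal_apply _ _ (h.gr_mem g i a ha), scal_apply _ _ ha, map_smul]
  · intro a b ha hb
    rw [map_add, map_add, ha, hb, map_add, map_add]

/-- conjugation -/
noncomputable def cjg (ρ : Γ →* (W.H X ≃ₐ[W.K] W.H X)) (g : Γ) :
    Module.End W.K (W.H X) →+* Module.End W.K (W.H X) where
  toFun u := (ρ g⁻¹).toLinearMap ∘ₗ u ∘ₗ (ρ g).toLinearMap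
  map_one' := by
    apply LinearMap.ext
    intro x
    exact act_inv' ρ g x
  map_mul' u u' := by
    apply LinearMap.ext
    intro x
    change ρ g⁻¹ (u (u' (ρ g x))) = ρ g⁻¹ (u (ρ g (ρ g⁻¹ (u' (ρ g x)))))
    rw [act_inv]
  map_zero' := by
    apply LinearMap.ext
    intro x
    exact map_zero (ρ g⁻¹)
  map_add' u u' := by
    apply LinearMap.ext
    intro x
    exact map_add (ρ g⁻¹) _ _

theorem cjg_apply (g : Γ) (u : Module.End W.K (W.H X)) (x : W.H X) :
    cjg ρ g u x = ρ g⁻¹ (u (ρ g x)) := rfl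

/-- **The lowering operator is equivariant up to a scalar.** -/
theorem low_act (h : GA χ X ρ) (tf : Low W X D f) {g : Γ}
    (hg : ρ g (W.cl X D) = (χ g : W.K) • W.cl X D) (x : W.H X) :
    f (ρ g x) = (χ g : W.K) • ρ g (f x) := by
  have hχ : (χ g : W.K) ≠ 0 := Units.ne_zero _
  have h1 : Low W X D ((χ g : W.K)⁻¹ • cjg ρ g f) := by
    have h2 := Sl2.map (cjg ρ g) tf
    have e1 : cjg ρ g (wt (W.isInternal X) X.dim) = wt (W.isInternal X) X.dim := by
      apply LinearMap.ext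
      intro x
      rw [cjg_apply, wt_act h, act_inv']
    have e2 : cjg ρ g (LinearMap.mulLeft W.K (W.cl X D)) =
        (χ g : W.K)⁻¹ • LinearMap.mulLeft W.K (W.cl X D) := by
      apply LinearMap.ext
      intro x
      have h3 : ρ g⁻¹ (W.cl X D) = (χ g : W.K)⁻¹ • W.cl X D := by
        have h4 := congrArg (ρ g⁻¹) hg
        rw [act_inv', map_smul] at h4
        conv_rhs => rw [h4]
        rw [smul_smul, inv_mul_cancel₀ hχ, one_smul]
      rw [cjg_apply, LinearMap.mulLeft_apply, map_mul, act_inv', h3, LinearMap.smul_apply,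
        LinearMap.mulLeft_apply, smul_mul_assoc]
    rw [e1, e2] at h2
    refine ⟨?_, tf.he, ?_⟩
    · have h3 := h2.ef
      rw [smul_mul_assoc, mul_smul_comm] at h3
      rw [mul_smul_comm, smul_mul_assoc]
      exact h3
    · have h3 := h2.hf
      rw [mul_smul_comm, smul_mul_assoc, mul_smul_comm]
      exact (smul_sub _ _ _).symm.trans ((congrArg (fun u => (χ g : W.K)⁻¹ • u) h3).trans
        (smul_neg _ _))
  have h2 := sl2_unique tf h1
  have h3 := congrArg (fun u => u x) h2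
  rw [LinearMap.smul_apply, cjg_apply] at h3
  rw [h3, map_smul, act_inv, smul_smul, mul_inv_cancel₀ hχ, one_smul]

end low

section forms

variable {Z : Polarized 𝒱} {ι : Type} [Fintype ι] [DecidableEq ι] {P : ι → Polarized 𝒱} {n : ℕ}
  {c : Fin n → ι} {ρ : ∀ i, Γ →* (W.H (P i).X ≃ₐ[W.K] W.H (P i).X)}
  {τ : Γ →* (W.H Z.X ≃ₐ[W.K] W.H Z.X)} {g : ι → ℕ}
  {b : ∀ i, Module.Basis (Fin (g i) × Bool) W.K (transcendental W (P i).X)}

/-- The multilinear map is supported on the colouring `c` and traceless. -/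
structure TL {N : Type*} [AddCommGroup N] [Module W.K N]
    (b : ∀ i, Module.Basis (Fin (g i) × Bool) W.K (transcendental W (P i).X)) (c : Fin n → ι)
    (Φ : MultilinearMap W.K (fun _ : Fin n => ∀ i, transcendental W (P i).X) N) : Prop where
  supp : ∀ r : Fin n → J g, (∃ s, (r s).1 ≠ c s) → Φ (fun s => bh b (r s)) = 0
  tr : ∀ i s t, s ≠ t → ∀ r : Fin n → J g,
    ∑ a, Φ (fun l => bh b (update (update r s (pl i a)) t (mi i a) l)) =
      ∑ a, Φ (fun l => bh b (update (update r s (mi i a)) t (pl i a) l))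

theorem TL.comp {N N' : Type*} [AddCommGroup N] [Module W.K N] [AddCommGroup N'] [Module W.K N']
    {Φ : MultilinearMap W.K (fun _ : Fin n => ∀ i, transcendental W (P i).X) N}
    (h : TL b c Φ) (u : N →ₗ[W.K] N') : TL b c (u.compMultilinearMap Φ) where
  supp r hr := by
    rw [LinearMap.compMultilinearMap_apply, h.supp r hr, map_zero]
  tr i s t hst r := by
    simp only [LinearMap.compMultilinearMap_apply]
    rw [← map_sum u, ← map_sum u, h.tr i s t hst r]

/-- The multilinear map is equivariant up to scalars under a subgroup of finite index. -/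
def Eqv (hρ : ∀ i, GA χ (P i).X (ρ i)) (τ : Γ →* (W.H Z.X ≃ₐ[W.K] W.H Z.X))
    (Φ : MultilinearMap W.K (fun _ : Fin n => ∀ i, transcendental W (P i).X) (W.H Z.X)) : Prop :=
  ∃ Δ : Subgroup Γ, Δ.FiniteIndex ∧ ∀ γ ∈ Δ, ∃ m : W.K, ∀ v,
    Φ (fun s => rhoP (fun i => rhoT (hρ i)) γ (v s)) = m • τ γ (Φ v)

/-- the conditions on the actions -/
structure ActP (χ : Γ →* W.Kˣ) (P : ι → Polarized 𝒱)
    (ρ : ∀ i, Γ →* (W.H (P i).X ≃ₐ[W.K] W.H (P i).X)) : Prop where
  ga : ∀ i, GA χ (P i).X (ρ i)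
  irr : ∀ i, IrredAct (ρ i) (transcendental W (P i).X)
  node : ∀ i, ∃ γ, PLAct (W.tr (P i).X) (transcendental W (P i).X) (ρ i) γ ∧
      ∀ j, j ≠ i → TrivAct (ρ j) γ

/-- **Small stable spaces of traceless forms vanish.** -/
theorem Setting.forms_zero (S : Setting W Z P) (H : ActP χ P ρ)
    (hb : ∀ i x y, bf W P i (b i x) (b i y) = sf W.K x y)
    {R : Submodule W.K (MultilinearMap W.K (fun _ : Fin n => ∀ i, transcendental W (P i).X) W.K)}
    [Module.Finite W.K R] (hfam : Fam (rhoP fun i => rhoT (H.ga i)) R)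
    (hTL : ∀ φ ∈ R, TL b c φ)
    (hsm : Module.finrank W.K R < ∏ i, ((univ.filter fun s => c s = i).card + 1)) :
    ∀ φ ∈ R, φ = 0 := by
  have hL : ∀ i u v, ∀ φ ∈ R, der (emb i (ss (bf W P i) u v)) φ ∈ R := by
    intro i u v φ hφ
    obtain ⟨γ, ⟨δ, hδ, hδ0, a, ha, hγ⟩, hγ'⟩ := H.node i
    refine emb_ss_mem (S := Fin n) (fun i => rhoT (H.ga i)) i (S.bf_skew i) (S.bf_nondeg i)
      (μ := fun g => (χ g : W.K) ^ (P i).X.dim) (fun g => pow_ne_zero _ (Units.ne_zero _))
      (fun g x y => ?_) (SI_rhoT (H.ga i) (H.irr i)) (γ := γ) (δ := ⟨δ, hδ⟩) (fun h0 => ?_) ha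
      (fun x => ?_) (fun l hl => ?_) u v _ hfam φ hφ
    · rw [bf_apply, bf_apply, rhoT_apply, rhoT_apply, ← map_mul, (H.ga i).tr_act]
    · exact hδ0 (congrArg Subtype.val h0)
    · apply Subtype.ext
      rw [rhoT_apply, hγ x x.2]
      rfl
    · apply LinearMap.ext
      intro x
      apply Subtype.ext
      rw [rhoT_apply]
      exact hγ' l hl x
  intro φ hφ
  refine Module.Basis.ext_multilinear (fun _ => Pi.basis b) fun r => ?_
  have h3 := coord_zero (B := bf W P) hb (c := c) hL (fun φ hφ => (hTL φ hφ).supp)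
    (fun φ hφ => (hTL φ hφ).tr) hsm hφ r
  rw [_root_.zero_apply, ← h3]
  congr 1
  funext s
  rw [Pi.basis_apply]
  rfl

/-- **An equivariant map with values in a small stable subspace vanishes.** -/
theorem Setting.map_zero_of_small (S : Setting W Z P) (H : ActP χ P ρ)
    (hb : ∀ i x y, bf W P i (b i x) (b i y) = sf W.K x y)
    {Φ : MultilinearMap W.K (fun _ : Fin n => ∀ i, transcendental W (P i).X) (W.H Z.X)}
    (hE : Eqv (Z := Z) H.ga τ Φ) (hT : TL b c Φ) {U : Submodule W.K (W.H Z.X)}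
    (hΦ : ∀ v, Φ v ∈ U)
    (hsm : Module.finrank W.K U < ∏ i, ((univ.filter fun s => c s = i).card + 1)) :
    Φ = 0 := by
  obtain ⟨p, hp⟩ := LinearMap.exists_leftInverse_of_injective U.subtype
    (Submodule.ker_subtype U)
  have hpU : ∀ x ∈ U, ((p x : U) : W.H Z.X) = x := by
    intro x hx
    have := congrArg (fun q => q (⟨x, hx⟩ : U)) hp
    exact congrArg Subtype.val this
  let Λ : Module.Dual W.K U →ₗ[W.K]
      MultilinearMap W.K (fun _ : Fin n => ∀ i, transcendental W (P i).X) W.K :=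
    { toFun := fun l => (l ∘ₗ p).compMultilinearMap Φ
      map_add' := fun _ _ => rfl
      map_smul' := fun _ _ => rfl }
  have hΛ : ∀ l v, Λ l v = l (p (Φ v)) := fun _ _ => rfl
  have hfam : Fam (rhoP fun i => rhoT (H.ga i)) (LinearMap.range Λ) := by
    obtain ⟨Δ', hΔ', h1⟩ := hE
    refine ⟨Δ', hΔ', fun γ hγ φ hφ => ?_⟩
    obtain ⟨l, rfl⟩ := hφ
    obtain ⟨m, hm⟩ := h1 γ hγ
    refine ⟨m • (l ∘ₗ p ∘ₗ (τ γ).toLinearMap ∘ₗ U.subtype), ?_⟩
    apply MultilinearMap.ext
    intro v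
    rw [MultilinearMap.compLinearMap_apply, hΛ, hΛ, hm, map_smul, map_smul,
      LinearMap.smul_apply]
    change m • l (p (τ γ ((p (Φ v) : U) : W.H Z.X))) = _
    rw [hpU _ (hΦ v)]
  have h2 := S.forms_zero H hb (c := c) hfam (by
    rintro _ ⟨l, rfl⟩
    exact hT.comp (l ∘ₗ p)) (by
    have h1 := LinearMap.finrank_range_le Λ
    rw [Subspace.dual_finrank_eq] at h1
    exact lt_of_le_of_lt h1 hsm)
  apply MultilinearMap.ext
  intro v
  have h3 : p (Φ v) = 0 := by
    rw [← Module.forall_dual_apply_eq_zero_iff W.K]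
    intro l
    have h4 := h2 _ ⟨l, rfl⟩
    exact congrArg (fun φ => φ v) h4
  rw [← hpU _ (hΦ v), h3]
  rfl

/-- **The values of a traceless equivariant map are transcendental.** -/
theorem Setting.map_trans (S : Setting W Z P) (H : ActP χ P ρ)
    (hb : ∀ i x y, bf W P i (b i x) (b i y) = sf W.K x y) (hτ : GA χ Z.X τ)
    {Φ : MultilinearMap W.K (fun _ : Fin n => ∀ i, transcendental W (P i).X) (W.H Z.X)}
    (hE : Eqv (Z := Z) H.ga τ Φ) (hT : TL b c Φ) (hn : 0 < n)
    (v : Fin n → ∀ i, transcendental W (P i).X) : Φ v ∈ transcendental W Z.X := by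
  rw [mem_trans]
  intro j z hz
  rw [bil_apply]
  set Ψ : MultilinearMap W.K (fun _ : Fin n => ∀ i, transcendental W (P i).X) W.K :=
    (W.tr Z.X ∘ₗ LinearMap.mulRight W.K z).compMultilinearMap Φ with hΨ
  have hΨa : ∀ v, Ψ v = W.tr Z.X (Φ v * z) := fun _ => rfl
  have hfam : Fam (rhoP fun i => rhoT (H.ga i)) (Submodule.span W.K {Ψ}) := by
    obtain ⟨Δ, hΔ, h1⟩ := hE
    obtain ⟨Δ', hΔ', h2⟩ := hτ.cl_fix j z hz
    refine ⟨Δ ⊓ Δ', inferInstance, fun γ hγ φ hφ => ?_⟩
    obtain ⟨a, rfl⟩ := Submodule.mem_span_singleton.1 hφ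
    obtain ⟨m, hm⟩ := h1 γ hγ.1
    refine Submodule.mem_span_singleton.2
      ⟨a * (m * (((χ γ : W.K) ^ j)⁻¹ * (χ γ : W.K) ^ Z.X.dim)), ?_⟩
    apply MultilinearMap.ext
    intro v
    have h3 : z = ((χ γ : W.K) ^ j)⁻¹ • τ γ z := by
      rw [h2 γ hγ.2, smul_smul, inv_mul_cancel₀ (pow_ne_zero _ (Units.ne_zero _)), one_smul]
    rw [MultilinearMap.compLinearMap_apply, _root_.smul_apply, _root_.smul_apply, hΨa, hΨa, hm]
    conv_rhs => rw [h3]
    rw [smul_mul_assoc, mul_smul_comm, map_smul, map_smul, ← map_mul, hτ.tr_act, smul_eq_mul,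
      smul_eq_mul, smul_eq_mul, smul_eq_mul]
    ring
  have h2 := S.forms_zero H hb (c := c) hfam (by
    intro φ hφ
    obtain ⟨a, rfl⟩ := Submodule.mem_span_singleton.1 hφ
    exact hT.comp (a • (W.tr Z.X ∘ₗ LinearMap.mulRight W.K z))) (by
    refine lt_of_le_of_lt (finrank_span_le_card _) ?_
    rw [Set.toFinset_singleton, Finset.card_singleton]
    have h3 : (2 : ℕ) ≤ (univ.filter fun s => c s = c ⟨0, hn⟩).card + 1 := by
      have : 0 < (univ.filter fun s => c s = c ⟨0, hn⟩).card :=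
        Finset.card_pos.2 ⟨⟨0, hn⟩, by simp⟩
      omega
    have h4 := Finset.single_le_prod' (f := fun i => (univ.filter fun s => c s = i).card + 1)
      (fun i _ => Nat.le_add_left 1 _) (Finset.mem_univ (c ⟨0, hn⟩))
    have h5 : (univ.filter fun s => c s = c ⟨0, hn⟩).card + 1 ≤
      ∏ i, ((univ.filter fun s => c s = i).card + 1) := h4
    omega) Ψ (Submodule.mem_span_singleton_self Ψ)
  exact congrArg (fun φ => φ v) h2

end forms

end Pool.Agent.H88.FL
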