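import Pool.Agent.H88.FL.Geo11

/-!
# Equivariant maps and the Lefschetz decomposition of the target
-/

open CategoryTheory AlgebraicGeometry Finset Function

set_option linter.unusedSectionVars false

universe u v w

namespace Pool.Agent.H88.FL

open Pool.Agent.H914 Pool.Agent.H914.VarClass Pool.Agent.H914.VarClass.Obj
  Pool.Agent.H914.WeilCohomology Pool.Agent.H281R3.HT Pool.Agent.W552 Pool.Agent.TH132.A
  Pool.Agent.TH125.Gal

variable {k : Type u} [Field k] {𝒱 : VarClass k} {ops : CycleOps 𝒱}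
  {W : WeilCohomology.{u, v} ops} {Γ : Type w} [Group Γ] {χ : Γ →* W.Kˣ}

section low

variable {X : 𝒱.Obj} {D : X.Cycles} {f : Module.End W.K (W.H X)}

theorem low_gr (t : Low W X D f) {i : ℕ} {a : W.H X} (ha : a ∈ W.gr X i) :
    (∀ j, j + 2 = i → f a ∈ W.gr X j) ∧ (i < 2 → f a = 0) := by
  have h1 := congrArg (fun G => G a) t.hf
  simp only [LinearMap.sub_apply, Module.End.mul_apply, LinearMap.neg_apply, Fr.wt_gr ha,
    map_smul] at h1
  have h2 : (2 : Module.End W.K (W.H X)) (f a) = (2 : W.K) • f a := by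
    rw [ofNat_smul_eq_nsmul]; rfl
  have h3 : wt (W.isInternal X) X.dim (f a) = ((i : W.K) - X.dim - 2) • f a := by
    rw [h2, sub_eq_iff_eq_add] at h1
    rw [h1, ← neg_smul, ← add_smul]
    congr 1
    ring
  have h4 := mem_gr_of_wt (W.isInternal X) W_hbd h3
  constructor
  · intro j hj
    apply h4.1
    rw [← hj]
    push_cast
    ring
  · intro hi
    apply h4.2
    intro j h0
    have : (i : W.K) = (j + 2 : ℕ) := by push_cast; linear_combination h0
    have : i = j + 2 := by exact_mod_cast this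
    omega

theorem low_pow_gr (t : Low W X D f) (m : ℕ) {i j : ℕ} (hij : j + 2 * m = i) {a : W.H X}
    (ha : a ∈ W.gr X i) : (f ^ m) a ∈ W.gr X j := by
  induction m generalizing j with
  | zero =>
    rw [pow_zero, Module.End.one_apply]
    rwa [show j = i by omega]
  | succ m ih =>
    rw [pow_succ', Module.End.mul_apply]
    exact (low_gr t (ih (j := j + 2) (by omega))).1 j rfl

theorem low_inj (t : Low W X D f) {m : ℕ} {a : W.H X} (ha : a ∈ W.gr X (X.dim + m))
    (h0 : (f ^ m) a = 0) : a = 0 := by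
  by_contra hne
  have t' : Sl2 _ _ _ := Sl2.neg_swap t
  have hw : wt (W.isInternal X) X.dim a = (m : W.K) • a := by
    rw [Fr.wt_gr ha]
    congr 1
    push_cast
    ring
  have hneg : ∀ r, ((-f) ^ r) a = (-1 : W.K) ^ r • (f ^ r) a := by
    intro r
    induction r with
    | zero => simp
    | succ r ih =>
      rw [pow_succ', Module.End.mul_apply, ih, LinearMap.neg_apply, map_smul,
        pow_succ' (-1 : W.K), pow_succ' f, Module.End.mul_apply, neg_one_mul, neg_smul]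
  have h1 : (-LinearMap.mulLeft W.K (W.cl X D)) a = 0 := by
    refine Sl2.f_eq_zero t' (M := m) ?_ ?_
    · rw [LinearMap.neg_apply, hw, neg_smul]
    · rw [hneg, pow_succ' f, Module.End.mul_apply, h0, map_zero, smul_zero]
  have h2 := Sl2.e_pow_ne t' (m := m) h1 (by rw [LinearMap.neg_apply, hw, neg_smul]) hne
    (k := m) le_rfl
  apply h2
  rw [hneg, h0, smul_zero]

theorem low_prim (t : Low W X D f) {e : ℕ} (he : e ≤ X.dim) {a : W.H X} (ha : a ∈ W.gr X e)
    (h0 : f a = 0) : ((LinearMap.mulLeft W.K (W.cl X D)) ^ (X.dim - e + 1)) a = 0 := by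
  refine Sl2.e_pow_zero t (m := X.dim - e) h0 ?_ (by omega)
  rw [Fr.wt_gr ha]
  congr 1
  rw [Nat.cast_sub he]
  ring

end low

section forms

variable {Z : Polarized 𝒱} {ι : Type} [Fintype ι] [DecidableEq ι] {P : ι → Polarized 𝒱} {n : ℕ}
  {c : Fin n → ι} {ρ : ∀ i, Γ →* (W.H (P i).X ≃ₐ[W.K] W.H (P i).X)}
  {τ : Γ →* (W.H Z.X ≃ₐ[W.K] W.H Z.X)} {g : ι → ℕ}
  {b : ∀ i, Module.Basis (Fin (g i) × Bool) W.K (transcendental W (P i).X)}

theorem Eqv.low (hcyc : Z.X.IsCyc 1 Z.D) {hρ : ∀ i, GA χ (P i).X (ρ i)} (hτ : GA χ Z.X τ)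
    {f : Module.End W.K (W.H Z.X)} (tf : Low W Z.X Z.D f)
    {Φ : MultilinearMap W.K (fun _ : Fin n => ∀ i, transcendental W (P i).X) (W.H Z.X)}
    (hE : Eqv (Z := Z) hρ τ Φ) : Eqv (Z := Z) hρ τ (f.compMultilinearMap Φ) := by
  obtain ⟨Δ, hΔ, h1⟩ := hE
  obtain ⟨Δ', hΔ', h2⟩ := hτ.cl_fix 1 (W.cl Z.X Z.D) ⟨Z.D, hcyc, rfl⟩
  refine ⟨Δ ⊓ Δ', inferInstance, fun γ hγ => ?_⟩
  obtain ⟨m, hm⟩ := h1 γ hγ.1
  refine ⟨m * (χ γ : W.K), fun v => ?_⟩
  have h3 := h2 γ hγ.2
  rw [pow_one] at h3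
  rw [LinearMap.compMultilinearMap_apply, LinearMap.compMultilinearMap_apply, hm, map_smul,
    low_act hτ tf h3, smul_smul]

theorem Eqv.low_pow (hcyc : Z.X.IsCyc 1 Z.D) {hρ : ∀ i, GA χ (P i).X (ρ i)} (hτ : GA χ Z.X τ)
    {f : Module.End W.K (W.H Z.X)} (tf : Low W Z.X Z.D f)
    {Φ : MultilinearMap W.K (fun _ : Fin n => ∀ i, transcendental W (P i).X) (W.H Z.X)}
    (hE : Eqv (Z := Z) hρ τ Φ) (m : ℕ) : Eqv (Z := Z) hρ τ ((f ^ m).compMultilinearMap Φ) := by
  induction m with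
  | zero =>
    have : ((f ^ 0).compMultilinearMap Φ) = Φ := by
      ext v
      rfl
    rw [this]
    exact hE
  | succ m ih =>
    have : ((f ^ (m + 1)).compMultilinearMap Φ) =
        f.compMultilinearMap ((f ^ m).compMultilinearMap Φ) := by
      apply MultilinearMap.ext
      intro v
      rw [LinearMap.compMultilinearMap_apply, pow_succ']
      rfl
    rw [this]
    exact ih.low hcyc hτ tf

/-- **Equivariant maps to the lower half of the cohomology.** -/
theorem Setting.eqv_zero_low (S : Setting W Z P) (H : ActP χ P ρ)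
    (hb : ∀ i x y, bf W P i (b i x) (b i y) = sf W.K x y) (hτ : GA χ Z.X τ) (hn : 0 < n)
    {f : Module.End W.K (W.H Z.X)} (tf : Low W Z.X Z.D f) (e : ℕ) : e ≤ Z.X.dim →
    ∀ {Φ : MultilinearMap W.K (fun _ : Fin n => ∀ i, transcendental W (P i).X) (W.H Z.X)},
    Eqv (Z := Z) H.ga τ Φ → TL b c Φ → (∀ v, Φ v ∈ W.gr Z.X e) →
    (∀ e' ≤ e, Even (e + e') → primRank W Z.X Z.D e' <
      ∏ i, ((univ.filter fun s => c s = i).card + 1)) → Φ = 0 := by
  induction e using Nat.strong_induction_on with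
  | _ e ih =>
    intro he Φ hE hT hgr hsm
    have h1 : ∀ v, f (Φ v) = 0 := by
      by_cases h2 : e < 2
      · exact fun v => (low_gr tf (hgr v)).2 h2
      · have h3 := ih (e - 2) (by omega) (by omega) (hE.low S.cycZ hτ tf) (hT.comp f)
          (fun v => (low_gr tf (hgr v)).1 (e - 2) (by omega)) (fun e' he' h4 =>
            hsm e' (by omega) (by
              have h5 : e + e' = (e - 2 + e') + 2 := by omega
              rw [h5]
              exact h4.add (by decide)))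
        exact fun v => congrArg (fun φ => φ v) h3
    refine S.map_zero_of_small H hb hE hT (U := primTrans W Z.X Z.D e) (fun v => ?_)
      (hsm e le_rfl (by exact ⟨e, rfl⟩))
    refine ⟨⟨hgr v, S.map_trans H hb hτ hE hT hn v⟩, LinearMap.mem_ker.2 ?_⟩
    have h2 := low_prim tf he (hgr v) (h1 v)
    rwa [LinearMap.pow_mulLeft] at h2

/-- **Equivariant maps.** -/
theorem Setting.eqv_zero (S : Setting W Z P) (H : ActP χ P ρ)
    (hb : ∀ i x y, bf W P i (b i x) (b i y) = sf W.K x y) (hτ : GA χ Z.X τ) (hn : 0 < n)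
    {e : ℕ} {Φ : MultilinearMap W.K (fun _ : Fin n => ∀ i, transcendental W (P i).X) (W.H Z.X)}
    (hE : Eqv (Z := Z) H.ga τ Φ) (hT : TL b c Φ) (hgr : ∀ v, Φ v ∈ W.gr Z.X e)
    (hsm : ∀ e' ≤ e, e' + e ≤ 2 * Z.X.dim → Even (e + e') → primRank W Z.X Z.D e' <
      ∏ i, ((univ.filter fun s => c s = i).card + 1)) : Φ = 0 := by
  obtain ⟨f, tf⟩ := TH132.A.exists_low S.cycZ S.hardZ
  by_cases h1 : e ≤ Z.X.dim
  · exact S.eqv_zero_low H hb hτ hn tf e h1 hE hT hgr fun e' he' => hsm e' he' (by omega)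
  by_cases h2 : e ≤ 2 * Z.X.dim
  · have h3 := S.eqv_zero_low H hb hτ hn tf (2 * Z.X.dim - e) (by omega)
      (hE.low_pow S.cycZ hτ tf (e - Z.X.dim)) (hT.comp (f ^ (e - Z.X.dim)))
      (fun v => low_pow_gr tf (e - Z.X.dim) (by omega) (hgr v)) (fun e' he' h4 =>
        hsm e' (by omega) (by omega) (by
          obtain ⟨q, hq⟩ := h4
          exact ⟨q + (e - Z.X.dim), by omega⟩))
    apply MultilinearMap.ext
    intro v
    refine low_inj tf (m := e - Z.X.dim) ?_ (congrArg (fun φ => φ v) h3)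
    rw [show Z.X.dim + (e - Z.X.dim) = e by omega]
    exact hgr v
  · apply MultilinearMap.ext
    intro v
    have h3 := hgr v
    rw [W.gr_eq_bot Z.X e (by omega)] at h3
    exact (Submodule.mem_bot _).1 h3

end forms

end Pool.Agent.H88.FL
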