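import Pool.Agent.H88.FL.Geo12

/-!
# The projection to the traceless classes
-/

open CategoryTheory AlgebraicGeometry Finset Function

set_option linter.unusedSectionVars false

universe u v w

namespace Pool.Agent.H88.FL

open Pool.Agent.H914 Pool.Agent.H914.VarClass Pool.Agent.H914.VarClass.Obj
  Pool.Agent.H914.WeilCohomology Pool.Agent.H281R3.HT Pool.Agent.W552 Pool.Agent.TH132.A
  Pool.Agent.TH125.Gal

variable {k : Type u} [Field k] {𝒱 : VarClass k} {ops : CycleOps 𝒱}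
  {W : WeilCohomology.{u, v} ops} {Z : Polarized 𝒱} {ι : Type} {P : ι → Polarized 𝒱} {n : ℕ}
  {c : Fin n → ι}

/-- The operator is a contraction. -/
def IsK (W : WeilCohomology.{u, v} ops) (Z : Polarized 𝒱) {ι : Type} (P : ι → Polarized 𝒱)
    {n : ℕ} (c : Fin n → ι) (T : Module.End W.K (W.H (VV ops Z n fun s => P (c s)))) : Prop :=
  ∃ (m : ℕ) (c' : Fin m → ι)
      (R : VV ops Z n (fun s => P (c s)) ⟶ VV ops Z m (fun s => P (c' s)))
      (θ : W.H (VV ops Z n fun s => P (c s))) (κ : ℚ) (l : ℕ), m < n ∧ AS W _ θ ∧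
      θ ∈ W.gr _ (2 * l) ∧ (VV ops Z n fun s => P (c s)).dim =
        (VV ops Z m fun s => P (c' s)).dim + 2 * l ∧
      (∀ F F', Low W (VV ops Z n fun s => P (c s)) (mixProd ops Z n fun s => P (c s)).D F →
        Low W (VV ops Z m fun s => P (c' s)) (mixProd ops Z m fun s => P (c' s)).D F' →
        Stable W _ F' → ∀ y, AS W _ y → Good W (LinearMap.mulLeft W.K (W.cl _
        (mixProd ops Z n fun s => P (c s)).D)) F (θ * W.map R y)) ∧
      (∀ {Γ : Type w} [Group Γ] {ρ : ∀ i, Γ →* (W.H (P i).X ≃ₐ[W.K] W.H (P i).X)}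
        {τ : Γ →* (W.H Z.X ≃ₐ[W.K] W.H Z.X)} {υ υ'}, Cmp c ρ τ υ → Cmp c' ρ τ υ' →
        TH125.Gal.Intertwines (W.map R) υ' υ) ∧
      ∀ h, T h = (κ : W.K) • (θ * W.map R (W.push R (θ * h)))

theorem IsK.good (S : Setting W Z P) {T : Module.End W.K (W.H (VV ops Z n fun s => P (c s)))}
    (hT : IsK.{u, v, w} W Z P c T) {F : Module.End W.K (W.H (VV ops Z n fun s => P (c s)))}
    (tF : Low W (VV ops Z n fun s => P (c s)) (mixProd ops Z n fun s => P (c s)).D F)
    (ih : ∀ m < n, ∀ c' : Fin m → ι, LA W Z P c') {h : W.H (VV ops Z n fun s => P (c s))}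
    (hh : AS W _ h) : Good W (LL W Z P c) F (T h) := by
  obtain ⟨m, c', R, θ, κ, l, hm, hθ, -, -, hg, -, hTh⟩ := hT
  rw [hTh]
  obtain ⟨F', tF'⟩ := S.exists_low c'
  exact Good.smul _ (hg F F' tF tF' (S.stable (ih m hm c') tF') _ ((hθ.mul hh).push _))

theorem IsK.gr {T : Module.End W.K (W.H (VV ops Z n fun s => P (c s)))}
    (hT : IsK.{u, v, w} W Z P c T) {j : ℕ} {h : W.H (VV ops Z n fun s => P (c s))}
    (hh : h ∈ W.gr _ j) : T h ∈ W.gr _ j := by
  obtain ⟨m, c', R, θ, κ, l, hm, hθ, hθg, hdim, -, -, hTh⟩ := hT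
  rw [hTh]
  refine Submodule.smul_mem _ _ ?_
  have h2 := W.push_mem R (W.mul_mem hθg hh)
  have h3 : ((2 * l + j : ℕ) : ℤ) + 2 * (((VV ops Z m fun s => P (c' s)).dim : ℤ) -
      (VV ops Z n fun s => P (c s)).dim) = (j : ℤ) - 2 * l := by
    rw [hdim]
    push_cast
    ring
  rw [h3] at h2
  by_cases hj : 2 * l ≤ j
  · have h4 : ((j : ℤ) - 2 * l) = ((j - 2 * l : ℕ) : ℤ) := by
      push_cast [Nat.cast_sub hj]
      ring
    rw [h4, grZ_natCast] at h2
    have h5 := W.mul_mem hθg (W.map_mem R h2)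
    rwa [show 2 * l + (j - 2 * l) = j by omega] at h5
  · rw [grZ_of_neg (by omega)] at h2
    rw [(Submodule.mem_bot _).1 h2, map_zero, mul_zero]
    exact Submodule.zero_mem _

section

variable [Fintype ι] [DecidableEq ι] {g : ι → ℕ}
  {b : ∀ i, Module.Basis (Fin (g i) × Bool) W.K (transcendental W (P i).X)}

/-- **The projection to the traceless classes.** -/
theorem Setting.exists_traceless (S : Setting W Z P)
    (hb : ∀ i x y, bf W P i (b i x) (b i y) = sf W.K x y)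
    (h1 : (1 : W.H (VV ops Z n fun s => P (c s))) ≠ 0) : ∃ (I : Type) (_ : Fintype I)
      (T : I → Module.End W.K (W.H (VV ops Z n fun s => P (c s)))) (r : Polynomial ℚ),
      (∀ i, IsK.{u, v, w} W Z P c (T i)) ∧ ∀ s t, s ≠ t → c s = c t → ∀ h,
        mv W.K (KK s t) (cd b c (h - pe r (∑ i, T i) ((∑ i, T i) h))) = 0 := by
  set κ := {p : Fin n × Fin n // p.1 ≠ p.2 ∧ c p.1 = c p.2} with hκ
  have h2 : ∀ p : κ, ∃ T : Module.End W.K (W.H (VV ops Z n fun s => P (c s))),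
      IsK.{u, v, w} W Z P c T ∧ ∀ h, cd b c (T h) = mv W.K (KK p.1.1 p.1.2) (cd b c h) := by
    intro p
    obtain ⟨m, c', R, θ, κ, l, h3, h4, h5, h6, h7, h8, h9⟩ :=
      S.exists_kdata hb c h1 p.2.1 p.2.2
    refine ⟨(κ : W.K) • (LinearMap.mulLeft W.K θ ∘ₗ (W.map R).toLinearMap ∘ₗ W.push R ∘ₗ
      LinearMap.mulLeft W.K θ), ⟨m, c', R, θ, κ, l, h3, h4, h5, h6, h7, h8, fun h => rfl⟩, h9⟩
  choose T hT1 hT2 using h2
  obtain ⟨r, hr⟩ := exists_poly (univ : Finset κ)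
    (fun p => (KK p.1.1 p.1.2 : Matrix (Fin n → J g) (Fin n → J g) ℚ))
    (fun p _ => KK_symm p.2.1) (fun p _ => KK_idem p.2.1)
  refine ⟨κ, inferInstance, T, r, hT1, fun s t hst hct h => ?_⟩
  set A : Module.End W.K (W.H (VV ops Z n fun s => P (c s))) := ∑ p, T p with hAdef
  set M : Matrix (Fin n → J g) (Fin n → J g) ℚ := ∑ p : κ, KK p.1.1 p.1.2 with hMdef
  have hA : ∀ x, cd b c (A x) = mv W.K M (cd b c x) := by
    intro x
    rw [hAdef, hMdef, LinearMap.sum_apply, map_sum, mv_sum]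
    exact Finset.sum_congr rfl fun p _ => hT2 p x
  have hcd : cd b c (h - pe r A (A h)) = mv W.K (1 - Polynomial.aeval M r * M) (cd b c h) := by
    rw [map_sub, pe_coord (cd b c) hA, hA, mv_sub, mv_one, mv_mul]
  rw [hcd, ← mv_mul, hr ⟨(s, t), hst, hct⟩ (Finset.mem_univ _), mv_zero]

theorem TL_FF {h : W.H (VV ops Z n fun s => P (c s))}
    (htr : ∀ s t, s ≠ t → c s = c t → mv W.K (KK s t) (cd b c h) = 0) : TL b c (FF c h) where
  supp r hr := cd_supp b c h hr
  tr i s t hst r := by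
    change ∑ a, cd b c h (update (update r s (pl i a)) t (mi i a)) =
      ∑ a, cd b c h (update (update r s (mi i a)) t (pl i a))
    by_cases h1 : c s = i
    · by_cases h2 : c t = i
      · exact contr_zero hst (htr s t hst (h1.trans h2.symm)) i r
      · rw [Finset.sum_eq_zero, Finset.sum_eq_zero]
        · intro a _
          exact cd_supp b c h ⟨t, by rw [update_self]; exact fun h => h2 h.symm⟩
        · intro a _
          exact cd_supp b c h ⟨t, by rw [update_self]; exact fun h => h2 h.symm⟩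
    · rw [Finset.sum_eq_zero, Finset.sum_eq_zero]
      · intro a _
        exact cd_supp b c h ⟨s, by
          rw [update_of_ne hst, update_self]; exact fun h => h1 h.symm⟩
      · intro a _
        exact cd_supp b c h ⟨s, by
          rw [update_of_ne hst, update_self]; exact fun h => h1 h.symm⟩

variable {Γ : Type w} [Group Γ] {χ : Γ →* W.Kˣ}
  {ρ : ∀ i, Γ →* (W.H (P i).X ≃ₐ[W.K] W.H (P i).X)} {τ : Γ →* (W.H Z.X ≃ₐ[W.K] W.H Z.X)}
  {υ : Γ →* (W.H (VV ops Z n fun s => P (c s)) ≃ₐ[W.K] W.H (VV ops Z n fun s => P (c s)))}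

/-- **Traceless classes with few forms.** -/
theorem Setting.FF_vanish (S : Setting W Z P) (H : ActP χ P ρ)
    (hb : ∀ i x y, bf W P i (b i x) (b i y) = sf W.K x y) (hτ : GA χ Z.X τ) (hn : 0 < n)
    (hυ : Cmp c ρ τ υ) (hGA : GA χ _ υ) {j : ℕ} {h : W.H (VV ops Z n fun s => P (c s))}
    (hh : h ∈ W.gr _ (2 * j)) (hfix : ∃ Δ : Subgroup Γ, Δ.FiniteIndex ∧
      ∀ γ ∈ Δ, υ γ h = (χ γ : W.K) ^ j • h)
    (htr : ∀ s t, s ≠ t → c s = c t → mv W.K (KK s t) (cd b c h) = 0)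
    (hsm : ∀ e, 2 * j = e + ∑ s, (P (c s)).X.dim → ∀ e' ≤ e, e' + e ≤ 2 * Z.X.dim →
      Even (e + e') → primRank W Z.X Z.D e' <
        ∏ i, ((univ.filter fun s => c s = i).card + 1))
    (v : Fin n → ∀ i, transcendental W (P i).X) : FF c h v = 0 := by
  by_cases hj : ∑ s, (P (c s)).X.dim ≤ 2 * j
  · obtain ⟨e, he⟩ := Nat.exists_eq_add_of_le' hj
    have hmem : ∀ v, FF c h v ∈ W.gr Z.X e := by
      intro v
      have h1 := S.FF_mem c hh v
      have h2 : ((2 * j : ℕ) : ℤ) - (∑ s, (P (c s)).X.dim : ℕ) = (e : ℤ) := by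
        rw [he]
        push_cast
        ring
      rwa [h2, grZ_natCast] at h1
    have hE : Eqv (Z := Z) H.ga τ (FF c h) := by
      obtain ⟨Δ, hΔ, h1⟩ := hfix
      exact ⟨Δ, hΔ, fun γ hγ =>
        FF_act H.ga hυ hGA hτ (pow_ne_zero j (Units.ne_zero (χ γ))) (h1 γ hγ)⟩
    have h1 := S.eqv_zero H hb hτ hn hE (TL_FF htr) hmem (hsm e he)
    rw [h1]
    rfl
  · have h1 := S.FF_mem c hh v
    rw [grZ_of_neg (by omega)] at h1
    exact (Submodule.mem_bot _).1 h1

end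

end Pool.Agent.H88.FL
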