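import Pool.Agent.H88.L.TH132.A.Low

/-!
# Uniqueness of the lowering operator, and signs of permutations of products
-/

open CategoryTheory AlgebraicGeometry Finset

set_option linter.unusedSectionVars false

universe u v w

namespace Pool.Agent.H88.FL

open Pool.Agent.H914

section uniq

variable {K : Type u} [Field K] [CharZero K] {V : Type v} [AddCommGroup V] [Module K V]

/-- the commutator with an operator -/
noncomputable def ad (x : Module.End K V) : Module.End K (Module.End K V) :=
  LinearMap.mulLeft K x - LinearMap.mulRight K x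

theorem ad_apply (x y : Module.End K V) : ad x y = x * y - y * x := rfl

theorem two_end {U : Type*} [AddCommGroup U] [Module K U] (x : U) :
    (2 : Module.End K U) x = x + x := by
  rw [← one_add_one_eq_two, LinearMap.add_apply, Module.End.one_apply]

theorem ad_sl2 {h e f : Module.End K V} (t : Sl2 h e f) : Sl2 (ad h) (ad e) (ad f) where
  ef := by
    apply LinearMap.ext
    intro x
    rw [LinearMap.sub_apply, Module.End.mul_apply, Module.End.mul_apply, ad_apply, ad_apply,
      ad_apply, ad_apply, ad_apply, ← t.ef]
    noncomm_ring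
  he := by
    apply LinearMap.ext
    intro x
    have h1 := t.he
    rw [two_mul] at h1
    rw [LinearMap.sub_apply, Module.End.mul_apply, Module.End.mul_apply, Module.End.mul_apply,
      two_end, ad_apply, ad_apply, ad_apply, ad_apply]
    have h2 : h * (e * x - x * e) - (e * x - x * e) * h - (e * (h * x - x * h) -
        (h * x - x * h) * e) = (h * e - e * h) * x - x * (h * e - e * h) := by noncomm_ring
    rw [h2, h1]
    noncomm_ring
  hf := by
    apply LinearMap.ext
    intro x
    have h1 := t.hf
    rw [two_mul] at h1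
    rw [LinearMap.sub_apply, Module.End.mul_apply, Module.End.mul_apply, LinearMap.neg_apply,
      Module.End.mul_apply, two_end, ad_apply, ad_apply, ad_apply, ad_apply]
    have h2 : h * (f * x - x * f) - (f * x - x * f) * h - (f * (h * x - x * h) -
        (h * x - x * h) * f) = (h * f - f * h) * x - x * (h * f - f * h) := by noncomm_ring
    rw [h2, h1]
    noncomm_ring

/-- **The lowering operator is unique.** -/
theorem sl2_unique [Module.Finite K V] {h e f f' : Module.End K V} (t : Sl2 h e f)
    (t' : Sl2 h e f') : f = f' := by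
  have h1 : ad e (f - f') = 0 := by
    rw [ad_apply]
    have h2 : e * (f - f') - (f - f') * e = (e * f - f * e) - (e * f' - f' * e) := by
      noncomm_ring
    rw [h2, t.ef, t'.ef, sub_self]
  have h2 : ad h (f - f') = -((2 : ℕ) : K) • (f - f') := by
    rw [ad_apply]
    have h3 : h * (f - f') - (f - f') * h = (h * f - f * h) - (h * f' - f' * h) := by
      noncomm_ring
    rw [h3, t.hf, t'.hf, neg_smul, Nat.cast_smul_eq_nsmul]
    noncomm_ring
  have h3 : (ad e ^ (2 + 1)) (f - f') = 0 := by
    rw [pow_succ, Module.End.mul_apply, h1, map_zero]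
  have h4 := Sl2.f_eq_zero (ad_sl2 t) h2 h3
  have h5 := congrArg (fun G => G (f - f')) (ad_sl2 t).ef
  simp only [LinearMap.sub_apply, Module.End.mul_apply] at h5
  rw [h4, h1, map_zero, map_zero, sub_zero, h2] at h5
  have h6 : ((2 : ℕ) : K) ≠ 0 := by norm_num
  have h7 := (smul_eq_zero.1 h5.symm).resolve_left (neg_ne_zero.2 h6)
  exact sub_eq_zero.1 h7

end uniq

section perm

/-- **Rearranging a product of elements which commute up to signs.** -/
theorem perm_sign {I : Type} (ε : I → I → ℤˣ) {l l' : List I} (h : l.Perm l') : l.Nodup →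
    ∃ σ : ℤˣ, ∀ {A : Type v} [Ring A] (y : I → A),
      (∀ s t, s ≠ t → y s * y t = (ε s t : ℤ) • (y t * y s)) →
        (l.map y).prod = (σ : ℤ) • (l'.map y).prod := by
  induction h with
  | nil => intro _; exact ⟨1, fun y _ => by simp⟩
  | cons x _ ih =>
    intro hl
    obtain ⟨σ, hσ⟩ := ih (List.nodup_cons.1 hl).2
    refine ⟨σ, fun y hy => ?_⟩
    rw [List.map_cons, List.prod_cons, hσ y hy, List.map_cons, List.prod_cons, mul_smul_comm]
  | swap x y l =>
    intro hl
    have hxy : y ≠ x := by
      rintro rfl
      simp at hl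
    refine ⟨ε y x, fun z hz => ?_⟩
    rw [List.map_cons, List.map_cons, List.map_cons, List.map_cons, List.prod_cons,
      List.prod_cons, List.prod_cons, List.prod_cons, ← mul_assoc, hz y x hxy, smul_mul_assoc,
      mul_assoc]
  | trans h1 _ ih1 ih2 =>
    intro hl
    obtain ⟨σ, hσ⟩ := ih1 hl
    obtain ⟨τ, hτ⟩ := ih2 (h1.nodup_iff.1 hl)
    refine ⟨σ * τ, fun y hy => ?_⟩
    rw [hσ y hy, hτ y hy, smul_smul, Units.val_mul]

end perm

end Pool.Agent.H88.FL
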