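import Pool.Agent.H88.FL.Geo1
import Pool.Agent.H88.FL.Uniq

/-!
# Products of a variety with a sequence of varieties: the lowering operator
-/

open CategoryTheory AlgebraicGeometry Finset

set_option linter.unusedSectionVars false

universe u v w

namespace Pool.Agent.H88.FL

open Pool.Agent.H914 Pool.Agent.H914.VarClass Pool.Agent.H914.VarClass.Obj
  Pool.Agent.H914.WeilCohomology Pool.Agent.H281R3.HT Pool.Agent.W552 Pool.Agent.TH132.A

variable {k : Type u} [Field k] {𝒱 : VarClass k} {ops : CycleOps 𝒱}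
  {W : WeilCohomology.{u, v} ops} {Z : Polarized 𝒱}

theorem dim_VV {n : ℕ} : ∀ {Q : Fin n → Polarized 𝒱},
    (VV ops Z n Q).dim = ∑ s, (Q s).X.dim + Z.X.dim := by
  induction n with
  | zero =>
    intro Q
    rw [Fin.sum_univ_zero, zero_add]
    rfl
  | succ n ih =>
    intro Q
    rw [Fin.sum_univ_succ, add_assoc, ← ih (Q := fun t => Q t.succ)]
    rfl

theorem dim_VV_succ {n : ℕ} {Q : Fin (n + 1) → Polarized 𝒱} (s : Fin (n + 1)) :
    (VV ops Z (n + 1) Q).dim = (Q s).X.dim + (VV ops Z n fun t => Q (s.succAbove t)).dim := by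
  rw [dim_VV, dim_VV, Fin.sum_univ_succAbove _ s, add_assoc]

theorem isCyc_D {n : ℕ} (hZ : Z.X.IsCyc 1 Z.D) : ∀ {Q : Fin n → Polarized 𝒱}
    (_ : ∀ s, (Q s).X.IsCyc 1 (Q s).D), (VV ops Z n Q).IsCyc 1 (mixProd ops Z n Q).D := by
  induction n with
  | zero => intro Q _; exact hZ
  | succ n ih =>
    intro Q hQ
    exact SmVar.IsCyc.add (ops.pull_mem _ (hQ 0)) (ops.pull_mem _ (ih fun s => hQ s.succ))

theorem cl_D {n : ℕ} : ∀ {Q : Fin n → Polarized 𝒱},
    W.cl (VV ops Z n Q) (mixProd ops Z n Q).D =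
      ∑ s, pi' W Z s (W.cl (Q s).X (Q s).D) + W.map (pz ops Z n Q) (W.cl Z.X Z.D) := by
  induction n with
  | zero =>
    intro Q
    rw [Fin.sum_univ_zero, zero_add]
    exact (pz_zero (Q := Q) _).symm
  | succ n ih =>
    intro Q
    change W.cl ((Q 0).X.prod (VV ops Z n fun t => Q t.succ)) (ops.pull (fst _ _) (Q 0).D +
      ops.pull (snd _ _) (mixProd ops Z n fun t => Q t.succ).D) = _
    rw [map_add, W.cl_pull, W.cl_pull, ih, Fin.sum_univ_succ, map_add, map_sum, ← add_assoc]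
    refine congrArg₂ (· + ·) (congrArg₂ (· + ·) rfl ?_) (pz_succ _).symm
    exact Finset.sum_congr rfl fun s _ => (pi_succ s _).symm

theorem rem_D {n : ℕ} {Q : Fin (n + 1) → Polarized 𝒱} (s : Fin (n + 1)) :
    W.cl (VV ops Z (n + 1) Q) (mixProd ops Z (n + 1) Q).D = pi' W Z s (W.cl (Q s).X (Q s).D) +
      W.map (rem ops Z Q s) (W.cl (VV ops Z n fun t => Q (s.succAbove t))
        (mixProd ops Z n fun t => Q (s.succAbove t)).D) := by
  rw [cl_D, cl_D, map_add, map_sum, rem_pz, Fin.sum_univ_succAbove _ s, ← add_assoc]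
  congr 2
  exact Finset.sum_congr rfl fun t _ => (rem_pi s t _).symm

theorem exists_low_VV {n : ℕ} {g : Module.End W.K (W.H Z.X)} (tg : Low W Z.X Z.D g)
    (hZ : Z.X.IsCyc 1 Z.D) : ∀ {Q : Fin n → Polarized 𝒱} (_ : ∀ s, (Q s).X.IsCyc 1 (Q s).D)
    (_ : ∀ s, ∃ f, Low W (Q s).X (Q s).D f),
    ∃ F, Low W (VV ops Z n Q) (mixProd ops Z n Q).D F := by
  induction n with
  | zero => intro Q _ _; exact ⟨g, tg⟩
  | succ n ih =>
    intro Q hQ hf
    obtain ⟨f, tf⟩ := hf 0
    obtain ⟨F, tF⟩ := ih (Q := fun t => Q t.succ) (fun s => hQ s.succ) (fun s => hf s.succ)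
    refine ⟨extSum W f F, ?_⟩
    have hE := isCyc_D (ops := ops) hZ (Q := fun t => Q t.succ) fun s => hQ s.succ
    change Sl2 (wt (W.isInternal ((Q 0).X.prod (VV ops Z n fun t => Q t.succ))) _)
      (LinearMap.mulLeft W.K (W.cl ((Q 0).X.prod (VV ops Z n fun t => Q t.succ))
        (ops.pull (fst _ _) (Q 0).D + ops.pull (snd _ _) (mixProd ops Z n fun t => Q t.succ).D)))
      (extSum W f F)
    rw [mulLeft_prod hE]
    have h1 := wt_prod (W := W) (Q 0).X (VV ops Z n fun t => Q t.succ)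
    change Sl2 (wt (W.isInternal ((Q 0).X.prod (VV ops Z n fun t => Q t.succ)))
      ((Q 0).X.prod (VV ops Z n fun t => Q t.succ)).dim) _ _
    rw [h1]
    exact sl2_prod tf tF

/-- the splitting of the cohomology -/
noncomputable def sp (W : WeilCohomology.{u, v} ops) (Z : Polarized 𝒱) {n : ℕ}
    (Q : Fin (n + 1) → Polarized 𝒱) (s : Fin (n + 1)) :
    W.H ((Q s).X.prod (VV ops Z n (fun t => Q (s.succAbove t)))) ≃ₐ[W.K]
      W.H (VV ops Z (n + 1) Q) :=
  AlgEquiv.ofBijective (W.map (spl ops Z Q s)) (spl_bij Q s)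

theorem sp_apply {n : ℕ} {Q : Fin (n + 1) → Polarized 𝒱} (s : Fin (n + 1))
    (c : W.H ((Q s).X.prod (VV ops Z n (fun t => Q (s.succAbove t))))) :
    sp W Z Q s c = W.map (spl ops Z Q s) c := rfl

/-- conjugation -/
noncomputable def cj (W : WeilCohomology.{u, v} ops) (Z : Polarized 𝒱) {n : ℕ}
    (Q : Fin (n + 1) → Polarized 𝒱) (s : Fin (n + 1)) :
    Module.End W.K (W.H ((Q s).X.prod (VV ops Z n (fun t => Q (s.succAbove t))))) →+*
      Module.End W.K (W.H (VV ops Z (n + 1) Q)) where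
  toFun f := (sp W Z Q s).toLinearMap ∘ₗ f ∘ₗ (sp W Z Q s).symm.toLinearMap
  map_one' := by
    apply LinearMap.ext
    intro x
    exact (sp W Z Q s).apply_symm_apply x
  map_mul' f g := by
    apply LinearMap.ext
    intro x
    change sp W Z Q s (f (g _)) = sp W Z Q s (f ((sp W Z Q s).symm (sp W Z Q s (g _))))
    rw [(sp W Z Q s).symm_apply_apply]
  map_zero' := by
    apply LinearMap.ext
    intro x
    exact map_zero (sp W Z Q s)
  map_add' f g := by
    apply LinearMap.ext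
    intro x
    exact map_add (sp W Z Q s) _ _

theorem cj_apply {n : ℕ} {Q : Fin (n + 1) → Polarized 𝒱} (s : Fin (n + 1))
    (f : Module.End W.K (W.H ((Q s).X.prod (VV ops Z n (fun t => Q (s.succAbove t))))))
    (c : W.H ((Q s).X.prod (VV ops Z n (fun t => Q (s.succAbove t))))) :
    cj W Z Q s f (W.map (spl ops Z Q s) c) = W.map (spl ops Z Q s) (f c) := by
  change sp W Z Q s (f ((sp W Z Q s).symm (sp W Z Q s c))) = _
  rw [(sp W Z Q s).symm_apply_apply]
  rfl

theorem cj_mulLeft {n : ℕ} {Q : Fin (n + 1) → Polarized 𝒱} (s : Fin (n + 1))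
    (c : W.H ((Q s).X.prod (VV ops Z n (fun t => Q (s.succAbove t))))) :
    cj W Z Q s (LinearMap.mulLeft W.K c) = LinearMap.mulLeft W.K (W.map (spl ops Z Q s) c) := by
  apply LinearMap.ext
  intro x
  obtain ⟨y, rfl⟩ := (spl_bij Q s).2 x
  rw [cj_apply, LinearMap.mulLeft_apply, LinearMap.mulLeft_apply, map_mul]

theorem cj_wt {n : ℕ} {Q : Fin (n + 1) → Polarized 𝒱} (s : Fin (n + 1)) :
    cj W Z Q s (wt (W.isInternal ((Q s).X.prod (VV ops Z n (fun t => Q (s.succAbove t)))))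
      ((Q s).X.prod (VV ops Z n (fun t => Q (s.succAbove t)))).dim) =
        wt (W.isInternal (VV ops Z (n + 1) Q)) (VV ops Z (n + 1) Q).dim := by
  apply LinearMap.ext
  intro x
  obtain ⟨y, rfl⟩ := (spl_bij Q s).2 x
  rw [cj_apply]
  refine gr_induction (W.isInternal _) (p := fun y => W.map (spl ops Z Q s)
    (wt (W.isInternal ((Q s).X.prod (VV ops Z n (fun t => Q (s.succAbove t)))))
      ((Q s).X.prod (VV ops Z n (fun t => Q (s.succAbove t)))).dim y) =
        wt (W.isInternal (VV ops Z (n + 1) Q)) (VV ops Z (n + 1) Q).dim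
          (W.map (spl ops Z Q s) y)) ?_ ?_ y
  · intro i a ha
    rw [wt, wt, scal_apply _ _ ha, scal_apply _ _ (W.map_mem _ ha), map_smul, dim_VV_succ s,
      dim_prod]
  · intro a b ha hb
    rw [map_add, map_add, map_add, map_add, ha, hb]

/-- **The lowering operator on the product.** -/
theorem low_apply {n : ℕ} {Q : Fin (n + 1) → Polarized 𝒱} (s : Fin (n + 1))
    {F : Module.End W.K (W.H (VV ops Z (n + 1) Q))}
    (tF : Low W (VV ops Z (n + 1) Q) (mixProd ops Z (n + 1) Q).D F)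
    {f : Module.End W.K (W.H (Q s).X)} (tf : Low W (Q s).X (Q s).D f)
    {F' : Module.End W.K (W.H (VV ops Z n fun t => Q (s.succAbove t)))}
    (tF' : Low W (VV ops Z n fun t => Q (s.succAbove t))
      (mixProd ops Z n fun t => Q (s.succAbove t)).D F')
    (hE : (VV ops Z n fun t => Q (s.succAbove t)).IsCyc 1
      (mixProd ops Z n fun t => Q (s.succAbove t)).D)
    (x : W.H (Q s).X) (y : W.H (VV ops Z n fun t => Q (s.succAbove t))) :
    F (pi' W Z s x * W.map (rem ops Z Q s) y) = pi' W Z s (f x) * W.map (rem ops Z Q s) y +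
      pi' W Z s x * W.map (rem ops Z Q s) (F' y) := by
  have h1 : Low W (VV ops Z (n + 1) Q) (mixProd ops Z (n + 1) Q).D
      (cj W Z Q s (extSum W f F')) := by
    have h2 := (sl2_prod tf tF').map (cj W Z Q s)
    rw [← mulLeft_prod hE, ← wt_prod, cj_wt, cj_mulLeft] at h2
    rw [Low, rem_D s]
    convert h2 using 3
    have e1 : spl ops Z Q s ≫ fst _ _ = pj ops Z (n + 1) Q s := Obj.lift_fst _ _
    have e2 : spl ops Z Q s ≫ snd _ _ = rem ops Z Q s := Obj.lift_snd _ _
    rw [map_add, W.cl_pull, W.cl_pull, map_add, ← W.map_comp, ← W.map_comp, e1, e2]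
    rfl
  rw [sl2_unique tF h1, ← spl_tmul, cj_apply, extSum_tmul, map_add, spl_tmul, spl_tmul]

end Pool.Agent.H88.FL
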