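import Pool.Agent.H88.FL.Geo2
import Pool.Agent.H88.FL.Alg

/-!
# Products of a variety with a sequence of varieties: the algebraic parts of the slots
-/

open CategoryTheory AlgebraicGeometry Finset

set_option linter.unusedSectionVars false

universe u v w

namespace Pool.Agent.H88.FL

open Pool.Agent.H914 Pool.Agent.H914.VarClass Pool.Agent.H914.VarClass.Obj
  Pool.Agent.H914.WeilCohomology Pool.Agent.H281R3.HT Pool.Agent.W552 Pool.Agent.TH132.A

variable {k : Type u} [Field k] {𝒱 : VarClass k} {ops : CycleOps 𝒱}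
  {W : WeilCohomology.{u, v} ops} {Z : Polarized 𝒱}

theorem cyc_zero {X : 𝒱.Obj} {z : X.Cycles} (hz : X.IsCyc 0 z) :
    ∃ q : ℚ, z = q • X.V.fundCycle := by
  classical
  refine ⟨X.V.coeff z (genericPoint X.V.X), ?_⟩
  have key : ∀ x, x ≠ genericPoint X.V.X → X.V.coeff z x = 0 := by
    intro x hx
    by_contra h0
    have h1 := hz x h0
    rw [Nat.cast_zero, Order.coheight_eq_zero] at h1
    apply hx
    have h2 : x ≤ genericPoint X.V.X := genericPoint_specializes x
    have h3 : genericPoint X.V.X ≤ x := h1 h2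
    exact (Specializes.antisymm h3 h2).eq
  refine Finsupp.ext (α := X.V.X) (M := ℚ) fun x => ?_
  have h4 : X.V.coeff (X.V.coeff z (genericPoint X.V.X) • X.V.fundCycle) x =
      X.V.coeff z (genericPoint X.V.X) * X.V.coeff X.V.fundCycle x :=
    Finsupp.smul_apply (M := ℚ) (α := X.V.X) _ _ x
  change X.V.coeff z x = X.V.coeff (X.V.coeff z (genericPoint X.V.X) • X.V.fundCycle) x
  rw [h4]
  by_cases hx : x = genericPoint X.V.X
  · subst hx
    rw [show X.V.coeff X.V.fundCycle (genericPoint X.V.X) = 1 from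
      Finsupp.single_eq_same (M := ℚ) (α := X.V.X), mul_one]
  · rw [key x hx, show X.V.coeff X.V.fundCycle x = 0 from
      Finsupp.single_eq_of_ne (M := ℚ) (α := X.V.X) hx, mul_zero]

/-- **The direct image under the removal of a factor.** -/
theorem exists_rem_push {n : ℕ} {Q : Fin (n + 1) → Polarized 𝒱} (s : Fin (n + 1))
    (h1 : (1 : W.H (VV ops Z (n + 1) Q)) ≠ 0) : ∃ t : ℚ, t ≠ 0 ∧ ∀ x,
      W.push (rem ops Z Q s) (pi' W Z s x) = ((t : W.K) * W.tr (Q s).X x) • 1 := by
  have h2 : W.push (spl ops Z Q s) 1 ∈ algClasses W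
      ((Q s).X.prod (VV ops Z n (fun t => Q (s.succAbove t)))) 0 := by
    refine alg_push (W := W) _ (i := 0) alg_one ?_
    rw [dim_VV_succ s, dim_prod]
  obtain ⟨z, hz, hz'⟩ := h2
  obtain ⟨q, rfl⟩ := cyc_zero hz
  rw [W.cl_smul, W.cl_fund] at hz'
  have h3 : ∀ b, W.push (spl ops Z Q s) (W.map (spl ops Z Q s) b) = (q : W.K) • b := by
    intro b
    have h4 := W.push_mul (spl ops Z Q s) 1 b
    rw [one_mul] at h4
    rw [h4, ← hz', smul_mul_assoc, one_mul]
  refine ⟨q, ?_, ?_⟩
  · rintro rfl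
    apply h1
    apply W.nondeg
    intro b
    rw [one_mul]
    obtain ⟨c, rfl⟩ := (spl_bij Q s).2 b
    have h4 := W.tr_push (spl ops Z Q s) (W.map (spl ops Z Q s) c) 1
    rw [h3, Rat.cast_zero, zero_smul, zero_mul, map_zero, map_one, mul_one] at h4
    exact h4.symm
  · intro x
    have e1 : spl ops Z Q s ≫ fst _ _ = pj ops Z (n + 1) Q s := Obj.lift_fst _ _
    have e2 : spl ops Z Q s ≫ snd _ _ = rem ops Z Q s := Obj.lift_snd _ _
    rw [pi', ← e1, ← e2, W.push_comp, W.map_comp, h3, map_smul, W.push_snd', smul_smul]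

section cut

variable {n : ℕ} {Q : Fin (n + 1) → Polarized 𝒱} {s : Fin (n + 1)} {t : ℚ}
  (ht : ∀ x, W.push (rem ops Z Q s) (pi' W Z s x) = ((t : W.K) * W.tr (Q s).X x) • 1)

include ht

theorem rem_push (x : W.H (Q s).X) (y : W.H (VV ops Z n fun t => Q (s.succAbove t))) :
    W.push (rem ops Z Q s) (pi' W Z s x * W.map (rem ops Z Q s) y) =
      ((t : W.K) * W.tr (Q s).X x) • y := by
  rw [W.push_mul, ht, smul_mul_assoc, one_mul]

theorem rem_push' (x : W.H (Q s).X) (y : W.H (VV ops Z n fun t => Q (s.succAbove t))) :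
    W.push (rem ops Z Q s) (W.map (rem ops Z Q s) y * pi' W Z s x) =
      ((t : W.K) * W.tr (Q s).X x) • y := by
  refine gr_induction (W.isInternal (Q s).X) (p := fun x =>
    W.push (rem ops Z Q s) (W.map (rem ops Z Q s) y * pi' W Z s x) =
      ((t : W.K) * W.tr (Q s).X x) • y) ?_ ?_ x
  · intro j x hx
    rcases Nat.even_or_odd' j with ⟨p, rfl | hp⟩
    · have h1 : pi' W Z s x ∈ W.gr (VV ops Z (n + 1) Q) (2 * p) := W.map_mem _ hx
      rw [← W.even_comm h1, rem_push ht]
    · have h2 : W.tr (Q s).X x = 0 := W.tr_eq_zero hx (by omega)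
      rw [h2, mul_zero, zero_smul]
      refine gr_induction (W.isInternal _) (p := fun y =>
        W.push (rem ops Z Q s) (W.map (rem ops Z Q s) y * pi' W Z s x) = 0) ?_ ?_ y
      · intro i y hy
        have h1 : pi' W Z s x ∈ W.gr (VV ops Z (n + 1) Q) j := W.map_mem _ hx
        rw [W.comm (W.map_mem _ hy) h1, map_smul, rem_push ht, h2, mul_zero, zero_smul, smul_zero]
      · intro a b ha hb
        rw [map_add, add_mul, map_add, ha, hb, add_zero]
  · intro a b ha hb
    have h1 : pi' W Z s (a + b) = pi' W Z s a + pi' W Z s b := map_add _ _ _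
    rw [h1, mul_add, map_add, ha, hb, map_add, mul_add, add_smul]

end cut

theorem pz_rem {n : ℕ} {Q : Fin (n + 1) → Polarized 𝒱} (s : Fin (n + 1)) :
    rem ops Z Q s ≫ pz ops Z n (fun t => Q (s.succAbove t)) = pz ops Z (n + 1) Q :=
  tup_pz _ _ _ _

/-- classes of odd degree -/
def OddC (W : WeilCohomology.{u, v} ops) {X : 𝒱.Obj} (x : W.H X) : Prop :=
  ∃ m, Odd m ∧ x ∈ W.gr X m

theorem pi_comm {n : ℕ} {Q : Fin n → Polarized 𝒱} {s : Fin n} {x : W.H (Q s).X}
    (hx : x ∈ algSpan W (Q s).X) (y : W.H (VV ops Z n Q)) :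
    pi' W Z s x * y = y * pi' W Z s x := by
  apply span_comm
  rw [algSpan] at hx
  induction hx using Submodule.span_induction with
  | mem c hc =>
    obtain ⟨j, hj⟩ := Set.mem_iUnion.1 hc
    exact AS_span ((AS.of hj).map _)
  | zero =>
    have : pi' W Z s (0 : W.H (Q s).X) = 0 := map_zero _
    rw [this]
    exact Submodule.zero_mem _
  | add a b _ _ ha hb =>
    have : pi' W Z s (a + b) = pi' W Z s a + pi' W Z s b := map_add _ _ _
    rw [this]
    exact Submodule.add_mem _ ha hb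
  | smul r a _ ha =>
    have : pi' W Z s (r • a) = r • pi' W Z s a := map_smul _ _ _
    rw [this]
    exact Submodule.smul_mem _ _ ha

theorem odd_anti {X : 𝒱.Obj} {x y : W.H X} (hx : OddC W x) (hy : OddC W y) :
    x * y = -(y * x) := by
  obtain ⟨i, hi, hx⟩ := hx
  obtain ⟨j, hj, hy⟩ := hy
  rw [W.comm hx hy, (hi.mul hj).neg_one_pow, neg_one_smul]

theorem pi_odd {n : ℕ} {Q : Fin n → Polarized 𝒱} {s : Fin n} {x : W.H (Q s).X}
    (hx : OddC W x) : OddC W (pi' W Z s x) := by
  obtain ⟨i, hi, hx⟩ := hx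
  exact ⟨i, hi, W.map_mem _ hx⟩

/-- the classes `x s` are of odd degree or algebraic -/
def Typ (W : WeilCohomology.{u, v} ops) {n : ℕ} {Q : Fin n → Polarized 𝒱} (b : Fin n → Bool)
    (x : ∀ s, W.H (Q s).X) : Prop :=
  ∀ s, (b s = true → OddC W (x s)) ∧ (b s = false → x s ∈ algSpan W (Q s).X)

theorem typ_anti {n : ℕ} {Q : Fin n → Polarized 𝒱} {b : Fin n → Bool} {x : ∀ s, W.H (Q s).X}
    (h : Typ W b x) (s t : Fin n) : pi' W Z s (x s) * pi' W Z t (x t) =
      ((if b s = true ∧ b t = true then -1 else 1 : ℤˣ) : ℤ) •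
        (pi' W Z t (x t) * pi' W Z s (x s)) := by
  by_cases hs : b s = true
  · by_cases ht : b t = true
    · rw [if_pos ⟨hs, ht⟩, odd_anti (pi_odd ((h s).1 hs)) (pi_odd ((h t).1 ht))]
      simp
    · rw [if_neg fun h => ht h.2, pi_comm ((h t).2 (by simpa using ht))]
      simp
  · rw [if_neg fun h => hs h.1, pi_comm ((h s).2 (by simpa using hs))]
    simp

theorem perm_cons (n : ℕ) (s : Fin (n + 1)) :
    (List.finRange (n + 1)).Perm (s :: (List.finRange n).map s.succAbove) := by
  rw [List.perm_ext_iff_of_nodup (List.nodup_finRange _)]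
  · intro a
    simp only [List.mem_finRange, List.mem_cons, List.mem_map, true_and, true_iff]
    rcases Fin.eq_self_or_eq_succAbove s a with rfl | ⟨b, rfl⟩
    · exact Or.inl rfl
    · exact Or.inr ⟨b, rfl⟩
  · rw [List.nodup_cons]
    refine ⟨?_, (List.nodup_finRange n).map Fin.succAbove_right_injective⟩
    simp only [List.mem_map, List.mem_finRange, true_and, not_exists]
    exact fun a => Fin.succAbove_ne s a

theorem perm_append (n : ℕ) (s : Fin (n + 1)) :
    (List.finRange (n + 1)).Perm ((List.finRange n).map s.succAbove ++ [s]) :=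
  (perm_cons n s).trans (List.perm_append_singleton _ _).symm

/-- **Moving a slot to the front.** -/
theorem lp_front {n : ℕ} {Q : Fin (n + 1) → Polarized 𝒱} (b : Fin (n + 1) → Bool)
    (s : Fin (n + 1)) : ∃ σ : ℤˣ, ∀ x : (∀ t, W.H (Q t).X), Typ W b x →
      lp W Z x = (σ : ℤ) • (pi' W Z s (x s) *
        W.map (rem ops Z Q s) (lp W Z fun t => x (s.succAbove t))) := by
  obtain ⟨σ, hσ⟩ := perm_sign.{v} (fun s t => if b s = true ∧ b t = true then -1 else 1)
    (perm_cons n s) (List.nodup_finRange _)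
  refine ⟨σ, fun x hx => ?_⟩
  rw [lp, hσ (fun s => pi' W Z s (x s)) fun s t _ => typ_anti hx s t, List.map_cons,
    List.prod_cons, rem_lp, List.map_map]
  rfl

/-- **Moving a slot to the end.** -/
theorem lp_back {n : ℕ} {Q : Fin (n + 1) → Polarized 𝒱} (b : Fin (n + 1) → Bool)
    (s : Fin (n + 1)) : ∃ σ : ℤˣ, ∀ x : (∀ t, W.H (Q t).X), Typ W b x →
      lp W Z x = (σ : ℤ) • (W.map (rem ops Z Q s) (lp W Z fun t => x (s.succAbove t)) *
        pi' W Z s (x s)) := by
  obtain ⟨σ, hσ⟩ := perm_sign.{v} (fun s t => if b s = true ∧ b t = true then -1 else 1)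
    (perm_append n s) (List.nodup_finRange _)
  refine ⟨σ, fun x hx => ?_⟩
  rw [lp, hσ (fun s => pi' W Z s (x s)) fun s t _ => typ_anti hx s t, List.map_append,
    List.prod_append, rem_lp, List.map_map, List.map_singleton, List.prod_singleton]
  rfl

/-- **The typed monomials span the cohomology.** -/
theorem mono_ext' {M : Type*} [AddCommGroup M] [Module W.K M] {n : ℕ} :
    ∀ {Q : Fin n → Polarized 𝒱} {P : ∀ s, Set (W.H (Q s).X)}
    (_ : ∀ s, Submodule.span W.K (P s) = ⊤) {F G : W.H (VV ops Z n Q) →ₗ[W.K] M},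
    (∀ (x : ∀ s, W.H (Q s).X) z, (∀ s, x s ∈ P s) →
      F (lp W Z x * W.map (pz ops Z n Q) z) = G (lp W Z x * W.map (pz ops Z n Q) z)) → F = G := by
  induction n with
  | zero =>
    intro Q P hP F G h
    exact mono_ext fun x z => h x z fun s => s.elim0
  | succ n ih =>
    intro Q P hP F G h
    apply ext_kunneth_lin
    intro a b
    have h0 : (F ∘ₗ LinearMap.mulRight W.K (W.map (snd (Q 0).X (VV ops Z n fun t => Q t.succ)) b) ∘ₗ
        (W.map (fst (Q 0).X (VV ops Z n fun t => Q t.succ))).toLinearMap) =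
      (G ∘ₗ LinearMap.mulRight W.K (W.map (snd (Q 0).X (VV ops Z n fun t => Q t.succ)) b) ∘ₗ
        (W.map (fst (Q 0).X (VV ops Z n fun t => Q t.succ))).toLinearMap) := by
      apply LinearMap.ext_on (hP 0)
      intro a ha
      have h1 := ih (Q := fun t => Q t.succ) (P := fun s => P s.succ) (fun s => hP s.succ)
        (F := F ∘ₗ LinearMap.mulLeft W.K (W.map (fst (Q 0).X (VV ops Z n fun t => Q t.succ)) a) ∘ₗ
          (W.map (snd (Q 0).X (VV ops Z n fun t => Q t.succ))).toLinearMap)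
        (G := G ∘ₗ LinearMap.mulLeft W.K (W.map (fst (Q 0).X (VV ops Z n fun t => Q t.succ)) a) ∘ₗ
          (W.map (snd (Q 0).X (VV ops Z n fun t => Q t.succ))).toLinearMap) (by
        intro x z hx
        have h2 := h (Fin.cons a x) z (fun s => Fin.cases ha (fun s => hx s) s)
        rw [mono_succ] at h2
        exact h2)
      exact congrArg (fun L => L b) h1
    exact congrArg (fun L => L a) h0

end Pool.Agent.H88.FL
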