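import Pool.Agent.H88.FL.Geo3

/-!
# The projectors to the algebraic parts of the slots
-/

open CategoryTheory AlgebraicGeometry Finset

set_option linter.unusedSectionVars false

universe u v w

namespace Pool.Agent.H88.FL

open Pool.Agent.H914 Pool.Agent.H914.VarClass Pool.Agent.H914.VarClass.Obj
  Pool.Agent.H914.WeilCohomology Pool.Agent.H281R3.HT Pool.Agent.W552 Pool.Agent.TH132.A

variable {k : Type u} [Field k] {𝒱 : VarClass k} {ops : CycleOps 𝒱}
  {W : WeilCohomology.{u, v} ops} {Z : Polarized 𝒱}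

section good

variable {X : 𝒱.Obj} {L F : Module.End W.K (W.H X)}

/-- All words in the operators map the class to sums of algebraic classes. -/
def Good (W : WeilCohomology.{u, v} ops) {X : 𝒱.Obj} (L F : Module.End W.K (W.H X))
    (x : W.H X) : Prop :=
  ∀ w : List Bool, AS W X ((w.map fun b => if b = true then L else F).prod x)

theorem Good.as {x : W.H X} (h : Good W L F x) : AS W X x := h []

theorem Good.add {x y : W.H X} (hx : Good W L F x) (hy : Good W L F y) : Good W L F (x + y) := by
  intro w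
  rw [map_add]
  exact (hx w).add (hy w)

theorem Good.zero : Good W L F (0 : W.H X) := by
  intro w
  rw [map_zero]
  exact AS.zero

theorem Good.smul (q : ℚ) {x : W.H X} (hx : Good W L F x) : Good W L F ((q : W.K) • x) := by
  intro w
  rw [map_smul]
  exact (hx w).smul q

theorem Good.ratSub : RatSub W.K (Good W L F) where
  zero := Good.zero
  add := Good.add
  smul q _ hx := Good.smul q hx

theorem Good.mL {x : W.H X} (hx : Good W L F x) : Good W L F (L x) := by
  intro w
  have h1 := hx (w ++ [true])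
  rw [List.map_append, List.prod_append, Module.End.mul_apply] at h1
  simpa using h1

theorem Good.mF {x : W.H X} (hx : Good W L F x) : Good W L F (F x) := by
  intro w
  have h1 := hx (w ++ [false])
  rw [List.map_append, List.prod_append, Module.End.mul_apply] at h1
  simpa using h1

theorem good_of_pred {M : W.H X → Prop} (hM : ∀ x, M x → AS W X x) (hL : ∀ x, M x → M (L x))
    (hF : ∀ x, M x → M (F x)) {x : W.H X} (hx : M x) : Good W L F x := by
  have h1 : ∀ w : List Bool, M ((w.map fun b => if b = true then L else F).prod x) := by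
    intro w
    induction w with
    | nil => exact hx
    | cons b w ih =>
      rw [List.map_cons, List.prod_cons, Module.End.mul_apply]
      cases b
      · exact hF _ ih
      · exact hL _ ih
  exact fun w => hM _ (h1 w)

end good

/-- the data for a slot -/
structure Slot (W : WeilCohomology.{u, v} ops) (Z : Polarized 𝒱) {n : ℕ}
    (Q : Fin (n + 1) → Polarized 𝒱) (s : Fin (n + 1)) where
  /-- the number of classes -/
  N : ℕ
  /-- the basis -/
  a : Fin N → W.H (Q s).X
  /-- the dual basis -/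
  b : Fin N → W.H (Q s).X
  dual : DualFam W (Q s).X a b
  hD : HomEqNum W (Q s).X
  /-- the constant -/
  t : ℚ
  ht0 : t ≠ 0
  ht : ∀ x, W.push (rem ops Z Q s) (pi' W Z s x) = ((t : W.K) * W.tr (Q s).X x) • 1

theorem exists_slot {n : ℕ} {Q : Fin (n + 1) → Polarized 𝒱} (s : Fin (n + 1))
    (h1 : (1 : W.H (VV ops Z (n + 1) Q)) ≠ 0) (hD : HomEqNum W (Q s).X) :
    Nonempty (Slot W Z Q s) := by
  obtain ⟨t, ht0, ht⟩ := exists_rem_push s h1
  obtain ⟨N, a, b, h⟩ := exists_dualFam hD
  exact ⟨⟨N, a, b, h, hD, t, ht0, ht⟩⟩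

namespace Slot

variable {n : ℕ} {Q : Fin (n + 1) → Polarized 𝒱} {s : Fin (n + 1)} (D : Slot W Z Q s)

/-- the projector -/
noncomputable def op : Module.End W.K (W.H (VV ops Z (n + 1) Q)) :=
  ((D.t⁻¹ : ℚ) : W.K) • ∑ i, LinearMap.mulLeft W.K (pi' W Z s (D.a i)) ∘ₗ
    (W.map (rem ops Z Q s)).toLinearMap ∘ₗ W.push (rem ops Z Q s) ∘ₗ
      LinearMap.mulLeft W.K (pi' W Z s (D.b i))

theorem op_apply (h : W.H (VV ops Z (n + 1) Q)) : D.op h = ((D.t⁻¹ : ℚ) : W.K) •
    ∑ i, pi' W Z s (D.a i) * W.map (rem ops Z Q s) (W.push (rem ops Z Q s)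
      (pi' W Z s (D.b i) * h)) := by
  rw [op, LinearMap.smul_apply, LinearMap.sum_apply]
  rfl

theorem tinv : ((D.t⁻¹ : ℚ) : W.K) * (D.t : W.K) = 1 := by
  rw [← Rat.cast_mul, inv_mul_cancel₀ D.ht0, Rat.cast_one]

theorem op_slot (x : W.H (Q s).X) (y : W.H (VV ops Z n fun t => Q (s.succAbove t))) :
    D.op (pi' W Z s x * W.map (rem ops Z Q s) y) =
      pi' W Z s (al W D.a D.b x) * W.map (rem ops Z Q s) y := by
  have h1 : ∀ i, W.push (rem ops Z Q s) (pi' W Z s (D.b i) *
      (pi' W Z s x * W.map (rem ops Z Q s) y)) =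
        ((D.t : W.K) * W.tr (Q s).X (D.b i * x)) • y := by
    intro i
    have h2 : pi' W Z s (D.b i) * pi' W Z s x = pi' W Z s (D.b i * x) := (map_mul _ _ _).symm
    rw [← mul_assoc, h2, rem_push D.ht]
  have h3 : pi' W Z s (al W D.a D.b x) = ∑ i, W.tr (Q s).X (D.b i * x) • pi' W Z s (D.a i) := by
    rw [al_apply, pi', map_sum]
    exact Finset.sum_congr rfl fun i _ => map_smul _ _ _
  rw [op_apply, h3, Finset.sum_mul, Finset.smul_sum]
  refine Finset.sum_congr rfl fun i _ => ?_
  rw [h1, map_smul, mul_smul_comm, smul_smul, ← mul_assoc, D.tinv, one_mul, smul_mul_assoc]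

theorem op_AS {h : W.H (VV ops Z (n + 1) Q)} (hh : AS W _ h) : AS W _ (D.op h) := by
  rw [op_apply]
  exact (AS.ratSub.sum _ fun i _ => ((D.dual.ha i).map _).mul
    (((((D.dual.hb i).map _).mul hh).push _).map _)).smul _

theorem op_typ {b : Fin (n + 1) → Bool} {x : ∀ t, W.H (Q t).X} (hx : Typ W b x)
    (hx' : b s = true → x s ∈ transcendental W (Q s).X) (z : W.H Z.X) :
    D.op (lp W Z x * W.map (pz ops Z (n + 1) Q) z) =
      if b s = true then 0 else lp W Z x * W.map (pz ops Z (n + 1) Q) z := by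
  obtain ⟨σ, hσ⟩ := lp_front (W := W) (Z := Z) (Q := Q) b s
  rw [hσ x hx, ← rem_pz s, smul_mul_assoc, mul_assoc, ← map_mul, map_zsmul, D.op_slot]
  by_cases hb : b s = true
  · rw [if_pos hb, D.dual.al_trans (hx' hb)]
    have : pi' W Z s (0 : W.H (Q s).X) = 0 := map_zero _
    rw [this, zero_mul, smul_zero]
  · rw [if_neg hb, D.dual.al_span ((hx s).2 (by simpa using hb))]

/-- the classes killed by the projector -/
theorem cut_zero {h : W.H (VV ops Z (n + 1) Q)} (hh : D.op h = 0) {x : W.H (Q s).X}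
    (hx : x ∈ algSpan W (Q s).X) : W.push (rem ops Z Q s) (pi' W Z s x * h) = 0 := by
  have key : ∀ j, W.push (rem ops Z Q s) (pi' W Z s (D.b j) * h) = 0 := by
    intro j
    have h1 := congrArg (fun y => W.push (rem ops Z Q s) (pi' W Z s (D.b j) * y)) hh
    simp only [op_apply, mul_zero, map_zero] at h1
    rw [mul_smul_comm, map_smul, Finset.mul_sum, map_sum, Finset.sum_eq_single j] at h1
    · have h2 : pi' W Z s (D.b j) * pi' W Z s (D.a j) = pi' W Z s (D.b j * D.a j) :=
        (map_mul _ _ _).symm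
      rw [← mul_assoc, h2, rem_push D.ht, (D.dual.hb j).comm, D.dual.dual, if_pos rfl, mul_one,
        smul_smul, D.tinv, one_smul] at h1
      exact h1
    · intro i _ hij
      have h2 : pi' W Z s (D.b j) * pi' W Z s (D.a i) = pi' W Z s (D.b j * D.a i) :=
        (map_mul _ _ _).symm
      rw [← mul_assoc, h2, rem_push D.ht, (D.dual.hb j).comm, D.dual.dual, if_neg hij, mul_zero,
        zero_smul]
    · intro h0
      exact absurd (Finset.mem_univ _) h0
  -- apply `al` on the other side
  have h2 : ∀ y, AS W (Q s).X y → W.push (rem ops Z Q s) (pi' W Z s y * h) = 0 := by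
    intro y hy
    have h3 : y = ∑ i, W.tr (Q s).X (D.a i * y) • D.b i := D.dual.expand_b D.hD hy
    rw [h3, pi', map_sum, Finset.sum_mul, map_sum]
    refine Finset.sum_eq_zero fun i _ => ?_
    rw [map_smul, smul_mul_assoc, map_smul]
    exact (congrArg _ (key i)).trans (smul_zero _)
  rw [algSpan] at hx
  induction hx using Submodule.span_induction with
  | mem c hc =>
    obtain ⟨j, hj⟩ := Set.mem_iUnion.1 hc
    exact h2 c (AS.of hj)
  | zero =>
    have : pi' W Z s (0 : W.H (Q s).X) = 0 := map_zero _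
    rw [this, zero_mul, map_zero]
  | add a b _ _ ha hb =>
    have : pi' W Z s (a + b) = pi' W Z s a + pi' W Z s b := map_add _ _ _
    rw [this, add_mul, map_add, ha, hb, add_zero]
  | smul r a _ ha =>
    have : pi' W Z s (r • a) = r • pi' W Z s a := map_smul _ _ _
    rw [this, smul_mul_assoc, map_smul, ha, smul_zero]

/-- **The image of the projector does not pair with transcendental classes.** -/
theorem push_op (h : W.H (VV ops Z (n + 1) Q)) {x : ∀ t, W.H (Q t).X}
    (hx : ∀ t, OddC W (x t)) (hx' : x s ∈ transcendental W (Q s).X) :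
    W.push (pz ops Z (n + 1) Q) (D.op h * lp W Z x) = 0 := by
  obtain ⟨σ, hσ⟩ := lp_back (W := W) (Z := Z) (Q := Q) (fun _ => true) s
  have h1 : Typ W (fun _ => true) x := fun t => ⟨fun _ => hx t, fun h => by simp at h⟩
  rw [hσ x h1, ← pz_rem s, W.push_comp, op_apply, smul_mul_assoc, Finset.sum_mul, map_smul,
    map_sum]
  have h2 : ∀ i, W.push (rem ops Z Q s) (pi' W Z s (D.a i) * W.map (rem ops Z Q s)
      (W.push (rem ops Z Q s) (pi' W Z s (D.b i) * h)) * ((σ : ℤ) • (W.map (rem ops Z Q s)
        (lp W Z fun t => x (s.succAbove t)) * pi' W Z s (x s)))) = 0 := by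
    intro i
    have h3 : pi' W Z s (D.a i) * pi' W Z s (x s) = pi' W Z s (D.a i * x s) :=
      (map_mul _ _ _).symm
    rw [mul_smul_comm, map_zsmul, pi_comm (AS_span (D.dual.ha i)), mul_assoc,
      ← mul_assoc (pi' W Z s (D.a i)), pi_comm (AS_span (D.dual.ha i)), mul_assoc, h3,
      ← mul_assoc, ← map_mul, rem_push' D.ht, trans_AS' hx' (D.dual.ha i), mul_zero, zero_smul,
      smul_zero]
  rw [Finset.sum_eq_zero fun i _ => h2 i, smul_zero, map_zero]

end Slot

end Pool.Agent.H88.FL
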