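import Pool.Agent.H88.FL.Geo4

/-!
# The projector to the totally transcendental part
-/

open CategoryTheory AlgebraicGeometry Finset

set_option linter.unusedSectionVars false

universe u v w

namespace Pool.Agent.H88.FL

open Pool.Agent.H914 Pool.Agent.H914.VarClass Pool.Agent.H914.VarClass.Obj
  Pool.Agent.H914.WeilCohomology Pool.Agent.H281R3.HT Pool.Agent.W552 Pool.Agent.TH132.A

variable {k : Type u} [Field k] {𝒱 : VarClass k} {ops : CycleOps 𝒱}
  {W : WeilCohomology.{u, v} ops} {Z : Polarized 𝒱}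

section total

variable {n : ℕ} {Q : Fin (n + 1) → Polarized 𝒱} (D : ∀ s, Slot W Z Q s)

/-- the product of the complementary projectors -/
noncomputable def ptt (l : List (Fin (n + 1))) : Module.End W.K (W.H (VV ops Z (n + 1) Q)) :=
  (l.map fun s => 1 - (D s).op).prod

theorem ptt_nil : ptt D [] = 1 := rfl

theorem ptt_cons (s : Fin (n + 1)) (l : List (Fin (n + 1))) (h : W.H (VV ops Z (n + 1) Q)) :
    ptt D (s :: l) h = ptt D l h - (D s).op (ptt D l h) := by
  rw [ptt, List.map_cons, List.prod_cons, Module.End.mul_apply, LinearMap.sub_apply,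
    Module.End.one_apply]
  rfl

theorem ptt_spec {M : W.H (VV ops Z (n + 1) Q) → Prop} (h0 : M 0)
    (hadd : ∀ x y, M x → M y → M (x + y)) (hop : ∀ s y, AS W _ y → M ((D s).op y))
    (l : List (Fin (n + 1))) {h : W.H (VV ops Z (n + 1) Q)} (hh : AS W _ h) :
    AS W _ (ptt D l h) ∧ M (h - ptt D l h) := by
  induction l with
  | nil =>
    rw [ptt_nil, Module.End.one_apply, sub_self]
    exact ⟨hh, h0⟩
  | cons s l ih =>
    rw [ptt_cons]
    refine ⟨AS.ratSub.sub ih.1 ((D s).op_AS ih.1), ?_⟩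
    have h1 : h - (ptt D l h - (D s).op (ptt D l h)) =
        (h - ptt D l h) + (D s).op (ptt D l h) := by abel
    rw [h1]
    exact hadd _ _ ih.2 (hop s _ ih.1)

theorem ptt_typ {b : Fin (n + 1) → Bool} {x : ∀ t, W.H (Q t).X} (hx : Typ W b x)
    (hx' : ∀ s, b s = true → x s ∈ transcendental W (Q s).X) (z : W.H Z.X)
    (l : List (Fin (n + 1))) : ptt D l (lp W Z x * W.map (pz ops Z (n + 1) Q) z) =
      if ∀ s ∈ l, b s = true then lp W Z x * W.map (pz ops Z (n + 1) Q) z else 0 := by
  induction l with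
  | nil => rw [ptt_nil, Module.End.one_apply, if_pos (by simp)]
  | cons s l ih =>
    rw [ptt_cons, ih]
    by_cases h1 : ∀ s ∈ l, b s = true
    · rw [if_pos h1, (D s).op_typ hx (hx' s)]
      by_cases h2 : b s = true
      · rw [if_pos h2, if_pos, sub_zero]
        intro t ht
        rcases List.mem_cons.1 ht with rfl | ht
        · exact h2
        · exact h1 t ht
      · rw [if_neg h2, if_neg, sub_self]
        exact fun h => h2 (h s (by simp))
    · rw [if_neg h1, if_neg, map_zero, sub_zero]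
      exact fun h => h1 fun t ht => h t (List.mem_cons_of_mem _ ht)

theorem ptt_push (l : List (Fin (n + 1))) (h : W.H (VV ops Z (n + 1) Q)) {x : ∀ t, W.H (Q t).X}
    (hx : ∀ t, OddC W (x t)) (hx' : ∀ s, x s ∈ transcendental W (Q s).X) :
    W.push (pz ops Z (n + 1) Q) (ptt D l h * lp W Z x) =
      W.push (pz ops Z (n + 1) Q) (h * lp W Z x) := by
  induction l with
  | nil => rw [ptt_nil, Module.End.one_apply]
  | cons s l ih => rw [ptt_cons, sub_mul, map_sub, ih, (D s).push_op _ hx (hx' s), sub_zero]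

/-- the typed classes -/
def typS (W : WeilCohomology.{u, v} ops) (X : 𝒱.Obj) : Set (W.H X) :=
  {x | x ∈ algSpan W X ∨ x ∈ transcendental W X}

theorem typS_span {X : 𝒱.Obj} {N : ℕ} {a b : Fin N → W.H X} (h : DualFam W X a b)
    (hD : HomEqNum W X) : Submodule.span W.K (typS W X) = ⊤ := by
  rw [eq_top_iff]
  intro x _
  have h1 : x = al W a b x + (x - al W a b x) := by abel
  rw [h1]
  exact Submodule.add_mem _ (Submodule.subset_span (Or.inl (h.al_mem x)))
    (Submodule.subset_span (Or.inr (h.sub_al_trans hD x)))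

theorem exists_typ {x : ∀ t, W.H (Q t).X} (hT : ∀ s, ∀ y ∈ transcendental W (Q s).X, OddC W y)
    (hx : ∀ s, x s ∈ typS W (Q s).X) : ∃ b : Fin (n + 1) → Bool, Typ W b x ∧
      ∀ s, b s = true → x s ∈ transcendental W (Q s).X := by
  classical
  refine ⟨fun s => decide (x s ∈ transcendental W (Q s).X), fun s => ⟨fun h => ?_, fun h => ?_⟩,
    fun s h => by simpa using h⟩
  · exact hT s _ (by simpa using h)
  · rcases hx s with h1 | h1
    · exact h1
    · exact absurd h1 (by simpa using h)

theorem op_ptt (hT : ∀ s, ∀ y ∈ transcendental W (Q s).X, OddC W y) (s : Fin (n + 1))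
    (h : W.H (VV ops Z (n + 1) Q)) : (D s).op (ptt D (List.finRange (n + 1)) h) = 0 := by
  have h1 : (D s).op ∘ₗ ptt D (List.finRange (n + 1)) = 0 := by
    refine mono_ext' (P := fun s => typS W (Q s).X) (fun s => typS_span (D s).dual (D s).hD) ?_
    intro x z hx
    obtain ⟨b, hb, hb'⟩ := exists_typ hT hx
    rw [LinearMap.comp_apply, ptt_typ D hb hb', LinearMap.zero_apply]
    by_cases h2 : ∀ s ∈ List.finRange (n + 1), b s = true
    · rw [if_pos h2, (D s).op_typ hb (hb' s), if_pos (h2 s (List.mem_finRange s))]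
    · rw [if_neg h2, map_zero]
  exact congrArg (fun L => L h) h1

/-- **A class without totally transcendental part.** -/
theorem ptt_zero (hT : ∀ s, ∀ y ∈ transcendental W (Q s).X, OddC W y)
    {h : W.H (VV ops Z (n + 1) Q)} (hh : ∀ x : (∀ t, W.H (Q t).X),
      (∀ t, x t ∈ transcendental W (Q t).X) →
        W.push (pz ops Z (n + 1) Q) (h * lp W Z x) = 0) :
    ptt D (List.finRange (n + 1)) h = 0 := by
  set h1 := ptt D (List.finRange (n + 1)) h with hh1
  have key : W.tr (VV ops Z (n + 1) Q) ∘ₗ LinearMap.mulLeft W.K h1 = 0 := by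
    refine mono_ext' (P := fun s => typS W (Q s).X) (fun s => typS_span (D s).dual (D s).hD) ?_
    intro x z hx
    obtain ⟨b, hb, hb'⟩ := exists_typ hT hx
    rw [LinearMap.comp_apply, LinearMap.mulLeft_apply, LinearMap.zero_apply]
    by_cases h2 : ∀ s, b s = true
    · rw [← mul_assoc, ← W.tr_push, hh1, ptt_push D _ _ (fun t => (hb t).1 (h2 t))
        (fun t => hb' t (h2 t)), hh _ fun t => hb' t (h2 t), zero_mul, map_zero]
    · push Not at h2
      obtain ⟨s, hs⟩ := h2
      have hs' : b s = false := by simpa using hs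
      obtain ⟨σ, hσ⟩ := lp_front (W := W) (Z := Z) (Q := Q) b s
      rw [hσ x hb, ← rem_pz s, smul_mul_assoc, mul_assoc, ← map_mul, mul_smul_comm, map_zsmul,
        ← mul_assoc, ← W.tr_push, ← pi_comm ((hb s).2 hs'),
        (D s).cut_zero (op_ptt D hT s h) ((hb s).2 hs'), zero_mul, map_zero, smul_zero]
  apply W.nondeg
  intro c
  exact congrArg (fun L => L c) key

end total

section good

variable {n : ℕ} {Q : Fin (n + 1) → Polarized 𝒱} {s : Fin (n + 1)}

theorem L_slot (hE : (VV ops Z n fun t => Q (s.succAbove t)).IsCyc 1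
      (mixProd ops Z n fun t => Q (s.succAbove t)).D)
    (x : W.H (Q s).X) (y : W.H (VV ops Z n fun t => Q (s.succAbove t))) :
    LinearMap.mulLeft W.K (W.cl (VV ops Z (n + 1) Q) (mixProd ops Z (n + 1) Q).D)
      (pi' W Z s x * W.map (rem ops Z Q s) y) =
      pi' W Z s (LinearMap.mulLeft W.K (W.cl (Q s).X (Q s).D) x) * W.map (rem ops Z Q s) y +
      pi' W Z s x * W.map (rem ops Z Q s) (LinearMap.mulLeft W.K
        (W.cl (VV ops Z n fun t => Q (s.succAbove t))
          (mixProd ops Z n fun t => Q (s.succAbove t)).D) y) := by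
  rw [LinearMap.mulLeft_apply, LinearMap.mulLeft_apply, LinearMap.mulLeft_apply, rem_D s, add_mul,
    map_mul, ← mul_assoc, ← mul_assoc, ← mul_assoc]
  have h1 : pi' W Z s (W.cl (Q s).X (Q s).D * x) =
      pi' W Z s (W.cl (Q s).X (Q s).D) * pi' W Z s x := map_mul _ _ _
  have h2 : AS W _ (W.map (rem ops Z Q s) (W.cl (VV ops Z n fun t => Q (s.succAbove t))
          (mixProd ops Z n fun t => Q (s.succAbove t)).D)) := (AS.of ⟨_, hE, rfl⟩).map _
  rw [h1, h2.comm (pi' W Z s x)]

/-- **Products with algebraic classes from a slot.** -/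
theorem good_slot {F : Module.End W.K (W.H (VV ops Z (n + 1) Q))}
    (tF : Low W (VV ops Z (n + 1) Q) (mixProd ops Z (n + 1) Q).D F)
    {f : Module.End W.K (W.H (Q s).X)} (tf : Low W (Q s).X (Q s).D f)
    {F' : Module.End W.K (W.H (VV ops Z n fun t => Q (s.succAbove t)))}
    (tF' : Low W (VV ops Z n fun t => Q (s.succAbove t))
      (mixProd ops Z n fun t => Q (s.succAbove t)).D F')
    (hE : (VV ops Z n fun t => Q (s.succAbove t)).IsCyc 1
      (mixProd ops Z n fun t => Q (s.succAbove t)).D) (hC : (Q s).X.IsCyc 1 (Q s).D)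
    (hf : Stable W (Q s).X f) (hF' : Stable W _ F') {x : W.H (Q s).X}
    {y : W.H (VV ops Z n fun t => Q (s.succAbove t))} (hx : AS W _ x) (hy : AS W _ y) :
    Good W (LinearMap.mulLeft W.K (W.cl (VV ops Z (n + 1) Q) (mixProd ops Z (n + 1) Q).D)) F
      (pi' W Z s x * W.map (rem ops Z Q s) y) := by
  set M : AddSubmonoid (W.H (VV ops Z (n + 1) Q)) := AddSubmonoid.closure
    {z | ∃ (x : W.H (Q s).X) (y : W.H (VV ops Z n fun t => Q (s.succAbove t))),
      AS W _ x ∧ AS W _ y ∧ z = pi' W Z s x * W.map (rem ops Z Q s) y} with hM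
  have hmem : ∀ (x : W.H (Q s).X) (y : W.H (VV ops Z n fun t => Q (s.succAbove t))),
      AS W _ x → AS W _ y → pi' W Z s x * W.map (rem ops Z Q s) y ∈ M := fun x y hx hy =>
    AddSubmonoid.subset_closure ⟨x, y, hx, hy, rfl⟩
  refine good_of_pred (M := fun z => z ∈ M) ?_ ?_ ?_ (hmem x y hx hy)
  · intro z hz
    induction hz using AddSubmonoid.closure_induction with
    | mem z hz =>
      obtain ⟨x, y, hx, hy, rfl⟩ := hz
      exact (hx.map _).mul (hy.map _)
    | zero => exact AS.zero
    | add x y _ _ hx hy => exact hx.add hy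
  · intro z hz
    induction hz using AddSubmonoid.closure_induction with
    | mem z hz =>
      obtain ⟨x, y, hx, hy, rfl⟩ := hz
      rw [L_slot hE]
      exact AddSubmonoid.add_mem _ (hmem _ _ ((AS.of ⟨_, hC, rfl⟩).mul hx) hy)
        (hmem _ _ hx ((AS.of ⟨_, hE, rfl⟩).mul hy))
    | zero => rw [map_zero]; exact AddSubmonoid.zero_mem _
    | add x y _ _ hx hy => rw [map_add]; exact AddSubmonoid.add_mem _ hx hy
  · intro z hz
    induction hz using AddSubmonoid.closure_induction with
    | mem z hz =>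
      obtain ⟨x, y, hx, hy, rfl⟩ := hz
      rw [low_apply s tF tf tF' hE]
      exact AddSubmonoid.add_mem _ (hmem _ _ (hf x hx) hy) (hmem _ _ hx (hF' y hy))
    | zero => rw [map_zero]; exact AddSubmonoid.zero_mem _
    | add x y _ _ hx hy => rw [map_add]; exact AddSubmonoid.add_mem _ hx hy

theorem Slot.good_op (D : Slot W Z Q s) {F : Module.End W.K (W.H (VV ops Z (n + 1) Q))}
    (tF : Low W (VV ops Z (n + 1) Q) (mixProd ops Z (n + 1) Q).D F)
    {f : Module.End W.K (W.H (Q s).X)} (tf : Low W (Q s).X (Q s).D f)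
    {F' : Module.End W.K (W.H (VV ops Z n fun t => Q (s.succAbove t)))}
    (tF' : Low W (VV ops Z n fun t => Q (s.succAbove t))
      (mixProd ops Z n fun t => Q (s.succAbove t)).D F')
    (hE : (VV ops Z n fun t => Q (s.succAbove t)).IsCyc 1
      (mixProd ops Z n fun t => Q (s.succAbove t)).D) (hC : (Q s).X.IsCyc 1 (Q s).D)
    (hf : Stable W (Q s).X f) (hF' : Stable W _ F') {h : W.H (VV ops Z (n + 1) Q)}
    (hh : AS W _ h) :
    Good W (LinearMap.mulLeft W.K (W.cl (VV ops Z (n + 1) Q) (mixProd ops Z (n + 1) Q).D)) F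
      (D.op h) := by
  rw [D.op_apply]
  refine Good.smul _ (Good.ratSub.sum _ fun i _ => ?_)
  exact good_slot tF tf tF' hE hC hf hF' (D.dual.ha i) ((((D.dual.hb i).map _).mul hh).push _)

end good

end Pool.Agent.H88.FL
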