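import Pool.Agent.H88.FL.Geo5
import Pool.Agent.H88.FL.Symp

/-!
# The transcendental part of the diagonal and the contraction operators
-/

open CategoryTheory AlgebraicGeometry Finset

set_option linter.unusedSectionVars false

universe u v w

namespace Pool.Agent.H88.FL

open Pool.Agent.H914 Pool.Agent.H914.VarClass Pool.Agent.H914.VarClass.Obj
  Pool.Agent.H914.WeilCohomology Pool.Agent.H281R3.HT Pool.Agent.W552 Pool.Agent.TH132.A

variable {k : Type u} [Field k] {𝒱 : VarClass k} {ops : CycleOps 𝒱}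
  {W : WeilCohomology.{u, v} ops} {Z : Polarized 𝒱}

section diag

variable {X Y : 𝒱.Obj}

/-- the sign -/
def sg {m : ℕ} (x : Fin m × Bool) : ℤ := if x.2 then 1 else -1

/-- the partner -/
def st {m : ℕ} (x : Fin m × Bool) : Fin m × Bool := (x.1, !x.2)

theorem sf_st {K : Type*} [Field K] {m : ℕ} (x y : Fin m × Bool) :
    sf K (st x) y = if y = x then -(sg x : K) else 0 := by
  obtain ⟨a, s⟩ := x
  obtain ⟨b, t⟩ := y
  by_cases hab : b = a
  · subst hab
    cases s <;> cases t <;> simp [sf, st, sg]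
  · rw [if_neg (by simp [hab])]
    simp [sf, st, Ne.symm hab]

theorem diag_pair (x y : W.H X) : W.tr (X.prod X) (W.push (diag X) 1 *
    (W.map (fst X X) x * W.map (snd X X) y)) = W.tr X (x * y) := by
  rw [W.tr_push, one_mul, map_mul, ← W.map_comp, ← W.map_comp]
  have e1 : diag X ≫ fst X X = 𝟙 X := Obj.lift_fst _ _
  have e2 : diag X ≫ snd X X = 𝟙 X := Obj.lift_snd _ _
  rw [e1, e2, W.map_id, W.map_id]

theorem tr_anti (hodd : Odd X.dim) {p : W.H X} (hp : p ∈ W.gr X X.dim) (u : W.H X) :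
    W.tr X (p * u) = -W.tr X (u * p) := by
  refine gr_induction (W.isInternal X) (p := fun u => W.tr X (p * u) = -W.tr X (u * p)) ?_ ?_ u
  · intro j u hu
    by_cases hj : j = X.dim
    · subst hj
      rw [W.comm hp hu, (hodd.mul hodd).neg_one_pow, neg_one_smul, map_neg]
    · rw [W.tr_eq_zero (W.mul_mem hp hu) (by omega), W.tr_eq_zero (W.mul_mem hu hp) (by omega),
        neg_zero]
  · intro a b ha hb
    rw [mul_add, add_mul, map_add, map_add, ha, hb, neg_add]

theorem tr_four (hodd : Odd X.dim) {p q : W.H X} (hp : p ∈ W.gr X X.dim) (hq : q ∈ W.gr X X.dim)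
    (u v : W.H X) : W.tr (X.prod X) (W.map (fst X X) p * W.map (snd X X) q *
      (W.map (fst X X) u * W.map (snd X X) v)) = -(W.tr X (p * u) * W.tr X (q * v)) := by
  refine gr_induction (W.isInternal X) (p := fun u => W.tr (X.prod X) (W.map (fst X X) p *
    W.map (snd X X) q * (W.map (fst X X) u * W.map (snd X X) v)) =
      -(W.tr X (p * u) * W.tr X (q * v))) ?_ ?_ u
  · intro j u hu
    have h1 : W.map (fst X X) p * W.map (snd X X) q * (W.map (fst X X) u * W.map (snd X X) v) =
        (-1 : W.K) ^ (X.dim * j) • (W.map (fst X X) (p * u) * W.map (snd X X) (q * v)) := by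
      rw [mul_assoc, ← mul_assoc (W.map (snd X X) q),
        W.comm (W.map_mem (snd X X) hq) (W.map_mem (fst X X) hu), smul_mul_assoc, mul_smul_comm,
        map_mul, map_mul]
      congr 1
      noncomm_ring
    rw [h1, map_smul, W.tr_prod]
    by_cases hj : j = X.dim
    · subst hj
      rw [(hodd.mul hodd).neg_one_pow, neg_one_smul]
    · rw [W.tr_eq_zero (W.mul_mem hp hu) (by omega), zero_mul, smul_zero, neg_zero]
  · intro a b ha hb
    rw [map_add, add_mul, mul_add, map_add, ha, hb, mul_add, map_add, add_mul, neg_add]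

/-- **The transcendental part of the class of the diagonal.** -/
theorem theta_AS (hDX : HomEqNum W X) (hodd : Odd X.dim)
    (hmid : transcendental W X ≤ W.gr X X.dim) {m : ℕ} {e : Fin m × Bool → W.H X}
    (he : ∀ x, e x ∈ transcendental W X) (hgram : ∀ x y, W.tr X (e x * e y) = sf W.K x y)
    (hspan : transcendental W X ≤ Submodule.span W.K (Set.range e)) (p q : Y ⟶ X) :
    AS W Y (∑ x, (sg x : W.K) • (W.map p (e x) * W.map q (e (st x)))) := by
  obtain ⟨N, a, b, h⟩ := exists_dualFam hDX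
  have key : (∑ x, (sg x : W.K) • (W.map (fst X X) (e x) * W.map (snd X X) (e (st x)))) =
      -(W.push (diag X) 1 - ∑ i, W.map (fst X X) (a i) * W.map (snd X X) (b i)) := by
    have h0 : W.tr (X.prod X) ∘ₗ LinearMap.mulLeft W.K
        (∑ x, (sg x : W.K) • (W.map (fst X X) (e x) * W.map (snd X X) (e (st x)))) =
        W.tr (X.prod X) ∘ₗ LinearMap.mulLeft W.K
          (-(W.push (diag X) 1 - ∑ i, W.map (fst X X) (a i) * W.map (snd X X) (b i))) := by
      apply ext_kunneth_lin
      intro u v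
      rw [LinearMap.comp_apply, LinearMap.comp_apply, LinearMap.mulLeft_apply,
        LinearMap.mulLeft_apply, Finset.sum_mul, map_sum, neg_mul, map_neg, sub_mul, map_sub,
        diag_pair, Finset.sum_mul, map_sum]
      have h1 : ∀ x, W.tr (X.prod X) ((sg x : W.K) • (W.map (fst X X) (e x) *
          W.map (snd X X) (e (st x))) * (W.map (fst X X) u * W.map (snd X X) v)) =
          -((sg x : W.K) * (W.tr X (e x * u) * W.tr X (e (st x) * v))) := by
        intro x
        rw [smul_mul_assoc, map_smul, tr_four hodd (hmid (he x)) (hmid (he _)), smul_eq_mul,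
          mul_neg]
      have h2 : ∀ i, W.tr (X.prod X) (W.map (fst X X) (a i) * W.map (snd X X) (b i) *
          (W.map (fst X X) u * W.map (snd X X) v)) = W.tr X (a i * u) * W.tr X (b i * v) := by
        intro i
        rw [← W.tr_prod, map_mul (W.map (fst X X)), map_mul (W.map (snd X X)), mul_assoc,
          ← mul_assoc (W.map (snd X X) (b i)), ((h.hb i).map (snd X X)).comm]
        congr 1
        noncomm_ring
      rw [Finset.sum_congr rfl fun x _ => h1 x, Finset.sum_congr rfl fun i _ => h2 i,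
        Finset.sum_neg_distrib]
      congr 1
      set v' := v - al W a b v with hv'
      have hv'T : v' ∈ transcendental W X := h.sub_al_trans hDX v
      have h3 : ∀ x, W.tr X (e (st x) * v) = W.tr X (e (st x) * v') := by
        intro x
        rw [hv', mul_sub, map_sub, trans_span (he _) (h.al_mem v), sub_zero]
      have h4 : W.tr X (u * v) - ∑ i, W.tr X (a i * u) * W.tr X (b i * v) = W.tr X (u * v') := by
        rw [hv', mul_sub, map_sub, al_apply, Finset.mul_sum, map_sum]
        congr 1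
        refine Finset.sum_congr rfl fun i _ => ?_
        rw [mul_smul_comm, map_smul, smul_eq_mul, (h.ha i).comm, mul_comm]
      rw [h4]
      obtain ⟨c, hc⟩ := (Submodule.mem_span_range_iff_exists_fun W.K).1 (hspan hv'T)
      have h5 : ∀ x, W.tr X (e (st x) * v) = -(sg x : W.K) * c x := by
        intro x
        rw [h3, ← hc, Finset.mul_sum, map_sum, Finset.sum_eq_single x]
        · rw [mul_smul_comm, map_smul, hgram, sf_st, if_pos rfl, smul_eq_mul, mul_comm]
        · intro y _ hy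
          rw [mul_smul_comm, map_smul, hgram, sf_st, if_neg hy, smul_zero]
        · intro h0
          exact absurd (Finset.mem_univ _) h0
      have h6 : ∀ x : Fin m × Bool, (sg x : W.K) * (sg x : W.K) = 1 := by
        intro x
        rw [sg]
        split_ifs <;> norm_num
      have h7 : W.tr X (u * v') = -W.tr X (v' * u) := by
        rw [tr_anti hodd (hmid hv'T), neg_neg]
      rw [h7, ← hc, Finset.sum_mul, map_sum, ← Finset.sum_neg_distrib]
      refine Finset.sum_congr rfl fun x _ => ?_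
      rw [h5, smul_mul_assoc, map_smul, smul_eq_mul]
      linear_combination -(c x) * W.tr X (e x * u) * h6 x
    apply W.tr_ext
    intro c
    exact congrArg (fun L => L c) h0
  have h1 : (∑ x, (sg x : W.K) • (W.map p (e x) * W.map q (e (st x)))) =
      W.map (Obj.lift p q) (∑ x, (sg x : W.K) •
        (W.map (fst X X) (e x) * W.map (snd X X) (e (st x)))) := by
    rw [map_sum]
    refine Finset.sum_congr rfl fun x _ => ?_
    rw [map_smul, map_mul, ← W.map_comp, ← W.map_comp, Obj.lift_fst, Obj.lift_snd]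
  rw [h1, key]
  refine AS.map _ (AS.ratSub.neg (AS.ratSub.sub (AS.one.push _) ?_))
  exact AS.ratSub.sum _ fun i _ => ((h.ha i).map _).mul ((h.hb i).map _)

end diag

theorem oo_comm {X : 𝒱.Obj} {x y : W.H X} (hx : OddC W x) (hy : OddC W y) (z : W.H X) :
    x * y * z = z * (x * y) := by
  obtain ⟨i, hi, hx⟩ := hx
  obtain ⟨j, hj, hy⟩ := hy
  obtain ⟨l, hl⟩ := (hi.add_odd hj).two_dvd
  have h1 := W.mul_mem hx hy
  rw [hl] at h1
  exact W.even_comm h1 z

section two

variable {n : ℕ} {Q : Fin (n + 2) → Polarized 𝒱} {a : Fin (n + 2)} {b : Fin (n + 1)}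

/-- removing two factors -/
noncomputable def rr (ops : CycleOps 𝒱) (Z : Polarized 𝒱) {n : ℕ} (Q : Fin (n + 2) → Polarized 𝒱)
    (a : Fin (n + 2)) (b : Fin (n + 1)) :
    VV ops Z (n + 2) Q ⟶ VV ops Z n (fun t => Q (a.succAbove (b.succAbove t))) :=
  rem ops Z Q a ≫ rem ops Z (fun t => Q (a.succAbove t)) b

theorem pz_rr : rr ops Z Q a b ≫ pz ops Z n (fun t => Q (a.succAbove (b.succAbove t))) =
    pz ops Z (n + 2) Q := by
  rw [rr, Category.assoc]
  have h1 := pz_rem (ops := ops) (Z := Z) (Q := fun t => Q (a.succAbove t)) b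
  rw [h1, pz_rem]

theorem pi_two (v : W.H (Q (a.succAbove b)).X) : pi' W Z (Q := Q) (a.succAbove b) v =
    W.map (rem ops Z Q a) (pi' W Z (Q := fun t => Q (a.succAbove t)) b v) := (rem_pi a b v).symm

theorem rr_push {t t' : ℚ}
    (ht : ∀ x, W.push (rem ops Z Q a) (pi' W Z a x) = ((t : W.K) * W.tr (Q a).X x) • 1)
    (ht' : ∀ x, W.push (rem ops Z (fun t => Q (a.succAbove t)) b) (pi' W Z b x) =
      ((t' : W.K) * W.tr (Q (a.succAbove b)).X x) • 1)
    (u : W.H (Q a).X) (v : W.H (Q (a.succAbove b)).X)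
    (y : W.H (VV ops Z n fun t => Q (a.succAbove (b.succAbove t)))) :
    W.push (rr ops Z Q a b) (pi' W Z a u * pi' W Z (a.succAbove b) v *
      W.map (rr ops Z Q a b) y) = ((t : W.K) * (t' : W.K) *
        (W.tr (Q a).X u * W.tr (Q (a.succAbove b)).X v)) • y := by
  rw [rr, W.push_comp, pi_two, W.map_comp, mul_assoc, ← map_mul, rem_push ht, map_smul]
  have h1 := rem_push (Q := fun t => Q (a.succAbove t)) ht' v y
  rw [h1, smul_smul]
  congr 1
  ring

/-- **Moving two slots to the front.** -/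
theorem lp_two (W : WeilCohomology.{u, v} ops) (Z : Polarized 𝒱) (Q : Fin (n + 2) → Polarized 𝒱)
    (a : Fin (n + 2)) (b : Fin (n + 1)) : ∃ σ : W.K, σ * σ = 1 ∧ ∀ x : (∀ t, W.H (Q t).X),
      (∀ t, OddC W (x t)) → lp W Z x = σ • (pi' W Z a (x a) *
        pi' W Z (a.succAbove b) (x (a.succAbove b)) *
          W.map (rr ops Z Q a b) (lp W Z fun t => x (a.succAbove (b.succAbove t)))) := by
  obtain ⟨σ, hσ⟩ := lp_front (W := W) (Z := Z) (Q := Q) (fun _ => true) a
  obtain ⟨τ, hτ⟩ := lp_front (W := W) (Z := Z) (Q := fun t => Q (a.succAbove t)) (fun _ => true) b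
  have hsq : ∀ ρ : ℤˣ, (((ρ : ℤ) : W.K) * ((ρ : ℤ) : W.K)) = 1 := by
    intro ρ
    rcases Int.units_eq_one_or ρ with rfl | rfl <;> simp
  refine ⟨((σ : ℤ) : W.K) * ((τ : ℤ) : W.K), ?_, fun x hx => ?_⟩
  · linear_combination (((τ : ℤ) : W.K) * ((τ : ℤ) : W.K)) * hsq σ + hsq τ
  · have h1 := hσ x fun t => ⟨fun _ => hx t, fun h => by simp at h⟩
    have h2 := hτ (fun t => x (a.succAbove t)) fun t => ⟨fun _ => hx _, fun h => by simp at h⟩
    rw [h1, h2, ← Int.cast_smul_eq_zsmul W.K, ← Int.cast_smul_eq_zsmul W.K, map_smul, map_mul,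
      mul_smul_comm, smul_smul, rr, W.map_comp, pi_two, ← mul_assoc]

variable {I : Type} [Fintype I] {sc : I → W.K} {p : I → W.H (Q a).X}
  {q : I → W.H (Q (a.succAbove b)).X}

/-- the class `∑ sc i • p i × q i` -/
noncomputable def th (W : WeilCohomology.{u, v} ops) (Z : Polarized 𝒱)
    {Q : Fin (n + 2) → Polarized 𝒱} (a : Fin (n + 2)) (b : Fin (n + 1)) {I : Type} [Fintype I]
    (sc : I → W.K) (p : I → W.H (Q a).X) (q : I → W.H (Q (a.succAbove b)).X) :
    W.H (VV ops Z (n + 2) Q) :=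
  ∑ i, sc i • (pi' W Z a (p i) * pi' W Z (a.succAbove b) (q i))

/-- the contraction -/
noncomputable def KO (W : WeilCohomology.{u, v} ops) (Z : Polarized 𝒱)
    {Q : Fin (n + 2) → Polarized 𝒱} (a : Fin (n + 2)) (b : Fin (n + 1)) {I : Type} [Fintype I]
    (sc : I → W.K) (p : I → W.H (Q a).X) (q : I → W.H (Q (a.succAbove b)).X) :
    Module.End W.K (W.H (VV ops Z (n + 2) Q)) :=
  LinearMap.mulLeft W.K (th W Z a b sc p q) ∘ₗ (W.map (rr ops Z Q a b)).toLinearMap ∘ₗ
    W.push (rr ops Z Q a b) ∘ₗ LinearMap.mulLeft W.K (th W Z a b sc p q)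

theorem KO_apply (h : W.H (VV ops Z (n + 2) Q)) : KO W Z a b sc p q h = th W Z a b sc p q *
    W.map (rr ops Z Q a b) (W.push (rr ops Z Q a b) (th W Z a b sc p q * h)) := rfl

theorem th_comm (hp : ∀ i, OddC W (p i)) (hq : ∀ i, OddC W (q i))
    (z : W.H (VV ops Z (n + 2) Q)) : th W Z a b sc p q * z = z * th W Z a b sc p q := by
  rw [th, Finset.sum_mul, Finset.mul_sum]
  refine Finset.sum_congr rfl fun i _ => ?_
  rw [smul_mul_assoc, mul_smul_comm, oo_comm (pi_odd (hp i)) (pi_odd (hq i))]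

/-- **The coordinates of the contraction.** -/
theorem KO_coord {t t' : ℚ}
    (ht : ∀ x, W.push (rem ops Z Q a) (pi' W Z a x) = ((t : W.K) * W.tr (Q a).X x) • 1)
    (ht' : ∀ x, W.push (rem ops Z (fun t => Q (a.succAbove t)) b) (pi' W Z b x) =
      ((t' : W.K) * W.tr (Q (a.succAbove b)).X x) • 1)
    (hp : ∀ i, OddC W (p i)) (hq : ∀ i, OddC W (q i)) {x : ∀ t, W.H (Q t).X}
    (hx : ∀ t, OddC W (x t)) {X : I → ∀ t, W.H (Q t).X} (hX : ∀ i t, OddC W (X i t))
    (hXa : ∀ i, X i a = p i) (hXb : ∀ i, X i (a.succAbove b) = q i)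
    (hXt : ∀ i t, X i (a.succAbove (b.succAbove t)) = x (a.succAbove (b.succAbove t)))
    (h : W.H (VV ops Z (n + 2) Q)) :
    W.push (pz ops Z (n + 2) Q) (KO W Z a b sc p q h * lp W Z x) =
      (-((t : W.K) * (t' : W.K)) * ∑ i, sc i * (W.tr (Q a).X (p i * x a) *
        W.tr (Q (a.succAbove b)).X (q i * x (a.succAbove b)))) •
          ∑ i, sc i • W.push (pz ops Z (n + 2) Q) (h * lp W Z (X i)) := by
  obtain ⟨σ, hσ, hl⟩ := lp_two W Z Q a b
  set l := lp W Z (Q := fun t => Q (a.succAbove (b.succAbove t)))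
    (fun t => x (a.succAbove (b.succAbove t))) with hldef
  set θ := th W Z a b sc p q with hθ
  set R := W.map (rr ops Z Q a b) with hR
  set y := W.push (rr ops Z Q a b) (θ * h) with hy
  have hE := oo_comm (pi_odd (Z := Z) (Q := Q) (hx a)) (pi_odd (Z := Z) (hx (a.succAbove b)))
  set E := pi' W Z (Q := Q) a (x a) * pi' W Z (Q := Q) (a.succAbove b) (x (a.succAbove b))
    with hEdef
  -- the second sum
  have h1 : ∑ i, sc i • W.push (pz ops Z (n + 2) Q) (h * lp W Z (X i)) =
      σ • W.push (pz ops Z n fun t => Q (a.succAbove (b.succAbove t))) (y * l) := by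
    have h2 : ∀ i, lp W Z (X i) = σ • (pi' W Z a (p i) * pi' W Z (a.succAbove b) (q i) * R l) := by
      intro i
      rw [hl (X i) (hX i), hXa, hXb, hldef]
      congr 3
      exact congrArg (lp W Z) (funext fun t => hXt i t)
    have h3 : W.push (pz ops Z n fun t => Q (a.succAbove (b.succAbove t))) (y * l) =
        W.push (pz ops Z (n + 2) Q) (θ * h * R l) := by
      rw [hy, ← W.push_mul, ← W.push_comp, pz_rr]
    rw [h3, hθ, th, Finset.sum_mul, Finset.sum_mul, map_sum, Finset.smul_sum]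
    refine Finset.sum_congr rfl fun i _ => ?_
    rw [h2, mul_smul_comm, map_smul, smul_mul_assoc, smul_mul_assoc, map_smul,
      oo_comm (pi_odd (hp i)) (pi_odd (hq i)) h, mul_assoc h, smul_comm]
  -- the product of `θ` and `E`
  have h4 : θ * E = ∑ i, (-sc i) • (pi' W Z a (p i * x a) *
      pi' W Z (a.succAbove b) (q i * x (a.succAbove b))) := by
    rw [hθ, th, Finset.sum_mul]
    refine Finset.sum_congr rfl fun i _ => ?_
    have e1 : pi' W Z (Q := Q) a (p i * x a) = pi' W Z a (p i) * pi' W Z a (x a) := map_mul _ _ _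
    have e2 : pi' W Z (Q := Q) (a.succAbove b) (q i * x (a.succAbove b)) =
      pi' W Z (a.succAbove b) (q i) * pi' W Z (a.succAbove b) (x (a.succAbove b)) := map_mul _ _ _
    have e3 : pi' W Z (Q := Q) (a.succAbove b) (q i) * pi' W Z a (x a) =
        -(pi' W Z a (x a) * pi' W Z (a.succAbove b) (q i)) :=
      odd_anti (pi_odd (hq i)) (pi_odd (hx a))
    rw [e1, e2, hEdef, smul_mul_assoc, neg_smul, mul_assoc (pi' W Z a (p i)),
      ← mul_assoc (pi' W Z (a.succAbove b) (q i)), e3]
    rw [← smul_neg]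
    congr 1
    noncomm_ring
  have h5 : KO W Z a b sc p q h * lp W Z x = σ • (θ * E * R (y * l)) := by
    rw [hl x hx, KO_apply, mul_smul_comm, map_mul R]
    congr 1
    calc θ * R y * (E * R l) = θ * (R y * E) * R l := by noncomm_ring
      _ = θ * (E * R y) * R l := by rw [hE (R y)]
      _ = θ * E * (R y * R l) := by noncomm_ring
  have h6 : W.push (rr ops Z Q a b) (θ * E * R (y * l)) = (-((t : W.K) * (t' : W.K)) *
      ∑ i, sc i * (W.tr (Q a).X (p i * x a) *
        W.tr (Q (a.succAbove b)).X (q i * x (a.succAbove b)))) • (y * l) := by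
    rw [h4, Finset.sum_mul, map_sum, Finset.mul_sum, Finset.sum_smul]
    refine Finset.sum_congr rfl fun i _ => ?_
    rw [smul_mul_assoc, map_smul, rr_push ht ht', smul_smul]
    congr 1
    ring
  rw [h5, map_smul, ← pz_rr (Q := Q) (a := a) (b := b), W.push_comp, h6, map_smul, smul_comm, ← h1,
    pz_rr]

/-- **Products with the classes `θ`.** -/
theorem good_th {F : Module.End W.K (W.H (VV ops Z (n + 2) Q))}
    (tF : Low W (VV ops Z (n + 2) Q) (mixProd ops Z (n + 2) Q).D F)
    {f : Module.End W.K (W.H (Q a).X)} (tf : Low W (Q a).X (Q a).D f)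
    {f' : Module.End W.K (W.H (Q (a.succAbove b)).X)}
    (tf' : Low W (Q (a.succAbove b)).X (Q (a.succAbove b)).D f')
    {F' : Module.End W.K (W.H (VV ops Z (n + 1) fun t => Q (a.succAbove t)))}
    (tF' : Low W (VV ops Z (n + 1) fun t => Q (a.succAbove t))
      (mixProd ops Z (n + 1) fun t => Q (a.succAbove t)).D F')
    {F'' : Module.End W.K (W.H (VV ops Z n fun t => Q (a.succAbove (b.succAbove t))))}
    (tF'' : Low W (VV ops Z n fun t => Q (a.succAbove (b.succAbove t)))
      (mixProd ops Z n fun t => Q (a.succAbove (b.succAbove t))).D F'')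
    (hE' : (VV ops Z (n + 1) fun t => Q (a.succAbove t)).IsCyc 1
      (mixProd ops Z (n + 1) fun t => Q (a.succAbove t)).D)
    (hE'' : (VV ops Z n fun t => Q (a.succAbove (b.succAbove t))).IsCyc 1
      (mixProd ops Z n fun t => Q (a.succAbove (b.succAbove t))).D)
    (hfp : ∀ i, f (p i) = 0) (hfq : ∀ i, f' (q i) = 0)
    (hDp : ∀ i, W.cl (Q a).X (Q a).D * p i = 0)
    (hDq : ∀ i, W.cl (Q (a.succAbove b)).X (Q (a.succAbove b)).D * q i = 0)
    (hθ : AS W _ (th W Z a b sc p q))
    (hF'' : Stable W _ F'') {y : W.H (VV ops Z n fun t => Q (a.succAbove (b.succAbove t)))}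
    (hy : AS W _ y) :
    Good W (LinearMap.mulLeft W.K (W.cl (VV ops Z (n + 2) Q) (mixProd ops Z (n + 2) Q).D)) F
      (th W Z a b sc p q * W.map (rr ops Z Q a b) y) := by
  have hz : ∀ (m : ℕ) (Q : Fin m → Polarized 𝒱) (s : Fin m), pi' W Z (Q := Q) s 0 = 0 :=
    fun m Q s => map_zero _
  have hL : ∀ y, LinearMap.mulLeft W.K (W.cl (VV ops Z (n + 2) Q) (mixProd ops Z (n + 2) Q).D)
      (th W Z a b sc p q * W.map (rr ops Z Q a b) y) = th W Z a b sc p q *
        W.map (rr ops Z Q a b) (LinearMap.mulLeft W.K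
          (W.cl (VV ops Z n fun t => Q (a.succAbove (b.succAbove t)))
            (mixProd ops Z n fun t => Q (a.succAbove (b.succAbove t))).D) y) := by
    intro y
    rw [th, Finset.sum_mul, Finset.sum_mul, map_sum]
    refine Finset.sum_congr rfl fun i _ => ?_
    have h1 := L_slot (W := W) (Q := Q) hE' (p i) (pi' W Z (Q := fun t => Q (a.succAbove t)) b
      (q i) * W.map (rem ops Z (fun t => Q (a.succAbove t)) b) y)
    have h2 := L_slot (W := W) (Q := fun t => Q (a.succAbove t)) (s := b) hE'' (q i) y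
    rw [LinearMap.mulLeft_apply (R := W.K) (A := W.H (Q a).X), hDp, hz, zero_mul, zero_add, h2,
      LinearMap.mulLeft_apply (R := W.K) (A := W.H (Q (a.succAbove b)).X), hDq, hz, zero_mul,
      zero_add] at h1
    rw [smul_mul_assoc, smul_mul_assoc, map_smul, rr, W.map_comp, W.map_comp, pi_two, mul_assoc,
      ← map_mul, h1, mul_assoc, ← map_mul]
  have hF : ∀ y, F (th W Z a b sc p q * W.map (rr ops Z Q a b) y) = th W Z a b sc p q *
        W.map (rr ops Z Q a b) (F'' y) := by
    intro y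
    rw [th, Finset.sum_mul, Finset.sum_mul, map_sum]
    refine Finset.sum_congr rfl fun i _ => ?_
    have h1 := low_apply a tF tf tF' hE' (p i) (pi' W Z (Q := fun t => Q (a.succAbove t)) b
      (q i) * W.map (rem ops Z (fun t => Q (a.succAbove t)) b) y)
    have h2 := low_apply (Q := fun t => Q (a.succAbove t)) b tF' tf' tF'' hE'' (q i) y
    rw [hfp, hz, zero_mul, zero_add, h2, hfq, hz, zero_mul, zero_add] at h1
    rw [smul_mul_assoc, smul_mul_assoc, map_smul, rr, W.map_comp, W.map_comp, pi_two, mul_assoc,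
      ← map_mul, h1, mul_assoc, ← map_mul]
  refine good_of_pred (M := fun z => ∃ y, AS W _ y ∧ z = th W Z a b sc p q *
    W.map (rr ops Z Q a b) y) ?_ ?_ ?_ ⟨y, hy, rfl⟩
  · rintro _ ⟨y, hy, rfl⟩
    exact hθ.mul (hy.map _)
  · rintro _ ⟨y, hy, rfl⟩
    exact ⟨_, (AS.of ⟨_, hE'', rfl⟩).mul hy, hL y⟩
  · rintro _ ⟨y, hy, rfl⟩
    exact ⟨_, hF'' y hy, hF y⟩

end two

end Pool.Agent.H88.FL
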