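import Mathlib

/-!
# Sums of symmetric idempotent matrices over the rationals
-/

open Finset Polynomial Matrix

set_option linter.unusedSectionVars false

namespace Pool.Agent.H88.FL

variable {I : Type} [Fintype I] [DecidableEq I] {κ : Type}

theorem dot_self_zero {v : I → ℚ} (h : v ⬝ᵥ v = 0) : v = 0 := by
  simpa using h

/-- the quadratic form of a symmetric idempotent matrix -/
theorem idem_form {E : Matrix I I ℚ} (hs : Eᵀ = E) (hi : E * E = E) (v : I → ℚ) :
    v ⬝ᵥ (E *ᵥ v) = (E *ᵥ v) ⬝ᵥ (E *ᵥ v) := by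
  conv_lhs => rw [← hi, ← mulVec_mulVec]
  rw [dotProduct_mulVec, ← mulVec_transpose, hs]

theorem sum_ker (T : Finset κ) (E : κ → Matrix I I ℚ) (hs : ∀ k ∈ T, (E k)ᵀ = E k)
    (hi : ∀ k ∈ T, E k * E k = E k) {v : I → ℚ} (hv : (∑ k ∈ T, E k) *ᵥ v = 0) {k : κ}
    (hk : k ∈ T) : E k *ᵥ v = 0 := by
  have h1 : ∑ k ∈ T, (E k *ᵥ v) ⬝ᵥ (E k *ᵥ v) = 0 := by
    rw [← Finset.sum_congr rfl fun k hk => idem_form (hs k hk) (hi k hk) v, ← dotProduct_sum,
      ← Matrix.sum_mulVec, hv, dotProduct_zero]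
  have h2 : ∀ k ∈ T, 0 ≤ (E k *ᵥ v) ⬝ᵥ (E k *ᵥ v) := fun k _ =>
    Finset.sum_nonneg fun i _ => mul_self_nonneg _
  exact dot_self_zero ((Finset.sum_eq_zero_iff_of_nonneg h2).1 h1 k hk)

theorem sq_ker {A : Matrix I I ℚ} (hA : Aᵀ = A) {v : I → ℚ} (h : A *ᵥ (A *ᵥ v) = 0) :
    A *ᵥ v = 0 := by
  apply dot_self_zero
  rw [dotProduct_mulVec, ← mulVec_transpose, hA, h, zero_dotProduct]

theorem pow_ker {A : Matrix I I ℚ} (hA : Aᵀ = A) (j : ℕ) {v : I → ℚ}
    (h : (A ^ j) *ᵥ v = 0) : A *ᵥ v = 0 := by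
  induction j with
  | zero => rw [pow_zero, one_mulVec] at h; rw [h, mulVec_zero]
  | succ j ih =>
    cases j with
    | zero => rwa [zero_add, pow_one] at h
    | succ j =>
      apply ih
      rw [pow_succ', ← mulVec_mulVec]
      apply sq_ker hA
      rw [mulVec_mulVec, mulVec_mulVec, mul_assoc, ← pow_succ', ← pow_succ']
      exact h

/-- **The projector to the common kernel is `1 - r(A) A`.** -/
theorem exists_poly (T : Finset κ) (E : κ → Matrix I I ℚ) (hs : ∀ k ∈ T, (E k)ᵀ = E k)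
    (hi : ∀ k ∈ T, E k * E k = E k) :
    ∃ r : ℚ[X], ∀ k ∈ T, E k * (1 - aeval (∑ k ∈ T, E k) r * ∑ k ∈ T, E k) = 0 := by
  set A := ∑ k ∈ T, E k with hAdef
  have hA : Aᵀ = A := by
    rw [hAdef, Matrix.transpose_sum]
    exact Finset.sum_congr rfl hs
  have hm : A.charpoly ≠ 0 := A.charpoly_monic.ne_zero
  obtain ⟨q, hq, hq0⟩ := Polynomial.exists_eq_pow_rootMultiplicity_mul_and_not_dvd A.charpoly hm 0
  rw [map_zero, sub_zero] at hq hq0
  have h1 : A ^ (rootMultiplicity 0 A.charpoly) * aeval A q = 0 := by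
    have h2 := Matrix.aeval_self_charpoly A
    rw [hq, map_mul, map_pow, aeval_X] at h2
    exact h2
  have h2 : A * aeval A q = 0 := by
    refine Matrix.ext_of_mulVec_single fun i => ?_
    rw [← mulVec_mulVec, zero_mulVec]
    apply pow_ker hA (rootMultiplicity 0 A.charpoly)
    rw [mulVec_mulVec, h1, zero_mulVec]
  have hc : q.coeff 0 ≠ 0 := by
    intro h
    exact hq0 (X_dvd_iff.2 h)
  have h3 : q = C (q.coeff 0) + X * q.divX := by
    conv_lhs => rw [← divX_mul_X_add q]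
    ring
  refine ⟨-C (q.coeff 0)⁻¹ * q.divX, fun k hk => ?_⟩
  have h4 : 1 - aeval A (-C (q.coeff 0)⁻¹ * q.divX) * A = (q.coeff 0)⁻¹ • aeval A q := by
    obtain ⟨c, hcq⟩ : ∃ c, c = q.coeff 0 := ⟨_, rfl⟩
    rw [← hcq] at h3 hc ⊢
    conv_rhs => rw [h3]
    simp only [map_add, map_mul, map_neg, aeval_C, aeval_X, smul_add]
    rw [Algebra.algebraMap_eq_smul_one, Algebra.algebraMap_eq_smul_one, smul_smul,
      inv_mul_cancel₀ hc, one_smul, neg_mul, neg_mul, sub_neg_eq_add, smul_mul_assoc,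
      smul_mul_assoc, one_mul]
    congr 2
    have h5 : Commute (aeval A q.divX) A := by
      have := (Polynomial.commute_X q.divX).symm
      have h6 := congrArg (aeval A) (mul_comm q.divX X)
      rw [map_mul, map_mul, aeval_X] at h6
      exact h6
    exact h5
  rw [h4, Matrix.mul_smul]
  have h5 : E k * aeval A q = 0 := by
    refine Matrix.ext_of_mulVec_single fun i => ?_
    rw [← mulVec_mulVec, zero_mulVec]
    apply sum_ker T E hs hi _ hk
    rw [← hAdef, mulVec_mulVec, h2, zero_mulVec]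
  rw [h5, smul_zero]

end Pool.Agent.H88.FL
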