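import Pool.Agent.H88.FL.Core
import Pool.Agent.H88.FL.Idem

/-!
# The matrices of the contractions
-/

open Finset Function

set_option linter.unusedSectionVars false

namespace Pool.Agent.H88.FL

universe u v

section act

variable {K : Type u} [Field K] [CharZero K] {M : Type v} [AddCommGroup M] [Module K M]
  {I : Type} [Fintype I] [DecidableEq I]

/-- The action of rational matrices on functions with values in a vector space. -/
noncomputable def mv (K : Type u) [Field K] [Module K M] (A : Matrix I I ℚ) (w : I → M) : I → M :=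
  fun i => ∑ j, ((A i j : ℚ) : K) • w j

theorem mv_mul (A B : Matrix I I ℚ) (w : I → M) : mv K (A * B) w = mv K A (mv K B w) := by
  funext i
  simp only [mv, Matrix.mul_apply, Finset.smul_sum, smul_smul]
  rw [Finset.sum_comm]
  refine Finset.sum_congr rfl fun j _ => ?_
  rw [← Finset.sum_smul]
  congr 1
  push_cast
  rfl

theorem mv_add (A B : Matrix I I ℚ) (w : I → M) : mv K (A + B) w = mv K A w + mv K B w := by
  funext i
  simp only [mv, Matrix.add_apply, Pi.add_apply, ← Finset.sum_add_distrib]
  refine Finset.sum_congr rfl fun j _ => ?_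
  push_cast
  rw [add_smul]

theorem mv_sub (A B : Matrix I I ℚ) (w : I → M) : mv K (A - B) w = mv K A w - mv K B w := by
  funext i
  simp only [mv, Matrix.sub_apply, Pi.sub_apply, ← Finset.sum_sub_distrib]
  refine Finset.sum_congr rfl fun j _ => ?_
  push_cast
  rw [sub_smul]

theorem mv_smul (q : ℚ) (A : Matrix I I ℚ) (w : I → M) :
    mv K (q • A) w = (q : K) • mv K A w := by
  funext i
  simp only [mv, Matrix.smul_apply, Pi.smul_apply, Finset.smul_sum, smul_smul]
  refine Finset.sum_congr rfl fun j _ => ?_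
  rw [smul_eq_mul]
  push_cast
  rfl

theorem mv_zero (w : I → M) : mv K (0 : Matrix I I ℚ) w = 0 := by
  funext i
  simp [mv]

theorem mv_one (w : I → M) : mv K (1 : Matrix I I ℚ) w = w := by
  funext i
  simp only [mv, Matrix.one_apply]
  rw [Finset.sum_eq_single i]
  · rw [if_pos rfl, Rat.cast_one, one_smul]
  · intro j _ hj
    rw [if_neg (Ne.symm hj), Rat.cast_zero, zero_smul]
  · intro h
    exact absurd (Finset.mem_univ _) h

theorem mv_sum {κ : Type} (T : Finset κ) (A : κ → Matrix I I ℚ) (w : I → M) :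
    mv K (∑ k ∈ T, A k) w = ∑ k ∈ T, mv K (A k) w := by
  classical
  induction T using Finset.induction_on with
  | empty => rw [Finset.sum_empty, Finset.sum_empty, mv_zero]
  | insert a s ha ih => rw [Finset.sum_insert ha, Finset.sum_insert ha, mv_add, ih]

variable {V : Type v} [AddCommGroup V] [Module K V]

/-- The value of a rational polynomial at an operator. -/
noncomputable def pe (p : Polynomial ℚ) (T : Module.End K V) : Module.End K V :=
  Polynomial.aeval T (p.map (algebraMap ℚ K))

theorem pe_pres {p : Polynomial ℚ} {T : Module.End K V} {M : V → Prop} (h0 : M 0)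
    (hadd : ∀ x y, M x → M y → M (x + y)) (hsmul : ∀ (q : ℚ) x, M x → M ((q : K) • x))
    (hT : ∀ x, M x → M (T x)) : ∀ x, M x → M (pe p T x) := by
  induction p using Polynomial.induction_on' with
  | add p q hp hq =>
    intro x hx
    rw [pe, Polynomial.map_add, map_add, LinearMap.add_apply]
    exact hadd _ _ (hp x hx) (hq x hx)
  | monomial n a =>
    intro x hx
    rw [pe, Polynomial.map_monomial, Polynomial.aeval_monomial, Module.End.mul_apply,
      Module.algebraMap_end_apply]
    have h1 : M ((T ^ n) x) := by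
      clear h0 hadd hsmul
      induction n with
      | zero => simpa using hx
      | succ n ih => rw [pow_succ', Module.End.mul_apply]; exact hT _ ih
    exact hsmul a _ h1

theorem pe_commutes {p : Polynomial ℚ} {T : Module.End K V} {U : Module.End K V}
    (h : ∀ x, U (T x) = T (U x)) (x : V) : U (pe p T x) = pe p T (U x) := by
  induction p using Polynomial.induction_on' with
  | add p q hp hq =>
    simp only [pe, Polynomial.map_add, map_add, LinearMap.add_apply] at hp hq ⊢
    rw [hp, hq]
  | monomial n a =>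
    simp only [pe, Polynomial.map_monomial, Polynomial.aeval_monomial, Module.End.mul_apply,
      Module.algebraMap_end_apply, map_smul]
    congr 1
    induction n with
    | zero => simp
    | succ n ih => rw [pow_succ', Module.End.mul_apply, h, ih, Module.End.mul_apply]

theorem pe_coord {p : Polynomial ℚ} {T : Module.End K V} {A : Matrix I I ℚ}
    (cd : V →ₗ[K] (I → M)) (h : ∀ x, cd (T x) = mv K A (cd x)) (x : V) :
    cd (pe p T x) = mv K (Polynomial.aeval A p) (cd x) := by
  induction p using Polynomial.induction_on' with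
  | add p q hp hq =>
    simp only [pe, Polynomial.map_add, map_add, LinearMap.add_apply] at hp hq ⊢
    rw [hp, hq, mv_add]
  | monomial n a =>
    simp only [pe, Polynomial.map_monomial, Polynomial.aeval_monomial, Module.End.mul_apply,
      Module.algebraMap_end_apply, map_smul]
    rw [← Algebra.smul_def, mv_smul, eq_ratCast]
    congr 1
    induction n with
    | zero => rw [pow_zero, pow_zero, mv_one]; rfl
    | succ n ih => rw [pow_succ', Module.End.mul_apply, h, ih, pow_succ', mv_mul]

end act

variable {S : Type} [Fintype S] [DecidableEq S] {ι : Type} [Fintype ι] [DecidableEq ι] {g : ι → ℕ}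

theorem star_star (x : J g) : star (star x) = x := by
  obtain ⟨i, a, s⟩ := x
  simp [star]

/-- the configuration obtained by replacing the pair in the slots `s`, `t` -/
def qq (s t : S) (r : S → J g) (x : Fin (g (r s).1) × Bool) : S → J g :=
  update (update r s ⟨(r s).1, x⟩) t (star ⟨(r s).1, x⟩)

/-- the matrix of the contraction of the slots `s`, `t` -/
def KK (s t : S) : Matrix (S → J g) (S → J g) ℚ := fun r r' =>
  if r t = star (r s) then
    ∑ x, if r' = qq s t r x then
      ((sgn (r s) * sgn (⟨(r s).1, x⟩ : J g) : ℤ) : ℚ) / (2 * g (r s).1) else 0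
  else 0

/-- the condition for a nonzero entry -/
def cond (s t : S) (r r' : S → J g) : Prop :=
  r t = star (r s) ∧ r' t = star (r' s) ∧ (r' s).1 = (r s).1 ∧ ∀ l, l ≠ s → l ≠ t → r' l = r l

instance (s t : S) (r r' : S → J g) : Decidable (cond s t r r') := by
  unfold cond; infer_instance

theorem KK_eq {s t : S} (hst : s ≠ t) (r r' : S → J g) : KK s t r r' =
    if cond s t r r' then ((sgn (r s) * sgn (r' s) : ℤ) : ℚ) / (2 * g (r s).1) else 0 := by
  rw [KK]
  by_cases h1 : r t = star (r s)
  swap
  · rw [if_neg h1, if_neg fun h => h1 h.1]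
  rw [if_pos h1]
  by_cases h2 : cond s t r r'
  · rw [if_pos h2]
    obtain ⟨-, h3, h4, h5⟩ := h2
    obtain ⟨x, hx⟩ : ∃ x, r' s = (⟨(r s).1, x⟩ : J g) := by
      rw [← h4]
      exact ⟨(r' s).2, rfl⟩
    rw [Finset.sum_eq_single x]
    · rw [if_pos, hx]
      funext l
      rw [qq]
      by_cases hl : l = t
      · subst hl
        rw [update_self, h3, hx]
      · rw [update_of_ne hl]
        by_cases hl' : l = s
        · subst hl'
          rw [update_self, hx]
        · rw [update_of_ne hl', h5 l hl' hl]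
    · intro y _ hy
      rw [if_neg]
      intro h6
      apply hy
      have h7 := congrFun h6 s
      rw [qq, update_of_ne hst, update_self, hx] at h7
      have := eq_of_heq (Sigma.mk.inj h7).2
      exact this.symm
    · intro h
      exact absurd (Finset.mem_univ _) h
  · rw [if_neg h2]
    refine Finset.sum_eq_zero fun x _ => ?_
    rw [if_neg]
    rintro rfl
    apply h2
    refine ⟨h1, ?_, ?_, fun l hl hl' => ?_⟩
    · rw [qq, update_self, update_of_ne hst, update_self]
    · rw [qq, update_of_ne hst, update_self]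
    · rw [qq, update_of_ne hl', update_of_ne hl]

theorem KK_symm {s t : S} (hst : s ≠ t) : (KK s t : Matrix (S → J g) (S → J g) ℚ).transpose =
    KK s t := by
  ext r r'
  rw [Matrix.transpose_apply, KK_eq hst, KK_eq hst]
  by_cases h : cond s t r r'
  · have h' : cond s t r' r := ⟨h.2.1, h.1, h.2.2.1.symm, fun l hl hl' => (h.2.2.2 l hl hl').symm⟩
    rw [if_pos h, if_pos h', h.2.2.1, mul_comm]
  · have h' : ¬ cond s t r' r := fun h' => h ⟨h'.2.1, h'.1, h'.2.2.1.symm,
      fun l hl hl' => (h'.2.2.2 l hl hl').symm⟩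
    rw [if_neg h, if_neg h']

theorem mv_KK {K : Type u} [Field K] [CharZero K] {M : Type v} [AddCommGroup M] [Module K M]
    (s t : S) (w : (S → J g) → M) (r : S → J g) :
    mv K (KK s t) w r = if r t = star (r s) then
      ∑ x, ((((sgn (r s) * sgn (⟨(r s).1, x⟩ : J g) : ℤ) : ℚ) / (2 * g (r s).1) : ℚ) : K) •
        w (qq s t r x) else 0 := by
  rw [mv]
  simp only [KK]
  by_cases h : r t = star (r s)
  · simp only [if_pos h]
    have h1 : ∀ r' : S → J g, ((∑ x, (if r' = qq s t r x then
        ((sgn (r s) * sgn (⟨(r s).1, x⟩ : J g) : ℤ) : ℚ) / (2 * g (r s).1) else 0) : ℚ) : K) • w r' =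
        ∑ x, (if r' = qq s t r x then
          ((((sgn (r s) * sgn (⟨(r s).1, x⟩ : J g) : ℤ) : ℚ) / (2 * g (r s).1) : ℚ) : K) • w r'
            else 0) := by
      intro r'
      rw [Rat.cast_sum, Finset.sum_smul]
      refine Finset.sum_congr rfl fun x _ => ?_
      split_ifs
      · rfl
      · rw [Rat.cast_zero, zero_smul]
    rw [Finset.sum_congr rfl fun r' _ => h1 r', Finset.sum_comm]
    refine Finset.sum_congr rfl fun x _ => ?_
    rw [Finset.sum_ite_eq' univ (qq s t r x), if_pos (Finset.mem_univ _)]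
  · simp only [if_neg h, Rat.cast_zero, zero_smul, Finset.sum_const_zero]

theorem mv_KK' {K : Type u} [Field K] [CharZero K] {M : Type v} [AddCommGroup M] [Module K M]
    (s t : S) (w : (S → J g) → M) {r : S → J g} {i : ι} {x0 : Fin (g i) × Bool}
    (h : r s = ⟨i, x0⟩) :
    mv K (KK s t) w r = if r t = star (r s) then
      ∑ x, ((((sgn (r s) * sgn (⟨i, x⟩ : J g) : ℤ) : ℚ) / (2 * g i) : ℚ) : K) •
        w (update (update r s ⟨i, x⟩) t (star ⟨i, x⟩)) else 0 := by
  have hi : (r s).1 = i := by rw [h]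
  subst hi
  exact mv_KK s t w r

theorem sgn_sq (x : J g) : sgn x * sgn x = 1 := by
  rw [sgn]
  split_ifs <;> norm_num

theorem KK_idem {s t : S} (hst : s ≠ t) :
    (KK s t : Matrix (S → J g) (S → J g) ℚ) * KK s t = KK s t := by
  ext r r''
  have h1 : (KK s t * KK s t : Matrix (S → J g) (S → J g) ℚ) r r'' =
      mv ℚ (KK s t) (fun r' => KK s t r' r'') r := by
    rw [Matrix.mul_apply, mv]
    rfl
  rw [h1, mv_KK, KK_eq hst r r'']
  by_cases h : r t = star (r s)
  swap
  · rw [if_neg h, if_neg fun h' => h h'.1]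
  rw [if_pos h]
  have h2 : ∀ x, KK s t (qq s t r x) r'' = if cond s t r r'' then
      ((sgn (⟨(r s).1, x⟩ : J g) * sgn (r'' s) : ℤ) : ℚ) / (2 * g (r s).1) else 0 := by
    intro x
    rw [KK_eq hst]
    have hs : qq s t r x s = ⟨(r s).1, x⟩ := by rw [qq, update_of_ne hst, update_self]
    have ht : qq s t r x t = star ⟨(r s).1, x⟩ := by rw [qq, update_self]
    have hl : ∀ l, l ≠ s → l ≠ t → qq s t r x l = r l := by
      intro l hl hl'
      rw [qq, update_of_ne hl', update_of_ne hl]
    have hiff : cond s t (qq s t r x) r'' ↔ cond s t r r'' := by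
      constructor
      · rintro ⟨-, h4, h5, h6⟩
        refine ⟨h, h4, ?_, fun l h7 h8 => (h6 l h7 h8).trans (hl l h7 h8)⟩
        rw [h5, hs]
      · rintro ⟨-, h4, h5, h6⟩
        refine ⟨by rw [hs, ht], h4, ?_, fun l h7 h8 => (h6 l h7 h8).trans (hl l h7 h8).symm⟩
        rw [h5, hs]
    by_cases h3 : cond s t r r''
    · rw [if_pos (hiff.2 h3), if_pos h3, hs]
    · rw [if_neg fun h' => h3 (hiff.1 h'), if_neg h3]
  simp only [h2]
  by_cases h3 : cond s t r r''
  swap
  · simp only [if_neg h3, smul_zero, Finset.sum_const_zero]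
  simp only [if_pos h3, Rat.cast_id]
  have h4 : ∀ x : Fin (g (r s).1) × Bool,
      (((sgn (r s) * sgn (⟨(r s).1, x⟩ : J g) : ℤ) : ℚ) / (2 * g (r s).1) : ℚ) •
        (((sgn (⟨(r s).1, x⟩ : J g) * sgn (r'' s) : ℤ) : ℚ) / (2 * g (r s).1)) =
      (2 * g (r s).1 : ℚ)⁻¹ * (((sgn (r s) * sgn (r'' s) : ℤ) : ℚ) / (2 * g (r s).1)) := by
    intro x
    have h5 : ((sgn (⟨(r s).1, x⟩ : J g) : ℤ) : ℚ) * ((sgn (⟨(r s).1, x⟩ : J g) : ℤ) : ℚ) = 1 := by
      exact_mod_cast sgn_sq (⟨(r s).1, x⟩ : J g)
    rw [smul_eq_mul]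
    push_cast
    simp only [div_eq_mul_inv]
    linear_combination ((sgn (r s) : ℤ) : ℚ) * ((sgn (r'' s) : ℤ) : ℚ) *
      (2 * (g (r s).1 : ℚ))⁻¹ * (2 * (g (r s).1 : ℚ))⁻¹ * h5
  rw [Finset.sum_congr rfl fun x _ => h4 x, Finset.sum_const, Finset.card_univ,
    Fintype.card_prod, Fintype.card_fin, Fintype.card_bool, nsmul_eq_mul, ← mul_assoc]
  have h6 : (g (r s).1 : ℚ) ≠ 0 := by
    have : g (r s).1 ≠ 0 := by
      intro h0
      have := (r s).2.1.2
      omega
    exact_mod_cast this
  push_cast
  field_simp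

/-- The contractions vanish if the matrix kills the function. -/
theorem contr_zero {K : Type u} [Field K] [CharZero K] {M : Type v} [AddCommGroup M] [Module K M]
    {s t : S} (hst : s ≠ t) {w : (S → J g) → M} (h : mv K (KK s t) w = 0) (i : ι) (r : S → J g) :
    ∑ a, w (update (update r s (pl i a)) t (mi i a)) =
      ∑ a, w (update (update r s (mi i a)) t (pl i a)) := by
  by_cases hg : g i = 0
  · have : ∀ a : Fin (g i), False := fun a => by have := a.2; omega
    rw [Finset.sum_eq_zero fun a _ => (this a).elim, Finset.sum_eq_zero fun a _ => (this a).elim]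
  set ρ := update (update r s (pl i (⟨0, Nat.pos_of_ne_zero hg⟩ : Fin (g i)))) t
    (mi i (⟨0, Nat.pos_of_ne_zero hg⟩ : Fin (g i))) with hρ
  have hs : ρ s = pl i ⟨0, Nat.pos_of_ne_zero hg⟩ := by rw [hρ, update_of_ne hst, update_self]
  have ht : ρ t = mi i ⟨0, Nat.pos_of_ne_zero hg⟩ := by rw [hρ, update_self]
  have h1 := congrFun h ρ
  rw [mv_KK' s t w hs, Pi.zero_apply, if_pos (by rw [hs, ht]; rfl)] at h1
  have h2 : ∀ x y : J g, update (update ρ s x) t y = update (update r s x) t y := by
    intro x y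
    rw [hρ, update_comm hst, update_idem, update_comm hst.symm, update_idem]
  simp only [h2] at h1
  rw [hs, Fintype.sum_prod_type] at h1
  simp only [Fintype.sum_bool] at h1
  have hg' : (g i : K) ≠ 0 := by exact_mod_cast hg
  have h3 : ∀ a : Fin (g i), ((((sgn (pl i (⟨0, Nat.pos_of_ne_zero hg⟩ : Fin (g i))) *
      sgn (⟨i, (a, true)⟩ : J g) : ℤ) : ℚ) / (2 * g i) : ℚ) : K) = (2 * (g i : K))⁻¹ := by
    intro a
    simp [sgn]
  have h4 : ∀ a : Fin (g i), ((((sgn (pl i (⟨0, Nat.pos_of_ne_zero hg⟩ : Fin (g i))) *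
      sgn (⟨i, (a, false)⟩ : J g) : ℤ) : ℚ) / (2 * g i) : ℚ) : K) = -(2 * (g i : K))⁻¹ := by
    intro a
    simp [sgn]
    ring
  simp only [h3, h4] at h1
  rw [Finset.sum_add_distrib, ← Finset.smul_sum, ← Finset.smul_sum, neg_smul, ← sub_eq_add_neg,
    ← smul_sub] at h1
  have h5 := (smul_eq_zero.1 h1).resolve_left (inv_ne_zero (mul_ne_zero two_ne_zero hg'))
  exact sub_eq_zero.1 h5

end Pool.Agent.H88.FL
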