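import Pool.Agent.H88.FL.Geo6
import Pool.Agent.H88.FL.Coord
import Pool.Agent.H88.FL.Mat

/-!
# Coordinates of classes on products of members of a family
-/

open CategoryTheory AlgebraicGeometry Finset Function

set_option linter.unusedSectionVars false

universe u v w

namespace Pool.Agent.H88.FL

open Pool.Agent.H914 Pool.Agent.H914.VarClass Pool.Agent.H914.VarClass.Obj
  Pool.Agent.H914.WeilCohomology Pool.Agent.H281R3.HT Pool.Agent.W552 Pool.Agent.TH132.A

variable {k : Type u} [Field k] {𝒱 : VarClass k} {ops : CycleOps 𝒱}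
  {W : WeilCohomology.{u, v} ops} {Z : Polarized 𝒱} {ι : Type} {P : ι → Polarized 𝒱}

/-- the conditions on the varieties -/
structure Setting (W : WeilCohomology.{u, v} ops) (Z : Polarized 𝒱) {ι : Type}
    (P : ι → Polarized 𝒱) : Prop where
  cycZ : Z.X.IsCyc 1 Z.D
  hardZ : HardLefschetz W Z.X Z.D
  cyc : ∀ i, (P i).X.IsCyc 1 (P i).D
  hard : ∀ i, HardLefschetz W (P i).X (P i).D
  num : ∀ i, HomEqNum W (P i).X
  odd : ∀ i, Odd (P i).X.dim
  mid : ∀ i, transcendental W (P i).X ≤ W.gr (P i).X (P i).X.dim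

section pair

variable {X : 𝒱.Obj} {D : X.Cycles}

theorem div_trans (hD : X.IsCyc 1 D) (hmid : transcendental W X ≤ W.gr X X.dim) {t : W.H X}
    (ht : t ∈ transcendental W X) : W.cl X D * t = 0 := by
  have h1 : W.cl X D * t ∈ transcendental W X := by
    apply trans_of_AS
    intro c hc
    have h2 : AS W X (W.cl X D) := AS.of ⟨D, hD, rfl⟩
    rw [h2.comm, mul_assoc]
    exact trans_AS ht (h2.mul hc)
  have h2 := hmid h1
  have h3 := W.mul_mem (W.cl_mem hD) (hmid ht)
  rw [← proj_same (W.isInternal X) h2, proj_ne (W.isInternal X) h3 (by omega)]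

theorem low_trans (hD : X.IsCyc 1 D) (hmid : transcendental W X ≤ W.gr X X.dim)
    {f : Module.End W.K (W.H X)} (tf : Low W X D f) {t : W.H X}
    (ht : t ∈ transcendental W X) : f t = 0 := by
  refine Sl2.f_eq_zero tf (M := 0) ?_ ?_
  · rw [wt, scal_apply _ _ (hmid ht), node]
    simp
  · rw [zero_add, pow_one, LinearMap.mulLeft_apply]
    exact div_trans hD hmid ht

end pair

/-- the form on the transcendental part -/
noncomputable def bf (W : WeilCohomology.{u, v} ops) (P : ι → Polarized 𝒱) (i : ι) :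
    transcendental W (P i).X →ₗ[W.K] transcendental W (P i).X →ₗ[W.K] W.K :=
  (bil W (P i).X).domRestrict₁₂ (transcendental W (P i).X) (transcendental W (P i).X)

theorem bf_apply (i : ι) (x y : transcendental W (P i).X) :
    bf W P i x y = W.tr (P i).X ((x : W.H (P i).X) * y) := by
  rw [bf, LinearMap.domRestrict₁₂_apply, bil_apply]

/-- the classes with the given components -/
def ev {n : ℕ} (c : Fin n → ι) (v : Fin n → ∀ i, transcendental W (P i).X) (s : Fin n) :
    W.H (P (c s)).X := (v s (c s) : W.H (P (c s)).X)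

theorem Setting.ev_odd (S : Setting W Z P) {n : ℕ} (c : Fin n → ι)
    (v : Fin n → ∀ i, transcendental W (P i).X) (s : Fin n) : OddC W (ev c v s) :=
  ⟨_, S.odd (c s), S.mid (c s) (v s (c s)).2⟩

/-- the multilinear map given by a class -/
noncomputable def FF {n : ℕ} (c : Fin n → ι) (h : W.H (VV ops Z n fun s => P (c s))) :
    MultilinearMap W.K (fun _ : Fin n => ∀ i, transcendental W (P i).X) (W.H Z.X) :=
  (W.push (pz ops Z n fun s => P (c s)) ∘ₗ LinearMap.mulLeft W.K h).compMultilinearMap
    ((MultilinearMap.mkPiAlgebraFin W.K n (W.H (VV ops Z n fun s => P (c s)))).compLinearMap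
      fun s => (W.map (pj ops Z n (fun s => P (c s)) s)).toLinearMap ∘ₗ
        (transcendental W (P (c s)).X).subtype ∘ₗ LinearMap.proj (c s))

theorem FF_apply {n : ℕ} (c : Fin n → ι) (h : W.H (VV ops Z n fun s => P (c s)))
    (v : Fin n → ∀ i, transcendental W (P i).X) :
    FF c h v = W.push (pz ops Z n fun s => P (c s)) (h * lp W Z (ev c v)) := by
  rw [FF, LinearMap.compMultilinearMap_apply, MultilinearMap.compLinearMap_apply,
    MultilinearMap.mkPiAlgebraFin_apply, LinearMap.comp_apply, LinearMap.mulLeft_apply, lp,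
    List.ofFn_eq_map]
  rfl

variable {g : ι → ℕ}

section coord

variable [DecidableEq ι] (b : ∀ i, Module.Basis (Fin (g i) × Bool) W.K (transcendental W (P i).X))

/-- the coordinates of a class -/
noncomputable def cd {n : ℕ} (c : Fin n → ι) : W.H (VV ops Z n fun s => P (c s)) →ₗ[W.K]
    ((Fin n → J g) → W.H Z.X) where
  toFun h r := FF c h fun s => bh b (r s)
  map_add' h h' := by
    funext r
    rw [Pi.add_apply, FF_apply, FF_apply, FF_apply, add_mul, map_add]
  map_smul' c h := by
    funext r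
    rw [RingHom.id_apply, Pi.smul_apply, FF_apply, FF_apply, smul_mul_assoc, map_smul]

theorem cd_apply {n : ℕ} (c : Fin n → ι) (h : W.H (VV ops Z n fun s => P (c s)))
    (r : Fin n → J g) : cd b c h r =
      W.push (pz ops Z n fun s => P (c s)) (h * lp W Z (ev c fun s => bh b (r s))) :=
  FF_apply c h _

theorem lp_eq_zero {n : ℕ} {Q : Fin n → Polarized 𝒱} {x : ∀ s, W.H (Q s).X} {s : Fin n}
    (h : x s = 0) : lp W Z x = 0 := by
  rw [lp]
  apply List.prod_eq_zero
  rw [List.mem_map]
  exact ⟨s, List.mem_finRange s, by rw [h]; exact map_zero _⟩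

theorem cd_supp {n : ℕ} (c : Fin n → ι) (h : W.H (VV ops Z n fun s => P (c s)))
    {r : Fin n → J g} (hr : ∃ s, (r s).1 ≠ c s) : cd b c h r = 0 := by
  obtain ⟨s, hs⟩ := hr
  have h1 : ev c (fun s => bh b (r s)) s = 0 := by
    rw [ev, bh, Pi.single_eq_of_ne (Ne.symm hs)]
    rfl
  rw [cd_apply, lp_eq_zero h1, mul_zero, map_zero]

theorem bf_bh (hb : ∀ i x y, bf W P i (b i x) (b i y) = sf W.K x y) (i : ι) (x y : J g) :
    bf W P i (bh b x i) (bh b y i) = if x.1 = i ∧ y = star x then (sgn x : W.K) else 0 := by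
  obtain ⟨i', a, s⟩ := x
  obtain ⟨j', a', s'⟩ := y
  by_cases h1 : i' = i
  · subst h1
    by_cases h2 : j' = i'
    · subst h2
      rw [bh, bh, Pi.single_eq_same, Pi.single_eq_same, hb]
      by_cases h3 : a = a'
      · subst h3
        cases s <;> cases s' <;> simp [sf, star, sgn]
      · rw [sf, if_neg h3, if_neg]
        rintro ⟨-, h4⟩
        have := congrArg Prod.fst (eq_of_heq (Sigma.mk.inj h4).2)
        exact h3 this.symm
    · rw [if_neg, bh, bh, Pi.single_eq_of_ne (Ne.symm h2), map_zero]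
      rintro ⟨-, h4⟩
      exact h2 (Sigma.mk.inj h4).1
  · rw [if_neg fun h => h1 h.1, bh, Pi.single_eq_of_ne (Ne.symm h1), map_zero]
    rfl

end coord

end Pool.Agent.H88.FL
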