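import Pool.Agent.H88.FL.Geo7

/-!
# The contraction operators in coordinates
-/

open CategoryTheory AlgebraicGeometry Finset Function

set_option linter.unusedSectionVars false

universe u v w

namespace Pool.Agent.H88.FL

open Pool.Agent.H914 Pool.Agent.H914.VarClass Pool.Agent.H914.VarClass.Obj
  Pool.Agent.H914.WeilCohomology Pool.Agent.H281R3.HT Pool.Agent.W552 Pool.Agent.TH132.A

variable {k : Type u} [Field k] {𝒱 : VarClass k} {ops : CycleOps 𝒱}
  {W : WeilCohomology.{u, v} ops} {Z : Polarized 𝒱} {ι : Type} {P : ι → Polarized 𝒱}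

section setting

variable (S : Setting W Z P)

include S

theorem Setting.cycV {n : ℕ} (c : Fin n → ι) : (VV ops Z n fun s => P (c s)).IsCyc 1
    (mixProd ops Z n fun s => P (c s)).D := isCyc_D S.cycZ fun s => S.cyc (c s)

theorem Setting.exists_low {n : ℕ} (c : Fin n → ι) : ∃ F, Low W (VV ops Z n fun s => P (c s))
    (mixProd ops Z n fun s => P (c s)).D F := by
  obtain ⟨g, tg⟩ := TH132.A.exists_low S.cycZ S.hardZ
  exact exists_low_VV tg S.cycZ (fun s => S.cyc (c s))
    fun s => TH132.A.exists_low (S.cyc (c s)) (S.hard (c s))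

theorem Setting.exists_low' (i : ι) : ∃ f, Low W (P i).X (P i).D f ∧ Stable W (P i).X f := by
  obtain ⟨f, tf⟩ := TH132.A.exists_low (S.cyc i) (S.hard i)
  exact ⟨f, tf, stable_of_lefschetzA (S.cyc i) tf
    (lefschetzA_of_D (S.cyc i) (S.hard i) (S.num i))⟩

end setting

/-- the conjecture for the product -/
def LA (W : WeilCohomology.{u, v} ops) (Z : Polarized 𝒱) {ι : Type} (P : ι → Polarized 𝒱)
    {n : ℕ} (c : Fin n → ι) : Prop :=
  LefschetzA W (mixProd ops Z n fun s => P (c s)).X (mixProd ops Z n fun s => P (c s)).D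

theorem Setting.stable (S : Setting W Z P) {n : ℕ} {c : Fin n → ι} (h : LA W Z P c)
    {F : Module.End W.K (W.H (VV ops Z n fun s => P (c s)))}
    (tF : Low W (VV ops Z n fun s => P (c s)) (mixProd ops Z n fun s => P (c s)).D F) :
    Stable W _ F :=
  stable_of_lefschetzA (S.cycV c) tF h

theorem one_ne_rem {n : ℕ} {Q : Fin (n + 1) → Polarized 𝒱} (s : Fin (n + 1))
    (h1 : (1 : W.H (VV ops Z (n + 1) Q)) ≠ 0) :
    (1 : W.H (VV ops Z n fun t => Q (s.succAbove t))) ≠ 0 := by
  intro h
  apply h1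
  have := congrArg (W.map (rem ops Z Q s)) h
  rwa [map_one, map_zero] at this

theorem map_heq {Y : 𝒱.Obj} {j i : ι} (h : j = i) (p : Y ⟶ (P j).X)
    (v : ∀ i, transcendental W (P i).X) :
    W.map p (v j : W.H (P j).X) = W.map (h ▸ p) (v i : W.H (P i).X) := by
  subst h
  rfl

variable {g : ι → ℕ} [Fintype ι] [DecidableEq ι]
  {b : ∀ i, Module.Basis (Fin (g i) × Bool) W.K (transcendental W (P i).X)}

/-- the coefficients in the formula for the coordinates -/
theorem coef_eq (hb : ∀ i x y, bf W P i (b i x) (b i y) = sf W.K x y) {i i' : ι} (hi : i = i')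
    (x y : J g) : ∑ z : Fin (g i) × Bool, (sgn (⟨i, z⟩ : J g) : W.K) *
      (bf W P i (bh b ⟨i, z⟩ i) (bh b x i) * bf W P i' (bh b (star ⟨i, z⟩) i') (bh b y i')) =
      if x.1 = i ∧ y = star x then (sgn x : W.K) else 0 := by
  have h1 : ∀ z : Fin (g i) × Bool, (sgn (⟨i, z⟩ : J g) : W.K) *
      (bf W P i (bh b ⟨i, z⟩ i) (bh b x i) * bf W P i' (bh b (star ⟨i, z⟩) i') (bh b y i')) =
      if x = star ⟨i, z⟩ ∧ y = ⟨i, z⟩ then -(sgn (⟨i, z⟩ : J g) : W.K) else 0 := by
    intro z
    rw [bf_bh b hb, bf_bh b hb, star_star]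
    have h2 : (sgn (star (⟨i, z⟩ : J g)) : ℤ) = -sgn (⟨i, z⟩ : J g) := by
      obtain ⟨a, s⟩ := z
      cases s <;> simp [sgn, star]
    have h3 : ((sgn (⟨i, z⟩ : J g) : ℤ) : W.K) * ((sgn (⟨i, z⟩ : J g) : ℤ) : W.K) = 1 := by
      have := sgn_sq (⟨i, z⟩ : J g)
      exact_mod_cast this
    have h4 : (star (⟨i, z⟩ : J g)).1 = i' := hi
    simp only [true_and, h4]
    by_cases h5 : x = star ⟨i, z⟩
    · by_cases h6 : y = ⟨i, z⟩
      · rw [if_pos h5, if_pos h6, if_pos ⟨h5, h6⟩, h2]
        push_cast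
        linear_combination -((sgn (⟨i, z⟩ : J g) : ℤ) : W.K) * h3
      · rw [if_neg h6, if_neg (show ¬(x = star ⟨i, z⟩ ∧ y = ⟨i, z⟩) from fun h => h6 h.2),
          mul_zero, mul_zero]
    · rw [if_neg h5, if_neg (show ¬(x = star ⟨i, z⟩ ∧ y = ⟨i, z⟩) from fun h => h5 h.1),
        zero_mul, mul_zero]
  rw [Finset.sum_congr rfl fun z _ => h1 z]
  by_cases h2 : x.1 = i ∧ y = star x
  · obtain ⟨h3, h4⟩ := h2
    obtain ⟨j, a, s⟩ := x
    obtain rfl : j = i := h3
    rw [if_pos ⟨rfl, h4⟩, Finset.sum_eq_single (a, !s)]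
    · rw [if_pos]
      · cases s <;> simp [sgn]
      · refine ⟨by simp [star], ?_⟩
        rw [h4]
        rfl
    · intro z _ hz
      rw [if_neg]
      rintro ⟨h5, -⟩
      apply hz
      have h6 := congrArg star h5
      rw [star_star] at h6
      exact (eq_of_heq (Sigma.mk.inj h6).2).symm
    · intro h
      exact absurd (Finset.mem_univ _) h
  · rw [if_neg h2]
    refine Finset.sum_eq_zero fun z _ => ?_
    rw [if_neg]
    rintro ⟨h3, h4⟩
    apply h2
    rw [h3]
    exact ⟨rfl, by rw [star_star]; exact h4⟩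

/-- The action on the cohomology of the product is compatible with the projections. -/
structure Cmp {Γ : Type w} [Group Γ] {n : ℕ} (c : Fin n → ι)
    (ρ : ∀ i, Γ →* (W.H (P i).X ≃ₐ[W.K] W.H (P i).X)) (τ : Γ →* (W.H Z.X ≃ₐ[W.K] W.H Z.X))
    (υ : Γ →* (W.H (VV ops Z n fun s => P (c s)) ≃ₐ[W.K] W.H (VV ops Z n fun s => P (c s)))) :
    Prop where
  pj : ∀ s, TH125.Gal.Intertwines (W.map (pj ops Z n (fun s => P (c s)) s)) (ρ (c s)) υ
  pz : TH125.Gal.Intertwines (W.map (pz ops Z n fun s => P (c s))) τ υ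

theorem gen_act {Γ : Type w} [Group Γ] {n m : ℕ} {c : Fin n → ι} {e : Fin m → Fin n}
    {R : VV ops Z n (fun s => P (c s)) ⟶ VV ops Z m (fun t => P (c (e t)))}
    (hR : ∀ t (x : W.H (P (c (e t))).X),
      W.map R (pi' W Z (Q := fun t => P (c (e t))) t x) = pi' W Z (Q := fun s => P (c s)) (e t) x)
    (hz : ∀ z, W.map R (W.map (pz ops Z m fun t => P (c (e t))) z) =
      W.map (pz ops Z n fun s => P (c s)) z)
    {ρ : ∀ i, Γ →* (W.H (P i).X ≃ₐ[W.K] W.H (P i).X)} {τ : Γ →* (W.H Z.X ≃ₐ[W.K] W.H Z.X)}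
    {υ : Γ →* (W.H (VV ops Z n fun s => P (c s)) ≃ₐ[W.K] W.H (VV ops Z n fun s => P (c s)))}
    {υ' : Γ →* (W.H (VV ops Z m fun t => P (c (e t))) ≃ₐ[W.K]
      W.H (VV ops Z m fun t => P (c (e t))))}
    (h : Cmp c ρ τ υ) (h' : Cmp (fun t => c (e t)) ρ τ υ') :
    TH125.Gal.Intertwines (W.map R) υ' υ := by
  intro g
  have key : (υ g).toLinearMap ∘ₗ (W.map R).toLinearMap =
      (W.map R).toLinearMap ∘ₗ (υ' g).toLinearMap := by
    apply mono_ext
    intro x z
    change υ g (W.map R _) = W.map R (υ' g _)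
    have h1 : ∀ x : (∀ t, W.H (P (c (e t))).X), W.map R (lp W Z x) =
        ((List.finRange m).map fun t => pi' W Z (Q := fun s => P (c s)) (e t) (x t)).prod := by
      intro x
      rw [lp, map_list_prod, List.map_map]
      congr 1
      exact List.map_congr_left fun t _ => hR t (x t)
    have h2 : υ' g (lp W Z x) = lp W Z fun t => ρ (c (e t)) g (x t) := by
      rw [lp, lp, map_list_prod, List.map_map]
      congr 1
      exact List.map_congr_left fun t _ => h'.pj t g _
    rw [map_mul, map_mul, h1, map_mul (υ' g), h2, map_mul, h1, hz, map_list_prod,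
      List.map_map, h'.pz g z, hz, h.pz g z]
    congr 2
    exact List.map_congr_left fun t _ => h.pj (e t) g (x t)
  exact fun a => congrArg (fun L => L a) key

theorem rem_act {Γ : Type w} [Group Γ] {n : ℕ} {c : Fin (n + 1) → ι} (s : Fin (n + 1))
    {ρ : ∀ i, Γ →* (W.H (P i).X ≃ₐ[W.K] W.H (P i).X)} {τ : Γ →* (W.H Z.X ≃ₐ[W.K] W.H Z.X)}
    {υ : Γ →* (W.H (VV ops Z (n + 1) fun s => P (c s)) ≃ₐ[W.K]
      W.H (VV ops Z (n + 1) fun s => P (c s)))}
    {υ' : Γ →* (W.H (VV ops Z n fun t => P (c (s.succAbove t))) ≃ₐ[W.K]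
      W.H (VV ops Z n fun t => P (c (s.succAbove t))))}
    (h : Cmp c ρ τ υ) (h' : Cmp (fun t => c (s.succAbove t)) ρ τ υ') :
    TH125.Gal.Intertwines (W.map (rem ops Z (fun s => P (c s)) s)) υ' υ :=
  gen_act (e := s.succAbove) (rem_pi (Q := fun s => P (c s)) s)
    (rem_pz (Q := fun s => P (c s)) s) h h'

/-- **The contraction operators.** -/
theorem Setting.exists_kdata (S : Setting W Z P)
    (hb : ∀ i x y, bf W P i (b i x) (b i y) = sf W.K x y) {n : ℕ} (c : Fin n → ι)
    (h1 : (1 : W.H (VV ops Z n fun s => P (c s))) ≠ 0) {s t : Fin n} (hst : s ≠ t)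
    (hc : c s = c t) : ∃ (m : ℕ) (c' : Fin m → ι)
      (R : VV ops Z n (fun s => P (c s)) ⟶ VV ops Z m (fun s => P (c' s)))
      (θ : W.H (VV ops Z n fun s => P (c s))) (κ : ℚ) (l : ℕ), m < n ∧ AS W _ θ ∧
      θ ∈ W.gr _ (2 * l) ∧ (VV ops Z n fun s => P (c s)).dim =
        (VV ops Z m fun s => P (c' s)).dim + 2 * l ∧
      (∀ F F', Low W (VV ops Z n fun s => P (c s)) (mixProd ops Z n fun s => P (c s)).D F →
        Low W (VV ops Z m fun s => P (c' s)) (mixProd ops Z m fun s => P (c' s)).D F' →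
        Stable W _ F' → ∀ y, AS W _ y → Good W (LinearMap.mulLeft W.K (W.cl _
        (mixProd ops Z n fun s => P (c s)).D)) F (θ * W.map R y)) ∧
      (∀ {Γ : Type w} [Group Γ] {ρ : ∀ i, Γ →* (W.H (P i).X ≃ₐ[W.K] W.H (P i).X)}
        {τ : Γ →* (W.H Z.X ≃ₐ[W.K] W.H Z.X)} {υ υ'}, Cmp c ρ τ υ → Cmp c' ρ τ υ' →
        TH125.Gal.Intertwines (W.map R) υ' υ) ∧
      ∀ h, cd b c ((κ : W.K) • (θ * W.map R (W.push R (θ * h)))) =
        mv W.K (KK s t) (cd b c h) := by
  match n, c, h1, s, t, hst, hc with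
  | 0, _, _, s, _, _, _ => exact s.elim0
  | 1, _, _, s, t, hst, _ => exact absurd (Subsingleton.elim s t) hst
  | n + 2, c, h1, a, t, hst, hc =>
    obtain ⟨b', rfl⟩ := Fin.exists_succAbove_eq hst.symm
    have h1' := one_ne_rem a h1
    obtain ⟨t, ht0, ht⟩ := exists_rem_push (W := W) a h1
    obtain ⟨t', ht0', ht'⟩ := exists_rem_push (W := W) (Q := fun t => P (c (a.succAbove t))) b' h1'
    set sc : Fin (g (c a)) × Bool → W.K := fun x => (sgn (⟨c a, x⟩ : J g) : W.K) with hsc
    set p : Fin (g (c a)) × Bool → W.H (P (c a)).X :=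
      fun x => ((bh b ⟨c a, x⟩ (c a) : transcendental W (P (c a)).X) : W.H (P (c a)).X) with hp
    set q : Fin (g (c a)) × Bool → W.H (P (c (a.succAbove b'))).X :=
      fun x => ((bh b (star ⟨c a, x⟩) (c (a.succAbove b')) :
        transcendental W (P (c (a.succAbove b'))).X) : W.H (P (c (a.succAbove b'))).X) with hq
    have hpo : ∀ x, OddC W (p x) := fun x => ⟨_, S.odd _, S.mid _ (bh b ⟨c a, x⟩ (c a)).2⟩
    have hqo : ∀ x, OddC W (q x) := fun x =>
      ⟨_, S.odd _, S.mid _ (bh b (star ⟨c a, x⟩) (c (a.succAbove b'))).2⟩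
    set θ := th W Z (Q := fun t => P (c t)) a b' sc p q with hθ
    -- the class is algebraic
    have hθA : AS W _ θ := by
      have h2 := theta_AS (Y := VV ops Z (n + 2) fun t => P (c t)) (S.num (c a)) (S.odd (c a))
        (S.mid (c a)) (e := fun x => ((b (c a) x : transcendental W (P (c a)).X) :
          W.H (P (c a)).X)) (fun x => (b (c a) x).2)
        (fun x y => by rw [← bf_apply, hb]) (by
          intro y hy
          have h3 : (⟨y, hy⟩ : transcendental W (P (c a)).X) ∈
            Submodule.span W.K (Set.range (b (c a))) := by rw [(b (c a)).span_eq]; trivial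
          have h4 := Submodule.mem_map_of_mem (f := (transcendental W (P (c a)).X).subtype) h3
          rw [Submodule.map_span, ← Set.range_comp] at h4
          exact h4)
        (pj ops Z (n + 2) (fun t => P (c t)) a)
        (hc ▸ pj ops Z (n + 2) (fun t => P (c t)) (a.succAbove b'))
      convert h2 using 1
      rw [hθ, th]
      refine Finset.sum_congr rfl fun x _ => ?_
      have e1 : pi' W Z (Q := fun t => P (c t)) a (p x) =
          W.map (pj ops Z (n + 2) (fun t => P (c t)) a) ((b (c a) x :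
            transcendental W (P (c a)).X) : W.H (P (c a)).X) := by
        rw [hp, pi']
        beta_reduce
        rw [bh, Pi.single_eq_same]
      have e2 : pi' W Z (Q := fun t => P (c t)) (a.succAbove b') (q x) =
          W.map (hc ▸ pj ops Z (n + 2) (fun t => P (c t)) (a.succAbove b')) ((b (c a) (st x) :
            transcendental W (P (c a)).X) : W.H (P (c a)).X) := by
        rw [hq, pi']
        beta_reduce
        rw [map_heq hc.symm, bh]
        have h5 : (Pi.single (star (⟨c a, x⟩ : J g)).1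
            (b (star (⟨c a, x⟩ : J g)).1 (star (⟨c a, x⟩ : J g)).2) :
            ∀ i, transcendental W (P i).X) (c a) = b (c a) (st x) := Pi.single_eq_same _ _
        rw [h5]
      rw [e1, e2]
      rfl
    have e0 : (P (c (a.succAbove b'))).X.dim = (P (c a)).X.dim := by rw [hc]
    refine ⟨n, fun t => c (a.succAbove (b'.succAbove t)), rr ops Z (fun t => P (c t)) a b', θ,
      -(2 * (g (c a) : ℚ) * (t * t'))⁻¹, (P (c a)).X.dim, by omega, hθA, ?_, ?_, ?_, ?_, ?_⟩
    · rw [hθ, th]
      refine Submodule.sum_mem _ fun x _ => Submodule.smul_mem _ _ ?_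
      have h2 := W.mul_mem (W.map_mem (pj ops Z (n + 2) (fun t => P (c t)) a)
        (S.mid _ (bh b ⟨c a, x⟩ (c a)).2))
        (W.map_mem (pj ops Z (n + 2) (fun t => P (c t)) (a.succAbove b'))
        (S.mid _ (bh b (star ⟨c a, x⟩) (c (a.succAbove b'))).2))
      rw [e0, ← two_mul] at h2
      exact h2
    · have h4 := dim_VV_succ (ops := ops) (Z := Z) (Q := fun t => P (c t)) a
      have h5 := dim_VV_succ (ops := ops) (Z := Z) (Q := fun t => P (c (a.succAbove t))) b'
      rw [h4, h5, e0]
      ring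
    · intro F F'' tF tF'' hF'' y hy
      obtain ⟨F', tF'⟩ := S.exists_low fun t => c (a.succAbove t)
      obtain ⟨f, tf, -⟩ := S.exists_low' (c a)
      obtain ⟨f', tf', -⟩ := S.exists_low' (c (a.succAbove b'))
      refine good_th tF tf tf' tF' tF'' (S.cycV _) (S.cycV _) (fun x => ?_) (fun x => ?_)
        (fun x => ?_) (fun x => ?_) hθA hF'' hy
      · exact low_trans (S.cyc _) (S.mid _) tf (bh b ⟨c a, x⟩ (c a)).2
      · exact low_trans (S.cyc _) (S.mid _) tf' (bh b (star ⟨c a, x⟩) (c (a.succAbove b'))).2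
      · exact div_trans (S.cyc _) (S.mid _) (bh b ⟨c a, x⟩ (c a)).2
      · exact div_trans (S.cyc _) (S.mid _) (bh b (star ⟨c a, x⟩) (c (a.succAbove b'))).2
    · intro Γ _ ρ τ υ υ' hυ hυ'
      refine gen_act (e := fun t => a.succAbove (b'.succAbove t)) (fun t x => ?_) (fun z => ?_)
        hυ hυ'
      · rw [rr, W.map_comp]
        have h2 := rem_pi (W := W) (Z := Z) (Q := fun t => P (c (a.succAbove t))) b' t x
        rw [h2]
        exact rem_pi (W := W) (Z := Z) (Q := fun t => P (c t)) a (b'.succAbove t) x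
      · rw [rr, W.map_comp]
        have h2 := rem_pz (W := W) (Z := Z) (Q := fun t => P (c (a.succAbove t))) b' z
        rw [h2]
        exact rem_pz (W := W) (Z := Z) (Q := fun t => P (c t)) a z
    · intro h
      funext r
      have hne : a ≠ a.succAbove b' := (Fin.succAbove_ne a b').symm
      have key := KO_coord (W := W) (Z := Z) (Q := fun t => P (c t)) (a := a) (b := b')
        (sc := sc) (p := p) (q := q) ht ht' hpo hqo (x := ev c fun s => bh b (r s))
        (S.ev_odd c _) (X := fun y => ev c fun s => bh b (update (update r a ⟨c a, y⟩)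
          (a.succAbove b') (star ⟨c a, y⟩) s)) (fun y => S.ev_odd c _)
        (fun y => by rw [ev, update_of_ne hne, update_self])
        (fun y => by rw [ev, update_self])
        (fun y t => by
          rw [ev, ev, update_of_ne, update_of_ne]
          · exact Fin.succAbove_ne a _
          · exact fun h => Fin.succAbove_ne b' t (Fin.succAbove_right_injective h)) h
      rw [map_smul, Pi.smul_apply, cd_apply, ← KO_apply, key]
      have hcoef := coef_eq (b := b) hb hc (r a) (r (a.succAbove b'))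
      have h2 : ∑ i, sc i * (W.tr (P (c a)).X (p i * ev c (fun s => bh b (r s)) a) *
          W.tr (P (c (a.succAbove b'))).X (q i * ev c (fun s => bh b (r s)) (a.succAbove b'))) =
          if (r a).1 = c a ∧ r (a.succAbove b') = star (r a) then (sgn (r a) : W.K) else 0 := by
        rw [← hcoef]
        refine Finset.sum_congr rfl fun x _ => ?_
        rw [bf_apply, bf_apply]
        rfl
      rw [h2]
      have h3 : ∀ i, W.push (pz ops Z (n + 2) fun t => P (c t)) (h * lp W Z
          (ev c fun s => bh b (update (update r a ⟨c a, i⟩)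
            (a.succAbove b') (star ⟨c a, i⟩) s))) = cd b c h (update (update r a ⟨c a, i⟩)
              (a.succAbove b') (star ⟨c a, i⟩)) := fun i => (cd_apply _ _ _ _).symm
      rw [Finset.sum_congr rfl fun i _ => congrArg (fun z => sc i • z) (h3 i)]
      by_cases hra : (r a).1 = c a
      · obtain ⟨x0, hx0⟩ : ∃ x0, r a = (⟨c a, x0⟩ : J g) := by
          rw [← hra]
          exact ⟨(r a).2, rfl⟩
        rw [mv_KK' a (a.succAbove b') _ hx0]
        by_cases hrb : r (a.succAbove b') = star (r a)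
        · rw [if_pos ⟨hra, hrb⟩, if_pos hrb, smul_smul, Finset.smul_sum]
          refine Finset.sum_congr rfl fun y _ => ?_
          rw [smul_smul]
          congr 1
          have hg : (g (c a) : W.K) ≠ 0 := by
            have : g (c a) ≠ 0 := by
              intro h0
              have := y.1.2
              omega
            exact_mod_cast this
          have hT : (t : W.K) ≠ 0 := by exact_mod_cast ht0
          have hT' : (t' : W.K) ≠ 0 := by exact_mod_cast ht0'
          rw [hsc]
          push_cast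
          field_simp
        · rw [if_neg fun h => hrb h.2, if_neg hrb, mul_zero, zero_smul, smul_zero]
      · rw [if_neg fun h => hra h.1, mul_zero, zero_smul, smul_zero, mv_KK]
        split_ifs
        · symm
          refine Finset.sum_eq_zero fun x _ => ?_
          rw [cd_supp b c h ⟨a, ?_⟩, smul_zero]
          rw [qq, update_of_ne hne, update_self]
          exact hra
        · rfl

end Pool.Agent.H88.FL
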