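import Pool.Agent.H88.FL.Geo8

/-!
# The action of the group and the spaces of multilinear forms
-/

open CategoryTheory AlgebraicGeometry Finset Function

set_option linter.unusedSectionVars false

universe u v w

namespace Pool.Agent.H88.FL

open Pool.Agent.H914 Pool.Agent.H914.VarClass Pool.Agent.H914.VarClass.Obj
  Pool.Agent.H914.WeilCohomology Pool.Agent.H281R3.HT Pool.Agent.W552 Pool.Agent.TH132.A
  Pool.Agent.TH125.Gal

variable {k : Type u} [Field k] {𝒱 : VarClass k} {ops : CycleOps 𝒱}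
  {W : WeilCohomology.{u, v} ops} {Γ : Type w} [Group Γ] {χ : Γ →* W.Kˣ}

section act

variable {X : 𝒱.Obj} {ρ : Γ →* (W.H X ≃ₐ[W.K] W.H X)}

/-- the properties of a Galois action -/
abbrev GA (χ : Γ →* W.Kˣ) (X : 𝒱.Obj) (ρ : Γ →* (W.H X ≃ₐ[W.K] W.H X)) : Prop :=
  IsGaloisAct χ (W.gr X) X.dim (W.tr X) (algClasses W X) ρ

theorem act_inv (ρ : Γ →* (W.H X ≃ₐ[W.K] W.H X)) (g : Γ) (a : W.H X) :
    ρ g (ρ g⁻¹ a) = a := by
  rw [← AlgEquiv.mul_apply, ← map_mul, mul_inv_cancel, map_one]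
  rfl

theorem act_algSpan (h : GA χ X ρ) (g : Γ) {c : W.H X} (hc : c ∈ algSpan W X) :
    ρ g c ∈ algSpan W X := by
  rw [algSpan] at hc
  induction hc using Submodule.span_induction with
  | mem c hc =>
    obtain ⟨j, hj⟩ := Set.mem_iUnion.1 hc
    obtain ⟨c', hc', h1⟩ := h.cl_act g j c hj
    rw [h1]
    exact Submodule.smul_mem _ _ (Submodule.subset_span (Set.mem_iUnion.2 ⟨j, hc'⟩))
  | zero => rw [map_zero]; exact Submodule.zero_mem _
  | add x y _ _ hx hy => rw [map_add]; exact Submodule.add_mem _ hx hy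
  | smul q x _ hx => rw [map_smul]; exact Submodule.smul_mem _ _ hx

theorem act_trans (h : GA χ X ρ) (g : Γ) {t : W.H X} (ht : t ∈ transcendental W X) :
    ρ g t ∈ transcendental W X := by
  apply trans_of_AS
  intro c hc
  have h1 := h.tr_act g (t * ρ g⁻¹ c)
  rw [map_mul, act_inv, trans_span ht (act_algSpan h g⁻¹ (AS_span hc)), mul_zero] at h1
  exact h1

/-- the action on the transcendental part -/
noncomputable def rhoT (h : GA χ X ρ) :
    Γ →* (transcendental W X →ₗ[W.K] transcendental W X) where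
  toFun g := (ρ g).toLinearMap.restrict fun _ ht => act_trans h g ht
  map_one' := by
    apply LinearMap.ext
    intro t
    apply Subtype.ext
    change ρ 1 (t : W.H X) = t
    rw [map_one]
    rfl
  map_mul' g g' := by
    apply LinearMap.ext
    intro t
    apply Subtype.ext
    change ρ (g * g') (t : W.H X) = ρ g (ρ g' (t : W.H X))
    rw [map_mul]
    rfl

theorem rhoT_apply (h : GA χ X ρ) (g : Γ) (t : transcendental W X) :
    (rhoT h g t : W.H X) = ρ g t := rfl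

theorem SI_rhoT (h : GA χ X ρ) (hI : IrredAct ρ (transcendental W X)) : SI (rhoT h) := by
  intro Δ hΔ U hU
  rcases hI Δ hΔ (U.map (transcendental W X).subtype) (by
    rintro _ ⟨y, _, rfl⟩
    exact y.2) (by
    rintro g hg _ ⟨y, hy, rfl⟩
    exact ⟨rhoT h g y, hU g hg y hy, rfl⟩) with h1 | h1
  · left
    rw [eq_bot_iff]
    intro y hy
    have h2 : (y : W.H X) ∈ U.map (transcendental W X).subtype := ⟨y, hy, rfl⟩
    rw [h1, Submodule.mem_bot] at h2
    rw [Submodule.mem_bot]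
    exact Subtype.ext h2
  · right
    rw [eq_top_iff]
    intro y _
    have h2 : (y : W.H X) ∈ U.map (transcendental W X).subtype := by rw [h1]; exact y.2
    obtain ⟨z, hz, hzy⟩ := h2
    rwa [Subtype.ext hzy] at hz

/-- the direct image is equivariant up to a scalar -/
theorem push_act {Y : 𝒱.Obj} {τ : Γ →* (W.H Y ≃ₐ[W.K] W.H Y)} (h : GA χ X ρ) (h' : GA χ Y τ)
    {f : X ⟶ Y} (hf : Intertwines (W.map f) τ ρ) (g : Γ) :
    ∃ m : W.K, ∀ x, W.push f (ρ g x) = m • τ g (W.push f x) := by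
  have hχ : ((χ g : W.K) ^ Y.dim) ≠ 0 := pow_ne_zero _ (Units.ne_zero _)
  refine ⟨(χ g : W.K) ^ X.dim * ((χ g : W.K) ^ Y.dim)⁻¹, fun x => ?_⟩
  apply W.tr_ext
  intro z
  have h1 : W.tr X (ρ g x * W.map f z) = (χ g : W.K) ^ X.dim * W.tr Y (W.push f x * τ g⁻¹ z) := by
    rw [W.tr_push, ← h.tr_act, map_mul (ρ g), hf g, act_inv]
  have h2 : W.tr Y (τ g (W.push f x) * z) =
      (χ g : W.K) ^ Y.dim * W.tr Y (W.push f x * τ g⁻¹ z) := by
    rw [← h'.tr_act, map_mul (τ g), act_inv]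
  rw [W.tr_push, h1, smul_mul_assoc, map_smul, h2, smul_eq_mul]
  field_simp

end act

/-- the variety with the divisor -/
abbrev gp {ι : Type} (X : ι → GVar W Γ) (D : ∀ i, (X i).X.Cycles) (i : ι) : Polarized 𝒱 :=
  ⟨(X i).X, D i⟩

theorem exists_act {G : Set (GVar W Γ)} (hG : GaloisClass χ G) {ι : Type} {X : ι → GVar W Γ}
    {D : ∀ i, (X i).X.Cycles} (hX : ∀ i, X i ∈ G) {Z : GVar W Γ} (hZ : Z ∈ G)
    {E : Z.X.Cycles} {n : ℕ} : ∀ (c : Fin n → ι),
    ∃ υ : Γ →* (W.H (VV ops ⟨Z.X, E⟩ n fun s => gp X D (c s)) ≃ₐ[W.K]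
      W.H (VV ops ⟨Z.X, E⟩ n fun s => gp X D (c s))),
      (⟨VV ops ⟨Z.X, E⟩ n fun s => gp X D (c s), υ⟩ : GVar W Γ) ∈ G ∧
      Cmp (P := gp X D) (Z := ⟨Z.X, E⟩) c (fun i => (X i).act) Z.act υ := by
  induction n with
  | zero =>
    intro c
    refine ⟨Z.act, hZ, fun s => s.elim0, fun g a => ?_⟩
    have h1 : ∀ z, W.map (pz ops ⟨Z.X, E⟩ 0 fun s => gp X D (c s)) z = z := fun z =>
      W.map_id _ _
    exact (congrArg (Z.act g) (h1 a)).trans (h1 (Z.act g a)).symm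
  | succ n ih =>
    intro c
    obtain ⟨υ, hυ, ⟨hυs, hυz⟩⟩ := ih fun t => c t.succ
    obtain ⟨C, hC, hCp⟩ := hG.prod _ (hX (c 0)) _ hυ
    obtain ⟨υ', h1, h2⟩ := hCp
    refine ⟨υ', hC, fun s => ?_, fun g a => ?_⟩
    · refine Fin.cases ?_ (fun s => ?_) s
      · exact h1
      · intro g a
        have e1 : ∀ a, W.map (pj ops ⟨Z.X, E⟩ (n + 1) (fun s => gp X D (c s)) s.succ) a =
            W.map (snd (X (c 0)).X (VV ops ⟨Z.X, E⟩ n fun t => gp X D (c t.succ)))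
              (W.map (pj ops ⟨Z.X, E⟩ n (fun t => gp X D (c t.succ)) s) a) :=
          fun a => W.map_comp _ _ _
        rw [e1, e1]
        have h3 := h2 g (W.map (pj ops ⟨Z.X, E⟩ n (fun t => gp X D (c t.succ)) s) a)
        have h4 := hυs s g a
        exact h3.trans (congrArg _ h4)
    · have e1 : ∀ a, W.map (pz ops ⟨Z.X, E⟩ (n + 1) (fun s => gp X D (c s))) a =
          W.map (snd (X (c 0)).X (VV ops ⟨Z.X, E⟩ n fun t => gp X D (c t.succ)))
            (W.map (pz ops ⟨Z.X, E⟩ n (fun t => gp X D (c t.succ))) a) :=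
        fun a => W.map_comp _ _ _
      rw [e1, e1]
      have h3 := h2 g (W.map (pz ops ⟨Z.X, E⟩ n (fun t => gp X D (c t.succ))) a)
      have h4 := hυz g a
      exact h3.trans (congrArg _ h4)

section forms

variable {Z : Polarized 𝒱} {ι : Type} {P : ι → Polarized 𝒱} {n : ℕ} {c : Fin n → ι}
  {ρ : ∀ i, Γ →* (W.H (P i).X ≃ₐ[W.K] W.H (P i).X)} (hρ : ∀ i, GA χ (P i).X (ρ i))
  {τ : Γ →* (W.H Z.X ≃ₐ[W.K] W.H Z.X)}
  {υ : Γ →* (W.H (VV ops Z n fun s => P (c s)) ≃ₐ[W.K] W.H (VV ops Z n fun s => P (c s)))}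

theorem lp_act (hs : Cmp c ρ τ υ) (g : Γ) (v : Fin n → ∀ i, transcendental W (P i).X) :
    lp W Z (ev c fun s => rhoP (fun i => rhoT (hρ i)) g (v s)) = υ g (lp W Z (ev c v)) := by
  rw [lp, lp, map_list_prod, List.map_map]
  congr 1
  refine List.map_congr_left fun s _ => ?_
  exact (hs.pj s g _).symm

theorem FF_act (hs : Cmp c ρ τ υ) (hυ : GA χ _ υ) (hτ : GA χ Z.X τ) {h : W.H (VV ops Z n fun s => P (c s))} {g : Γ} {μ : W.K} (hμ : μ ≠ 0)
    (hh : υ g h = μ • h) : ∃ m : W.K, ∀ v : Fin n → ∀ i, transcendental W (P i).X,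
      FF c h (fun s => rhoP (fun i => rhoT (hρ i)) g (v s)) = m • τ g (FF c h v) := by
  obtain ⟨m, hm⟩ := push_act hυ hτ hs.pz g
  refine ⟨μ⁻¹ * m, fun v => ?_⟩
  have h1 : h = μ⁻¹ • υ g h := by rw [hh, smul_smul, inv_mul_cancel₀ hμ, one_smul]
  rw [FF_apply, FF_apply, lp_act hρ hs]
  conv_lhs => rw [h1]
  rw [smul_mul_assoc, map_smul, ← map_mul (υ g), hm, smul_smul]

end forms

end Pool.Agent.H88.FL
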