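import Pool.Agent.H88.FL.PDefs2

/-!
# The level is larger than the number of factors
-/

open Finset

namespace Pool.Agent.H88.FL

theorem one_add_sum_le_prod {α : Type} [DecidableEq α] (s : Finset α) (f : α → ℕ) :
    1 + ∑ i ∈ s, f i ≤ ∏ i ∈ s, (f i + 1) := by
  induction s using Finset.induction_on with
  | empty => simp
  | insert a s ha ih =>
    rw [Finset.sum_insert ha, Finset.prod_insert ha]
    nlinarith [Nat.zero_le (f a * ∑ i ∈ s, f i)]

theorem lt_level {ι : Type} [DecidableEq ι] {n : ℕ} (c : Fin n → ι) : n < level c := by
  have h1 := one_add_sum_le_prod (univ.image c) fun i => (univ.filter fun s => c s = i).card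
  have h2 := Finset.card_eq_sum_card_image c (univ : Finset (Fin n))
  rw [card_univ, Fintype.card_fin] at h2
  rw [level]
  omega

end Pool.Agent.H88.FL
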