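import Mathlib

/-!
# The symplectic Lie algebra from a transvection and an irreducible group

A variant, for an arbitrary Lie algebra of skew operators which is normalized by the group, of the
argument of `Pool.Agent.TH125.Gal` (module `TH125.Gal.Final`).
-/

open Finset Function

set_option linter.unusedSectionVars false

namespace Pool.Agent.H88.FL

universe u v w x

variable {K : Type u} [Field K] [CharZero K] {T : Type v} [AddCommGroup T] [Module K T]
  {G : Type x} [Group G] {B : T →ₗ[K] T →ₗ[K] K} {ρ : G →* (T →ₗ[K] T)}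

/-- skew operators -/
def Skew (B : T →ₗ[K] T →ₗ[K] K) (X : T →ₗ[K] T) : Prop := ∀ x y, B (X x) y + B x (X y) = 0

/-- the operator `x ↦ B a x • b` -/
def rk (B : T →ₗ[K] T →ₗ[K] K) (a b : T) : T →ₗ[K] T := (B a).smulRight b

@[simp] theorem rk_apply (a b x : T) : rk B a b x = B a x • b := rfl

/-- A Lie algebra of skew operators which is normalized by the group. -/
structure IsLie (B : T →ₗ[K] T →ₗ[K] K) (ρ : G →* (T →ₗ[K] T)) (L : Submodule K (T →ₗ[K] T)) :
    Prop where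
  skew : ∀ X ∈ L, Skew B X
  bracket : ∀ X ∈ L, ∀ Y ∈ L, X ∘ₗ Y - Y ∘ₗ X ∈ L
  conj : ∀ X ∈ L, ∀ γ, ρ γ ∘ₗ X ∘ₗ ρ γ⁻¹ ∈ L

/-- Every subspace which is stable under a subgroup of finite index is trivial. -/
def SI (ρ : G →* (T →ₗ[K] T)) : Prop :=
  ∀ Δ : Subgroup G, Δ.FiniteIndex → ∀ U : Submodule K T, (∀ g ∈ Δ, ∀ x ∈ U, ρ g x ∈ U) →
    U = ⊥ ∨ U = ⊤

theorem rho_inv (ρ : G →* (T →ₗ[K] T)) (γ : G) (x : T) : ρ γ (ρ γ⁻¹ x) = x := by
  rw [← Module.End.mul_apply, ← map_mul, mul_inv_cancel, map_one]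
  rfl

theorem rho_inv' (ρ : G →* (T →ₗ[K] T)) (γ : G) (x : T) : ρ γ⁻¹ (ρ γ x) = x := by
  rw [← Module.End.mul_apply, ← map_mul, inv_mul_cancel, map_one]
  rfl

theorem rho_mul_apply (ρ : G →* (T →ₗ[K] T)) (γ γ' : G) (x : T) : ρ (γ * γ') x = ρ γ (ρ γ' x) := by
  rw [map_mul]
  rfl

/-- the stabilizer -/
def stab (ρ : G →* (T →ₗ[K] T)) (U : Submodule K T) : Subgroup G where
  carrier := {γ | (∀ x ∈ U, ρ γ x ∈ U) ∧ ∀ x ∈ U, ρ γ⁻¹ x ∈ U}
  one_mem' := by
    refine ⟨fun x hx => ?_, fun x hx => ?_⟩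
    · rw [map_one]; exact hx
    · rw [inv_one, map_one]; exact hx
  mul_mem' := by
    rintro a b ⟨ha, ha'⟩ ⟨hb, hb'⟩
    refine ⟨fun x hx => ?_, fun x hx => ?_⟩
    · rw [rho_mul_apply]; exact ha _ (hb _ hx)
    · rw [mul_inv_rev, rho_mul_apply]; exact hb' _ (ha' _ hx)
  inv_mem' := by
    rintro a ⟨ha, ha'⟩
    refine ⟨ha', fun x hx => ?_⟩
    rw [inv_inv]
    exact ha x hx

/-- the orbit lemma -/
theorem orbit_top [Module.Finite K T] {μ : G → K} (hμ : ∀ g, μ g ≠ 0)
    (hrf : ∀ x y, B x y = 0 → B y x = 0)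
    (hB : ∀ g x y, B (ρ g x) (ρ g y) = μ g * B x y) (hSI : SI ρ) {U : Submodule K T}
    {u u' : T} (hu : u ∈ U) (hu' : u' ∈ U) (huu : B u u' ≠ 0)
    (hU : ∀ γ : G, (∀ x ∈ U, ρ γ x ∈ U) ∨ ∀ x ∈ U, ∀ y ∈ U, B (ρ γ x) y = 0) : U = ⊤ := by
  have horth : ∀ q q' : G ⧸ stab ρ U, q ≠ q' → ∀ x ∈ U, ∀ y ∈ U,
      B (ρ q.out x) (ρ q'.out y) = 0 := by
    intro q q' hqq x hx y hy
    have h1 : q'.out⁻¹ * q.out ∉ stab ρ U := by
      intro h
      apply hqq
      have h2 := QuotientGroup.eq.2 h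
      rw [QuotientGroup.out_eq', QuotientGroup.out_eq'] at h2
      exact h2.symm
    have e1 : B (ρ q.out x) (ρ q'.out y) = μ q'.out * B (ρ (q'.out⁻¹ * q.out) x) y := by
      rw [← hB, rho_mul_apply, rho_inv]
    have e2 : B (ρ q'.out y) (ρ q.out x) = μ q.out * B (ρ (q.out⁻¹ * q'.out) y) x := by
      rw [← hB, rho_mul_apply, rho_inv]
    rcases hU (q'.out⁻¹ * q.out) with h2 | h2
    · rcases hU (q.out⁻¹ * q'.out) with h3 | h3
      · exfalso
        apply h1
        refine ⟨h2, fun z hz => ?_⟩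
        rw [mul_inv_rev, inv_inv]
        exact h3 z hz
      · apply hrf
        rw [e2, h3 y hy x hx, mul_zero]
    · rw [e1, h2 x hx y hy, mul_zero]
  have hli : LinearIndependent K (fun q : G ⧸ stab ρ U => ρ q.out u) := by
    rw [linearIndependent_iff']
    intro s c hc q hq
    have h1 := congrArg (fun z => B z (ρ q.out u')) hc
    simp only [map_zero, LinearMap.zero_apply, map_sum, LinearMap.sum_apply, map_smul,
      LinearMap.smul_apply, smul_eq_mul] at h1
    rw [Finset.sum_eq_single q] at h1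
    · rw [hB] at h1
      rcases mul_eq_zero.1 h1 with h | h
      · exact h
      · exact absurd h (mul_ne_zero (hμ _) huu)
    · intro q' _ hqq
      rw [horth q' q hqq u hu u' hu', mul_zero]
    · intro h
      exact absurd hq h
  have hfin : Finite (G ⧸ stab ρ U) := hli.finite
  have hfi : (stab ρ U).FiniteIndex := Subgroup.finiteIndex_of_finite_quotient
  rcases hSI _ hfi U (fun g hg x hx => hg.1 x hx) with h | h
  · rw [h, Submodule.mem_bot] at hu
    rw [hu, map_zero] at huu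
    exact absurd rfl huu
  · exact h

/-- conjugates -/
theorem rk_conj {μ : G → K} (hμ : ∀ g, μ g ≠ 0)
    (hB : ∀ g x y, B (ρ g x) (ρ g y) = μ g * B x y) (γ : G) (a b : T) :
    ρ γ ∘ₗ rk B a b ∘ₗ ρ γ⁻¹ = (μ γ)⁻¹ • rk B (ρ γ a) (ρ γ b) := by
  apply LinearMap.ext
  intro x
  rw [LinearMap.comp_apply, LinearMap.comp_apply, rk_apply, map_smul, LinearMap.smul_apply,
    rk_apply, smul_smul]
  congr 1
  have h1 := hB γ a (ρ γ⁻¹ x)
  rw [rho_inv] at h1
  rw [h1, ← mul_assoc, inv_mul_cancel₀ (hμ γ), one_mul]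

/-- brackets with skew operators -/
theorem rk_bracket {A : T →ₗ[K] T} (hA : Skew B A) (a b : T) :
    A ∘ₗ rk B a b - rk B a b ∘ₗ A = rk B a (A b) + rk B (A a) b := by
  apply LinearMap.ext
  intro x
  simp only [LinearMap.sub_apply, LinearMap.comp_apply, rk_apply, LinearMap.add_apply, map_smul]
  have h1 := hA a x
  have h2 : B (A a) x = - B a (A x) := eq_neg_of_add_eq_zero_left h1
  rw [h2, neg_smul, sub_eq_add_neg]

variable {L : Submodule K (T →ₗ[K] T)}

/-- the operator `a b` -/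
def ss (B : T →ₗ[K] T →ₗ[K] K) (a b : T) : T →ₗ[K] T := rk B a b + rk B b a

theorem ss_apply (a b x : T) : ss B a b x = B a x • b + B b x • a := rfl

theorem ss_comm (a b : T) : ss B a b = ss B b a := add_comm _ _

theorem ss_add_left (a a' b : T) : ss B (a + a') b = ss B a b + ss B a' b := by
  apply LinearMap.ext
  intro x
  simp only [ss_apply, LinearMap.add_apply, map_add]
  module

theorem ss_add_right (a b b' : T) : ss B a (b + b') = ss B a b + ss B a b' := by
  rw [ss_comm, ss_add_left, ss_comm b, ss_comm b']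

theorem ss_smul_left (c : K) (a b : T) : ss B (c • a) b = c • ss B a b := by
  apply LinearMap.ext
  intro x
  simp only [ss_apply, LinearMap.smul_apply, map_smul, smul_eq_mul]
  module

theorem ss_smul_right (c : K) (a b : T) : ss B a (c • b) = c • ss B a b := by
  rw [ss_comm, ss_smul_left, ss_comm]

theorem ss_bracket {A : T →ₗ[K] T} (hA : Skew B A) (a b : T) :
    A ∘ₗ ss B a b - ss B a b ∘ₗ A = ss B (A a) b + ss B a (A b) := by
  have h1 := rk_bracket hA a b
  have h2 := rk_bracket hA b a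
  rw [ss, ss, ss, LinearMap.comp_add, LinearMap.add_comp, add_sub_add_comm, h1, h2]
  abel

theorem ss_conj (hL : IsLie B ρ L) {μ : G → K} (hμ : ∀ g, μ g ≠ 0)
    (hB : ∀ g x y, B (ρ g x) (ρ g y) = μ g * B x y) (γ : G) {a b : T}
    (h : ss B a b ∈ L) : ss B (ρ γ a) (ρ γ b) ∈ L := by
  have h1 := hL.conj _ h γ
  have h2 : ρ γ ∘ₗ ss B a b ∘ₗ ρ γ⁻¹ = (μ γ)⁻¹ • ss B (ρ γ a) (ρ γ b) := by
    rw [ss, ss, smul_add, ← rk_conj hμ hB, ← rk_conj hμ hB, LinearMap.add_comp,
      LinearMap.comp_add]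
  rw [h2] at h1
  have h3 := Submodule.smul_mem _ (μ γ) h1
  rwa [smul_smul, mul_inv_cancel₀ (hμ γ), one_smul] at h3

section odd

variable (hsk : ∀ x y, B x y = -B y x) (hnd : ∀ x, (∀ y, B x y = 0) → x = 0) {μ : G → K}
  (hμ : ∀ g, μ g ≠ 0) (hB : ∀ g x y, B (ρ g x) (ρ g y) = μ g * B x y)

/-- the products with a new vector -/
theorem ss_step (hL : IsLie B ρ L) {U : Submodule K T} (hU : ∀ u ∈ U, ∀ u' ∈ U, ss B u u' ∈ L) {u1 v w : T}
    (hu1 : u1 ∈ U) (hβ : B u1 v ≠ 0) (hwv : ss B w v ∈ L)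
    (hUv : ∀ u ∈ U, ss B (ss B u u1 w) v ∈ L) {u : T} (hu : u ∈ U) :
    ss B w u ∈ L := by
  have key : ∀ u ∈ U, B u v • ss B w u1 + B u1 v • ss B w u ∈ L := by
    intro u hu
    have h1 := hL.bracket _ (hU u hu u1 hu1) _ hwv
    rw [ss_bracket (hL.skew _ (hU u hu u1 hu1))] at h1
    have h2 := Submodule.sub_mem _ h1 (hUv u hu)
    rw [add_sub_cancel_left, ss_apply u u1 v, ss_add_right, ss_smul_right, ss_smul_right] at h2
    exact h2
  have h1 : ss B w u1 ∈ L := by
    have h2 := key u1 hu1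
    rw [← add_smul, ← two_mul] at h2
    have h3 := Submodule.smul_mem _ (2 * B u1 v)⁻¹ h2
    rwa [smul_smul, inv_mul_cancel₀ (mul_ne_zero two_ne_zero hβ), one_smul] at h3
  have h2 := Submodule.sub_mem _ (key u hu) (Submodule.smul_mem _ (B u v) h1)
  rw [add_sub_cancel_left] at h2
  have h3 := Submodule.smul_mem _ (B u1 v)⁻¹ h2
  rwa [smul_smul, inv_mul_cancel₀ hβ, one_smul] at h3

include hsk hnd hμ hB in
/-- **the symplectic Lie algebra** -/
theorem odd_full (hL : IsLie B ρ L) [Module.Finite K T] (hSI : SI ρ) {δ : T} (hδ0 : δ ≠ 0)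
    (hδ : rk B δ δ ∈ L) (a b : T) : ss B a b ∈ L := by
  have hδδ : ss B δ δ ∈ L := Submodule.add_mem _ hδ hδ
  have hgg : ∀ γ, ss B (ρ γ δ) (ρ γ δ) ∈ L := fun γ => ss_conj hL hμ hB γ hδδ
  obtain ⟨U, ⟨hUδ, hU⟩, hmax⟩ := (inferInstance : WellFoundedGT (Submodule K T)).wf.has_min
    {U | δ ∈ U ∧ ∀ u ∈ U, ∀ u' ∈ U, ss B u u' ∈ L} ⟨Submodule.span K {δ}, by
      refine ⟨Submodule.mem_span_singleton_self δ, fun u hu u' hu' => ?_⟩
      obtain ⟨c, rfl⟩ := Submodule.mem_span_singleton.1 hu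
      obtain ⟨c', rfl⟩ := Submodule.mem_span_singleton.1 hu'
      rw [ss_smul_left, ss_smul_right]
      exact Submodule.smul_mem _ _ (Submodule.smul_mem _ _ hδδ)⟩
  have hext : ∀ V : Submodule K T, (∀ v ∈ V, ∀ v' ∈ V, ss B v v' ∈ L) →
      (∀ u ∈ U, ∀ v ∈ V, ss B u v ∈ L) → V ≤ U := by
    intro V h1 h2
    by_contra hVU
    refine hmax (U ⊔ V) ⟨Submodule.mem_sup_left hUδ, fun x hx y hy => ?_⟩ ?_
    · obtain ⟨u, hu, v, hv, rfl⟩ := Submodule.mem_sup.1 hx
      obtain ⟨u', hu', v', hv', rfl⟩ := Submodule.mem_sup.1 hy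
      rw [ss_add_left, ss_add_right, ss_add_right]
      refine Submodule.add_mem _ (Submodule.add_mem _ (hU u hu u' hu') (h2 u hu v' hv'))
        (Submodule.add_mem _ ?_ (h1 v hv v' hv'))
      rw [ss_comm]
      exact h2 u' hu' v hv
    · exact lt_of_le_of_ne le_sup_left (fun h => hVU (h ▸ le_sup_right))
  -- the dichotomy
  have hdi : ∀ γ, (∃ u ∈ U, B u (ρ γ δ) ≠ 0) → ρ γ δ ∈ U := by
    rintro γ ⟨u1, hu1, hβ⟩
    have h1 : Submodule.span K {ρ γ δ} ≤ U := by
      refine hext _ (fun v hv v' hv' => ?_) (fun u hu v hv => ?_)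
      · obtain ⟨c, rfl⟩ := Submodule.mem_span_singleton.1 hv
        obtain ⟨c', rfl⟩ := Submodule.mem_span_singleton.1 hv'
        rw [ss_smul_left, ss_smul_right]
        exact Submodule.smul_mem _ _ (Submodule.smul_mem _ _ (hgg γ))
      · obtain ⟨c, rfl⟩ := Submodule.mem_span_singleton.1 hv
        rw [ss_smul_right]
        refine Submodule.smul_mem _ _ ?_
        -- the bracket with the square
        have key : ∀ u ∈ U, B u (ρ γ δ) • ss B u1 (ρ γ δ) + B u1 (ρ γ δ) • ss B u (ρ γ δ) ∈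
            L := by
          intro u hu
          have h1 := hL.bracket _ (hU u hu u1 hu1) _ (hgg γ)
          rw [ss_bracket (hL.skew _ (hU u hu u1 hu1)), ss_comm (ρ γ δ) (ss B u u1 (ρ γ δ)), ← two_smul K,
            ss_apply u u1, ss_add_left, ss_smul_left, ss_smul_left] at h1
          have h2 := Submodule.smul_mem _ (2 : K)⁻¹ h1
          rwa [smul_smul, inv_mul_cancel₀ two_ne_zero, one_smul] at h2
        have h1 : ss B u1 (ρ γ δ) ∈ L := by
          have h2 := key u1 hu1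
          rw [← add_smul, ← two_mul] at h2
          have h3 := Submodule.smul_mem _ (2 * B u1 (ρ γ δ))⁻¹ h2
          rwa [smul_smul, inv_mul_cancel₀ (mul_ne_zero two_ne_zero hβ), one_smul] at h3
        have h2 := Submodule.sub_mem _ (key u hu) (Submodule.smul_mem _ (B u (ρ γ δ)) h1)
        rw [add_sub_cancel_left] at h2
        have h3 := Submodule.smul_mem _ (B u1 (ρ γ δ))⁻¹ h2
        rwa [smul_smul, inv_mul_cancel₀ hβ, one_smul] at h3
    exact h1 (Submodule.mem_span_singleton_self _)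
  -- the orbit spans
  have hst : ∀ g ∈ (⊤ : Subgroup G), ∀ x ∈ Submodule.span K (Set.range fun γ => ρ γ δ),
      ρ g x ∈ Submodule.span K (Set.range fun γ => ρ γ δ) := by
    intro g _ x hx
    induction hx using Submodule.span_induction with
    | mem x hx =>
      obtain ⟨γ, rfl⟩ := hx
      exact Submodule.subset_span ⟨g * γ, rho_mul_apply ρ g γ δ⟩
    | zero => rw [map_zero]; exact Submodule.zero_mem _
    | add x y _ _ hx hy => rw [map_add]; exact Submodule.add_mem _ hx hy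
    | smul a x _ hx => rw [map_smul]; exact Submodule.smul_mem _ a hx
  have hspan : Submodule.span K (Set.range fun γ => ρ γ δ) = ⊤ := by
    rcases hSI ⊤ inferInstance _ hst with h | h
    · exfalso
      apply hδ0
      have h1 : ρ 1 δ ∈ Submodule.span K (Set.range fun γ => ρ γ δ) :=
        Submodule.subset_span ⟨1, rfl⟩
      rw [h, Submodule.mem_bot, map_one] at h1
      exact h1
    · exact h
  -- nondegenerate
  have hUnd : ∀ r ∈ U, (∀ u ∈ U, B r u = 0) → r = 0 := by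
    intro r hr h1
    apply hnd
    intro y
    have hy : y ∈ Submodule.span K (Set.range fun γ => ρ γ δ) := by
      rw [hspan]; exact Submodule.mem_top
    induction hy using Submodule.span_induction with
    | mem y hy =>
      obtain ⟨γ, rfl⟩ := hy
      by_contra h2
      exact h2 (h1 _ (hdi γ ⟨r, hr, h2⟩))
    | zero => rw [map_zero]
    | add x y _ _ hx hy => rw [map_add, hx, hy, add_zero]
    | smul a x _ hx => rw [map_smul, hx, smul_zero]
  -- generated by the vectors of the orbit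
  have hUgen : ∀ u ∈ U, u ∈ Submodule.span K {v | v ∈ U ∧ ∃ γ, ρ γ δ = v} := by
    intro u hu
    have hy : u ∈ Submodule.span K (Set.range fun γ => ρ γ δ) := by
      rw [hspan]; exact Submodule.mem_top
    have h1 : ∀ y ∈ Submodule.span K (Set.range fun γ => ρ γ δ),
        ∃ y1 ∈ Submodule.span K {v | v ∈ U ∧ ∃ γ, ρ γ δ = v}, ∃ y2, (∀ u ∈ U, B u y2 = 0) ∧
          y = y1 + y2 := by
      intro y hy
      induction hy using Submodule.span_induction with
      | mem y hy =>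
        obtain ⟨γ, rfl⟩ := hy
        by_cases h2 : ρ γ δ ∈ U
        · exact ⟨ρ γ δ, Submodule.subset_span ⟨h2, γ, rfl⟩, 0, fun u _ => map_zero _,
            (add_zero _).symm⟩
        · refine ⟨0, Submodule.zero_mem _, ρ γ δ, fun u hu => ?_, (zero_add _).symm⟩
          by_contra h3
          exact h2 (hdi γ ⟨u, hu, h3⟩)
      | zero => exact ⟨0, Submodule.zero_mem _, 0, fun u _ => map_zero _, (add_zero _).symm⟩
      | add x y _ _ hx hy =>
        obtain ⟨x1, hx1, x2, hx2, rfl⟩ := hx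
        obtain ⟨y1, hy1, y2, hy2, rfl⟩ := hy
        refine ⟨x1 + y1, Submodule.add_mem _ hx1 hy1, x2 + y2, fun u hu => ?_, by abel⟩
        rw [map_add, hx2 u hu, hy2 u hu, add_zero]
      | smul a x _ hx =>
        obtain ⟨x1, hx1, x2, hx2, rfl⟩ := hx
        refine ⟨a • x1, Submodule.smul_mem _ a hx1, a • x2, fun u hu => ?_, smul_add _ _ _⟩
        rw [map_smul, hx2 u hu, smul_zero]
    obtain ⟨y1, hy1, y2, hy2, hyy⟩ := h1 u hy
    have h2 : y1 ∈ U := (Submodule.span_le.2 fun v hv => hv.1) hy1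
    have h3 : y2 ∈ U := by
      have : y2 = u - y1 := by rw [hyy, add_sub_cancel_left]
      rw [this]
      exact Submodule.sub_mem _ hu h2
    have h4 : y2 = 0 := hUnd y2 h3 fun u hu => by rw [hsk, hy2 u hu, neg_zero]
    rw [hyy, h4, add_zero]
    exact hy1
  have hU0 : ∃ u1 ∈ U, B δ u1 ≠ 0 := by
    by_contra hcon
    push Not at hcon
    exact hδ0 (hUnd δ hUδ hcon)
  obtain ⟨u0, hu0, hδu0⟩ := hU0
  have htop : U = ⊤ := by
    refine orbit_top hμ (fun x y h => by rw [hsk, h, neg_zero]) hB hSI hUδ hu0 hδu0 fun γ => ?_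
    by_contra hcon
    push Not at hcon
    obtain ⟨⟨x, hx, hx'⟩, y, hy, z, hz, hyz⟩ := hcon
    apply hx'
    -- a vector of the orbit in both spaces
    obtain ⟨v, hv, hvz⟩ : ∃ v ∈ {v | v ∈ U ∧ ∃ γ, ρ γ δ = v}, B (ρ γ v) z ≠ 0 := by
      by_contra hcon
      push Not at hcon
      apply hyz
      have h1 : ∀ y ∈ Submodule.span K {v | v ∈ U ∧ ∃ γ, ρ γ δ = v}, B (ρ γ y) z = 0 := by
        intro y hy
        induction hy using Submodule.span_induction with
        | mem y hy => exact hcon y hy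
        | zero => rw [map_zero, map_zero, LinearMap.zero_apply]
        | add x y _ _ hx hy => rw [map_add, map_add, LinearMap.add_apply, hx, hy, add_zero]
        | smul a x _ hx => rw [map_smul, map_smul, LinearMap.smul_apply, hx, smul_zero]
      exact h1 y (hUgen y hy)
    obtain ⟨hvU, γ', rfl⟩ := hv
    have hv' : ρ γ (ρ γ' δ) ∈ U := by
      rw [← rho_mul_apply]
      refine hdi _ ⟨z, hz, ?_⟩
      rw [rho_mul_apply, hsk]
      exact neg_ne_zero.2 hvz
    have h1 : U.map (ρ γ) ≤ U := by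
      refine hext _ ?_ ?_
      · rintro _ ⟨w, hw, rfl⟩ _ ⟨w', hw', rfl⟩
        exact ss_conj hL hμ hB γ (hU w hw w' hw')
      · rintro u hu _ ⟨w, hw, rfl⟩
        rw [ss_comm]
        refine ss_step hL hU hz (v := ρ γ (ρ γ' δ)) ?_ (ss_conj hL hμ hB γ (hU w hw _ hvU)) ?_ hu
        · rw [hsk]
          exact neg_ne_zero.2 hvz
        · intro u hu
          refine hU _ ?_ _ hv'
          rw [ss_apply]
          exact Submodule.add_mem _ (Submodule.smul_mem _ _ hz) (Submodule.smul_mem _ _ hu)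
    exact h1 ⟨x, hx, rfl⟩
  exact hU a (by rw [htop]; exact Submodule.mem_top) b (by rw [htop]; exact Submodule.mem_top)

end odd

end Pool.Agent.H88.FL
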