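import Pool.Agent.H88.L.H281R3.HT.Defs

/-!
# Products of a variety with a sequence of varieties: definitions
-/

open CategoryTheory AlgebraicGeometry

universe u v w

namespace Pool.Agent.H88.FL

open Pool.Agent.H914 Pool.Agent.H914.VarClass Pool.Agent.H914.VarClass.Obj
  Pool.Agent.H914.WeilCohomology Pool.Agent.H281R3.HT

variable {k : Type u} [Field k] {𝒱 : VarClass k}

/-- The product `Q 0 × (Q 1 × ( ⋯ × (Q (n - 1) × Z)))`, with the sum of the pull-backs of the
divisors. -/
noncomputable def mixProd (ops : CycleOps 𝒱) (Z : Polarized 𝒱) :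
    (n : ℕ) → (Fin n → Polarized 𝒱) → Polarized 𝒱
  | 0, _ => Z
  | n + 1, Q => (Q 0).prod ops (mixProd ops Z n fun t => Q t.succ)

end Pool.Agent.H88.FL
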