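import Pool.Agent.H88.FL.Geo13

/-!
# The conjecture A for the products
-/

open CategoryTheory AlgebraicGeometry Finset Function

set_option linter.unusedSectionVars false

universe u v w

namespace Pool.Agent.H88.FL

open Pool.Agent.H914 Pool.Agent.H914.VarClass Pool.Agent.H914.VarClass.Obj
  Pool.Agent.H914.WeilCohomology Pool.Agent.H281R3.HT Pool.Agent.W552 Pool.Agent.TH132.A
  Pool.Agent.TH125.Gal

variable {k : Type u} [Field k] {𝒱 : VarClass k} {ops : CycleOps 𝒱}
  {W : WeilCohomology.{u, v} ops} {Z : Polarized 𝒱} {ι : Type} {P : ι → Polarized 𝒱} {n : ℕ}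
  {c : Fin n → ι} [Fintype ι] [DecidableEq ι] {g : ι → ℕ}
  {b : ∀ i, Module.Basis (Fin (g i) × Bool) W.K (transcendental W (P i).X)}
  {Γ : Type w} [Group Γ] {χ : Γ →* W.Kˣ}
  {ρ : ∀ i, Γ →* (W.H (P i).X ≃ₐ[W.K] W.H (P i).X)} {τ : Γ →* (W.H Z.X ≃ₐ[W.K] W.H Z.X)}
  {υ : Γ →* (W.H (VV ops Z n fun s => P (c s)) ≃ₐ[W.K] W.H (VV ops Z n fun s => P (c s)))}

/-- **Classes with few forms.** -/
theorem Setting.good_small (S : Setting W Z P) (H : ActP χ P ρ)
    (hb : ∀ i x y, bf W P i (b i x) (b i y) = sf W.K x y) (hτ : GA χ Z.X τ) (hn : 0 < n)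
    (hυ : Cmp c ρ τ υ) (hGA : GA χ _ υ)
    {F : Module.End W.K (W.H (VV ops Z n fun s => P (c s)))}
    (tF : Low W (VV ops Z n fun s => P (c s)) (mixProd ops Z n fun s => P (c s)).D F)
    (h1 : (1 : W.H (VV ops Z n fun s => P (c s))) ≠ 0)
    (ih : ∀ m < n, ∀ c' : Fin m → ι, LA W Z P c')
    {j : ℕ} {h : W.H (VV ops Z n fun s => P (c s))} (hh : h ∈ algClasses W _ j)
    (hsm : ∀ e, 2 * j = e + ∑ s, (P (c s)).X.dim → ∀ e' ≤ e, e' + e ≤ 2 * Z.X.dim →
      Even (e + e') → primRank W Z.X Z.D e' <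
        ∏ i, ((univ.filter fun s => c s = i).card + 1)) :
    Good W (LL W Z P c) F h := by
  obtain ⟨I, _, T, r, hT, htr⟩ := S.exists_traceless.{u, v, w} hb (c := c) h1
  set A : Module.End W.K (W.H (VV ops Z n fun s => P (c s))) := ∑ p, T p with hAdef
  have hAG : ∀ x, AS W _ x → Good W (LL W Z P c) F (A x) := by
    intro x hx
    rw [hAdef, LinearMap.sum_apply]
    exact Good.ratSub.sum _ fun p _ => (hT p).good S tF ih hx
  have hAgr : ∀ l, ∀ x ∈ W.gr _ l, A x ∈ W.gr _ l := by
    intro l x hx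
    rw [hAdef, LinearMap.sum_apply]
    exact Submodule.sum_mem _ fun p _ => (hT p).gr hx
  have hpA : ∀ x, AS W _ x → AS W _ (pe r A x) :=
    pe_pres AS.zero (fun x y hx hy => hx.add hy) (fun q x hx => hx.smul q)
      fun x hx => (hAG x hx).as
  have hpgr : ∀ x ∈ W.gr _ (2 * j), pe r A x ∈ W.gr _ (2 * j) :=
    pe_pres (Submodule.zero_mem _) (fun x y hx hy => Submodule.add_mem _ hx hy)
      (fun q x hx => Submodule.smul_mem _ _ hx) fun x hx => hAgr _ x hx
  have hcomm : pe r A (A h) = A (pe r A h) := (pe_commutes (U := A) (fun x => rfl) h).symm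
  have hG : Good W (LL W Z P c) F (pe r A (A h)) := by
    rw [hcomm]
    exact hAG _ (hpA _ (AS.of hh))
  set h' := h - pe r A (A h) with hh'
  have hA' : AS W _ h' := AS.ratSub.sub (AS.of hh) hG.as
  have hgr' : h' ∈ W.gr _ (2 * j) :=
    Submodule.sub_mem _ (alg_gr hh) (hpgr _ (hAgr _ _ (alg_gr hh)))
  have h2 : Good W (LL W Z P c) F h' := S.good_of_FF c tF h1 ih hA' <|
    S.FF_vanish H hb hτ hn hυ hGA hgr' (hGA.cl_fix j h' (hA'.alg hgr'))
      (fun s t hst hct => htr s t hst hct h) hsm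
  have h3 : h = h' + pe r A (A h) := by rw [hh']; abel
  rw [h3]
  exact h2.add hG

theorem Setting.even_sum (S : Setting W Z P) (c : Fin n → ι) :
    Even (∑ s, (P (c s)).X.dim + n) := by
  have h1 : ∑ s : Fin n, (P (c s)).X.dim + n = ∑ s : Fin n, ((P (c s)).X.dim + 1) := by
    rw [Finset.sum_add_distrib, Finset.sum_const, Finset.card_univ, Fintype.card_fin, smul_eq_mul,
      mul_one]
  rw [h1]
  exact Finset.even_sum _ fun s _ => (S.odd (c s)).add_odd odd_one

/-- **The induction step.** -/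
theorem Setting.stepA (S : Setting W Z P) (H : ActP χ P ρ)
    (hb : ∀ i x y, bf W P i (b i x) (b i y) = sf W.K x y) (hτ : GA χ Z.X τ) (hn : 0 < n)
    (hυ : Cmp c ρ τ υ) (hGA : GA χ _ υ)
    (h1 : (1 : W.H (VV ops Z n fun s => P (c s))) ≠ 0)
    (ih : ∀ m < n, ∀ c' : Fin m → ι, LA W Z P c')
    (hsm : ∀ e < Z.X.dim, Even (n + e) → primRank W Z.X Z.D e <
      ∏ i, ((univ.filter fun s => c s = i).card + 1)) : LA W Z P c := by
  obtain ⟨F, tF⟩ := S.exists_low c
  have hdim : (VV ops Z n fun s => P (c s)).dim = ∑ s, (P (c s)).X.dim + Z.X.dim := dim_VV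
  have hev := S.even_sum c
  have key : ∀ j, 2 * j ≠ (VV ops Z n fun s => P (c s)).dim → ∀ h ∈ algClasses W _ j,
      Good W (LL W Z P c) F h := by
    intro j hj h hh
    refine S.good_small H hb hτ hn hυ hGA tF h1 ih hh fun e he e' he' h2 h3 =>
      hsm e' (by omega) ?_
    rw [Nat.even_iff] at hev h3 ⊢
    omega
  refine lefschetzA_of_stable (S.cycV c) tF fun x hx => ?_
  refine AS.ind (p := fun x => AS W _ (F x)) ?_
    (fun x y hx hy => by rw [map_add]; exact hx.add hy) hx
  intro j x hx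
  by_cases hj : 2 * j = (VV ops Z n fun s => P (c s)).dim
  swap
  · exact (key j hj x hx).mF.as
  -- the middle degree
  have hLx : LL W Z P c x ∈ algClasses W _ (1 + j) := by
    rw [LinearMap.mulLeft_apply]
    exact alg_mul ⟨_, S.cycV c, rfl⟩ hx
  have hG := key (1 + j) (by omega) _ hLx
  have hwx : wt (W.isInternal (VV ops Z n fun s => P (c s)))
      (VV ops Z n fun s => P (c s)).dim x = 0 := by
    rw [wt, scal_apply _ _ (alg_gr hx), node, hj]
    simp
  have he : ∀ y (a : W.K), wt (W.isInternal (VV ops Z n fun s => P (c s)))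
      (VV ops Z n fun s => P (c s)).dim y = a • y →
      wt (W.isInternal (VV ops Z n fun s => P (c s))) (VV ops Z n fun s => P (c s)).dim
        (LL W Z P c y) = (a + 2) • LL W Z P c y := by
    intro y a hy
    have h2 := congrArg (fun u => u y) tF.he
    simp only [LinearMap.sub_apply, Module.End.mul_apply, two_end, hy, map_smul] at h2
    rw [sub_eq_iff_eq_add] at h2
    rw [h2, add_smul, two_smul]
    abel
  have hf : ∀ y (a : W.K), wt (W.isInternal (VV ops Z n fun s => P (c s)))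
      (VV ops Z n fun s => P (c s)).dim y = a • y →
      wt (W.isInternal (VV ops Z n fun s => P (c s))) (VV ops Z n fun s => P (c s)).dim
        (F y) = (a - 2) • F y := by
    intro y a hy
    have h2 := congrArg (fun u => u y) tF.hf
    simp only [LinearMap.sub_apply, Module.End.mul_apply, LinearMap.neg_apply, two_end, hy,
      map_smul] at h2
    rw [sub_eq_iff_eq_add] at h2
    rw [h2, sub_smul, two_smul]
    abel
  obtain ⟨z, ⟨hz1, hz2⟩, hz3⟩ := exists_preimage' tF (P := fun δ y => Good W (LL W Z P c) F y ∧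
      wt (W.isInternal (VV ops Z n fun s => P (c s))) (VV ops Z n fun s => P (c s)).dim y =
        (δ : W.K) • y) (fun d => ⟨Good.zero, by rw [map_zero, smul_zero]⟩)
    (fun hx hy => ⟨hx.1.add hy.1, by rw [map_add, hx.2, hy.2, smul_add]⟩)
    (fun q d x hx => ⟨hx.1.smul q, by rw [map_smul, hx.2, smul_comm]⟩)
    (fun {d x} hx => ⟨hx.1.mL, by
      have := he x _ hx.2
      rw [this]
      push_cast
      rfl⟩)
    (fun {d x} hx => ⟨hx.1.mF, by
      have := hf x _ hx.2
      rw [this]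
      push_cast
      rfl⟩) (fun hx => hx.2) 2 (y := LL W Z P c x) ⟨hG, by
      have := he x 0 (by rw [hwx, zero_smul])
      rw [this]
      push_cast
      rw [zero_add]⟩
  set L := LL W Z P c with hL
  have h2 : F (x - L z) = 0 := by
    refine Sl2.f_eq_zero tF (M := 0) ?_ ?_
    · have h3 := he z _ hz2
      rw [map_sub, hwx]
      change 0 - wt (W.isInternal (VV ops Z n fun s => P (c s)))
        (VV ops Z n fun s => P (c s)).dim (L z) = _
      rw [h3]
      push_cast
      simp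
    · rw [zero_add, pow_one, map_sub]
      change L x - L (L z) = 0
      rw [← hz3, pow_two]
      exact sub_self _
  rw [map_sub, sub_eq_zero] at h2
  rw [h2]
  exact hz1.mL.mF.as

end Pool.Agent.H88.FL
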