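import Pool.Agent.H88.FL.StepA
import Pool.Agent.H88.FL.PDefs2

/-!
# The conjecture A for all products
-/

open CategoryTheory AlgebraicGeometry Finset Function

set_option linter.unusedSectionVars false

universe u v w

namespace Pool.Agent.H88.FL

open Pool.Agent.H914 Pool.Agent.H914.VarClass Pool.Agent.H914.VarClass.Obj
  Pool.Agent.H914.WeilCohomology Pool.Agent.H281R3.HT Pool.Agent.W552 Pool.Agent.TH132.A
  Pool.Agent.TH125.Gal

variable {k : Type u} [Field k] {𝒱 : VarClass k} {ops : CycleOps 𝒱}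
  {W : WeilCohomology.{u, v} ops} {Γ : Type w} [Group Γ] {χ : Γ →* W.Kˣ} {G : Set (GVar W Γ)}
  {ι : Type} {X : ι → GVar W Γ} {D : ∀ i, (X i).X.Cycles} {Z : GVar W Γ} {E : Z.X.Cycles}

/-- the conjecture A for varieties without cohomology -/
theorem lefschetzA_of_zero {X : 𝒱.Obj} (h : (1 : W.H X) = 0) (D : X.Cycles) :
    LefschetzA W X D := by
  intro j _ z _
  refine ⟨0, SmVar.IsCyc.zero _ _, ?_⟩
  have h1 : ∀ a : W.H X, a = 0 := fun a => by rw [← one_mul a, h, zero_mul]
  rw [h1 (W.cl _ _), h1 (W.cl _ _)]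

theorem OddFamily.setting (h : OddFamily χ G X D) (hE : Z.X.IsCyc 1 E)
    (hH : HardLefschetz W Z.X E) : Setting W ⟨Z.X, E⟩ (gp X D) where
  cycZ := hE
  hardZ := hH
  cyc := h.div
  hard := h.hard
  num := h.homEqNum
  odd := h.odd
  mid := h.middle

theorem OddFamily.actP (h : OddFamily χ G X D) : ActP χ (gp X D) fun i => (X i).act where
  ga i := h.galoisClass.galois _ (h.mem i)
  irr := h.irreducible
  node := h.node

theorem OddFamily.comp (h : OddFamily χ G X D) {κ : Type} (f : κ → ι) (hf : Injective f) :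
    OddFamily χ G (fun i => X (f i)) (fun i => D (f i)) where
  galoisClass := h.galoisClass
  mem i := h.mem _
  odd i := h.odd _
  div i := h.div _
  hard i := h.hard _
  homEqNum i := h.homEqNum _
  middle i := h.middle _
  irreducible i := h.irreducible _
  node i := by
    obtain ⟨g, h1, h2⟩ := h.node (f i)
    exact ⟨g, h1, fun j hj => h2 _ fun h3 => hj (hf h3)⟩

/-- The case of finitely many varieties. -/
theorem OddFamily.finite_case [Fintype ι] [DecidableEq ι] (h : OddFamily χ G X D) (hZ : Z ∈ G)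
    (hE : Z.X.IsCyc 1 E) (hH : HardLefschetz W Z.X E) (hLZ : LefschetzA W Z.X E)
    (hs : ∀ n, 0 < n → ∀ c : Fin n → ι, (∃ e < Z.X.dim, Even (n + e) ∧
      ∏ i, ((univ.filter fun s => c s = i).card + 1) ≤ primRank W Z.X E e) →
        LA W ⟨Z.X, E⟩ (gp X D) c) (n : ℕ) :
    ∀ c : Fin n → ι, LA W ⟨Z.X, E⟩ (gp X D) c := by
  induction n using Nat.strong_induction_on with
  | _ n ih =>
    intro c
    rcases Nat.eq_zero_or_pos n with rfl | hn
    · exact hLZ
    by_cases h1 : (1 : W.H (VV ops ⟨Z.X, E⟩ n fun s => gp X D (c s))) = 0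
    · exact lefschetzA_of_zero h1 _
    by_cases h2 : ∃ e < Z.X.dim, Even (n + e) ∧
      ∏ i, ((univ.filter fun s => c s = i).card + 1) ≤ primRank W Z.X E e
    · exact hs n hn c h2
    obtain ⟨υ, hυ, hc⟩ := exists_act (E := E) (D := D) h.galoisClass h.mem hZ c
    obtain ⟨g, b, hb⟩ := (h.setting hE hH).exists_bases
    refine (h.setting hE hH).stepA h.actP hb (h.galoisClass.galois _ hZ) hn hc
      (h.galoisClass.galois _ hυ) h1 ih fun e he hev => ?_
    by_contra h3
    exact h2 ⟨e, he, hev, not_lt.1 h3⟩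

/-- **The finite level theorem for the conjecture A.** -/
theorem OddFamily.lefschetzA_iff [DecidableEq ι] (h : OddFamily χ G X D) (hZ : Z ∈ G)
    (hE : Z.X.IsCyc 1 E) (hH : HardLefschetz W Z.X E) :
    (∀ (n : ℕ) (c : Fin n → ι), LefschetzA W (mixed X D Z E c).X (mixed X D Z E c).D) ↔
    LefschetzA W Z.X E ∧ ∀ (n : ℕ) (c : Fin n → ι), 0 < n →
      (∃ e < Z.X.dim, Even (n + e) ∧ level c ≤ primRank W Z.X E e) →
        LefschetzA W (mixed X D Z E c).X (mixed X D Z E c).D := by
  constructor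
  · intro h1
    exact ⟨h1 0 Fin.elim0, fun n c _ _ => h1 n c⟩
  rintro ⟨hLZ, hs⟩ n c
  -- the colours which are used
  set I : Finset ι := univ.image c with hI
  have hc : ∀ s, c s ∈ I := fun s => mem_image_of_mem c (mem_univ s)
  have h1 := OddFamily.finite_case (h.comp (fun i : I => (i : ι)) Subtype.val_injective) hZ hE hH
    hLZ (fun m hm c' hc' => hs m (fun s => (c' s : ι)) hm ?_) n fun s => ⟨c s, hc s⟩
  · exact h1
  obtain ⟨e, he, hev, hle⟩ := hc'
  refine ⟨e, he, hev, le_trans (le_of_eq ?_) hle⟩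
  rw [level]
  have h2 : ∀ i : I, (univ.filter fun s => (c' s : ι) = (i : ι)) =
      (univ.filter fun s => c' s = i) := by
    intro i
    ext s
    rw [mem_filter, mem_filter, Subtype.ext_iff]
  have h3 : ∏ i : I, ((univ.filter fun s => c' s = i).card + 1) =
      ∏ i ∈ I, ((univ.filter fun s => (c' s : ι) = i).card + 1) := by
    rw [← Finset.prod_coe_sort I fun i => (univ.filter fun s => (c' s : ι) = i).card + 1]
    exact Finset.prod_congr rfl fun i _ => by rw [h2 i]
  rw [h3]
  refine Finset.prod_subset ?_ ?_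
  · intro i hi
    obtain ⟨s, _, rfl⟩ := mem_image.1 hi
    exact (c' s).2
  · intro i _ hi
    have h4 : (univ.filter fun s => (c' s : ι) = i) = ∅ := by
      rw [filter_eq_empty_iff]
      intro s _ hs'
      exact hi (mem_image.2 ⟨s, mem_univ s, hs'⟩)
    rw [h4, card_empty, zero_add]

end Pool.Agent.H88.FL
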